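import Pool.Agent.K6.H96.SP.SmF
import Pool.Agent.N929.EZ.Poly3

/-!
# Regularity to all orders for smooth functionals of the occupied slots
-/

set_option autoImplicit false
set_option linter.unusedVariables false

namespace Pool.Agent.K6.H96.SP

open Pool.Agent.H976R2 Pool.Agent.H976R2.Dir Finset
open Pool.Agent.N929.EX Pool.Agent.N929.EY Pool.Agent.N929.EZ
open Pool.Agent.H739K (KP)
open scoped Classical

noncomputable section

theorem Sm.congr {σ : Type} {δ : ℝ} {s : ℕ} : ∀ {E : Finset σ} {Φ Ψ : Finset σ → ℝ} {M : ℝ},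
    Sm δ s E Φ M → (∀ U ⊆ E, Ψ U = Φ U) → Sm δ s E Ψ M := by
  induction s with
  | zero =>
    intro E Φ Ψ M h he U hU
    rw [he U hU]
    exact h U hU
  | succ s ih =>
    intro E Φ Ψ M h he
    refine ⟨fun U hU => by rw [he U hU]; exact h.1 U hU, fun x hx => ?_⟩
    refine ih (h.2 x hx) (fun U hU => ?_)
    have h1 : U ⊆ E := hU.trans (erase_subset _ _)
    rw [he U h1, he (insert x U) (insert_subset hx h1)]

theorem Sm.zero {σ : Type} {δ : ℝ} {s : ℕ} : ∀ {E : Finset σ}, Sm δ s E (fun _ => 0) 0 := by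
  induction s with
  | zero =>
    intro E U hU
    simp
  | succ s ih =>
    intro E
    refine ⟨fun U _ => by simp, fun x hx => ?_⟩
    have := ih (E := E.erase x)
    simpa using this

theorem Sm.empty {σ : Type} {δ : ℝ} {s : ℕ} {Φ : Finset σ → ℝ} {M : ℝ} (h : |Φ ∅| ≤ M) :
    Sm δ s (∅ : Finset σ) Φ M := by
  cases s with
  | zero =>
    intro U hU
    rw [subset_empty] at hU
    subst hU
    exact h
  | succ s =>
    refine ⟨fun U hU => ?_, fun x hx => absurd hx (notMem_empty x)⟩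
    rw [subset_empty] at hU
    subst hU
    exact h

/-- the balanced part -/
theorem goodS (hdfj : S_DFJ) (r : ℕ) (m : ℝ) (hm : 1 ≤ m) : ∃ C : ℝ, 0 < C ∧
    ∀ (n a l : ℕ) (ε δ : ℝ), a + l ≤ n → 0 < ε → ε ≤ 1 → 0 ≤ δ → δ ≤ ε →
      ∀ (L : Finset (ℤ × ℤ)) (st : List Dir → List Dir)
        (fl : List Dir → Finset (ℤ × ℤ) → List Dir), N929.EZ.Fill L a l st fl →
        ∀ (F M : List Dir → ℝ), (∀ w, 0 ≤ M w) →
        (∀ w, N929.EZ.Em L a l w → Sm δ r (N929.EZ.Sl L a l w) (fun U => F (fl w U)) (M w)) →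
        |∑ i ∈ range (r + 1), (-1 : ℝ) ^ i * (r.choose i : ℝ) *
          ((∑ w ∈ GG L m ε n a l i, F w) / m ^ i)| ≤ C * ε ^ r * (∑ w ∈ SW n, M (st w)) := by
  obtain ⟨C, hC, hd⟩ := sm_al (σ := ℤ × ℤ) hdfj r m hm
  refine ⟨C, hC, fun n a l ε δ hal hε hε1 hδ hδε L st fl hfl F M hM hF => ?_⟩
  have e1 : ∀ w ∈ XX L m ε n a l, |∑ i ∈ range (r + 1), (-1 : ℝ) ^ i * (r.choose i : ℝ) *
      ((∑ U ∈ (N929.EZ.Sl L a l w).powersetCard (kk n w + i), F (fl w U)) / m ^ i)| ≤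
      C * ε ^ r * ∑ U ∈ (N929.EZ.Sl L a l w).powersetCard (kk n w + 0), M w := by
    intro w hw
    obtain ⟨h1, h2, h3, h4, h5⟩ := mem_XX.1 hw
    have h6 := hd (N929.EZ.Sl L a l w) (fun U => F (fl w U)) (M w) δ ε (kk n w) (hM w) hδ hδε hε hε1
      (hF w h1) h3 h4 h5
    refine h6.trans (le_of_eq ?_)
    rw [Nat.add_zero, sum_const, card_powersetCard, nsmul_eq_mul]
    ring
  have e2 : ∑ i ∈ range (r + 1), (-1 : ℝ) ^ i * (r.choose i : ℝ) *
      ((∑ w ∈ GG L m ε n a l i, F w) / m ^ i) =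
      ∑ w ∈ XX L m ε n a l, ∑ i ∈ range (r + 1), (-1 : ℝ) ^ i * (r.choose i : ℝ) *
        ((∑ U ∈ (N929.EZ.Sl L a l w).powersetCard (kk n w + i), F (fl w U)) / m ^ i) := by
    rw [sum_comm]
    refine sum_congr rfl (fun i _ => ?_)
    rw [gg_sum hfl hal, Finset.sum_div, mul_sum]
  rw [e2]
  refine (abs_sum_le_sum_abs _ _).trans ((sum_le_sum e1).trans ?_)
  rw [← mul_sum]
  refine mul_le_mul_of_nonneg_left ?_ (by positivity)
  have e3 : ∑ w ∈ XX L m ε n a l, ∑ U ∈ (N929.EZ.Sl L a l w).powersetCard (kk n w + 0), M w =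
      ∑ w ∈ GG L m ε n a l 0, M (st w) := by
    rw [gg_sum hfl hal (fun w => M (st w))]
    refine sum_congr rfl (fun w hw => sum_congr rfl (fun U hU => ?_))
    rw [hfl.st_fl w U (mem_XX.1 hw).1 (mem_powersetCard.1 hU).1]
  rw [e3]
  refine sum_le_sum_of_subset_of_nonneg ?_ (fun w _ _ => hM _)
  unfold GG
  rw [Nat.mul_zero, Nat.add_zero]
  exact filter_subset _ _

/-- AOF for smooth functionals -/
theorem aofS (hdfj : S_DFJ) (hmv : N929.EZ.S_MV) (hrat : S_RAT) (hfam : S_FAM3)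
    (hup : N929.EX.S_UP) : ∃ μ K : ℝ, 2.43 ≤ μ ∧ 0 ≤ K ∧ (∀ n : ℕ, μ ^ n ≤ ((SW n).card : ℝ)) ∧
    (∀ m n : ℕ, 2 ≤ n → m ≤ n →
      ((SW m).card : ℝ) ≤ 4 * (μ ^ m * Real.exp (K * Real.log n ^ 2))) ∧
    ∀ r : ℕ, ∃ A C : ℝ, 0 < A ∧ 0 < C ∧ ∀ (n a l : ℕ) (ε δ : ℝ), 2 ≤ n → 2 * (a + l) ≤ n →
      0 < ε → ε ≤ 1 → 0 ≤ δ → δ ≤ ε → A * Real.log n ^ 2 ≤ ε ^ 2 * n →
      ∀ D : Set (ℤ × ℤ), ∃ L : Finset (ℤ × ℤ), CF L ∧ (∀ q ∈ L, Cs D q) ∧
        ∀ st fl, N929.EZ.Fill L a l st fl → ∀ (F M : List Dir → ℝ) (B : ℝ), 0 ≤ B → (∀ w, 0 ≤ M w) →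
          (∀ i ∈ range (r + 1), ∀ w ∈ SW (n + 2 * i), |F w| ≤ B) →
          (∀ w, F w ≠ 0 → ∀ t, t ≤ w.length → Lip.PP w t ∈ D) →
          (∀ w, N929.EZ.Em L a l w → Sm δ r (N929.EZ.Sl L a l w) (fun U => F (fl w U)) (M w)) →
          |∑ i ∈ range (r + 1), (-1 : ℝ) ^ i * (r.choose i : ℝ) *
            ((∑ w ∈ SW (n + 2 * i), F w) / μ ^ (2 * i))| ≤
            C * (ε ^ r * (∑ w ∈ SW n, M (st w)) +
              B * (Real.exp (-(ε ^ 2 * n / A)) * ((SW n).card : ℝ))) := by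
  obtain ⟨μ, K, hμ, hK, hlow, hupp⟩ := hup
  refine ⟨μ, K, hμ, hK, hlow, hupp, fun r => ?_⟩
  obtain ⟨c, C₀, hc, hC₀, hf⟩ := hfam
  have hμ1 : 1 ≤ μ := by linarith
  obtain ⟨C₁, hC₁, hg⟩ := goodS hdfj r (μ ^ 2) (one_le_pow₀ hμ1)
  obtain ⟨A, C₂, hA, hC₂, hu⟩ := unb hmv hrat hc hC₀ hμ1 hK hlow hupp r
  refine ⟨A, C₁ + 2 ^ r * C₂, hA, by positivity, ?_⟩
  intro n a l ε δ hn hal hε hε1 hδ hδε hAn D
  obtain ⟨L, hL, hLD, hfa⟩ := hf n hn D
  refine ⟨L, hL, hLD, fun st fl hfl F M B hB hM hFB hD hI => ?_⟩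
  have hμ0 : 0 < μ := by linarith
  have hg' := hg n a l ε δ (by omega) hε hε1 hδ hδε L st fl hfl F M hM hI
  obtain ⟨E, hE⟩ : ∃ E : ℝ, E = Real.exp (-(ε ^ 2 * n / A)) * ((SW n).card : ℝ) := ⟨_, rfl⟩
  rw [← hE]
  have hE0 : 0 ≤ E := by rw [hE]; positivity
  -- the remaining walks
  have hbad : ∀ i ∈ range (r + 1), |(∑ w ∈ SW (n + 2 * i), F w) / μ ^ (2 * i) -
      (∑ w ∈ GG L (μ ^ 2) ε n a l i, F w) / (μ ^ 2) ^ i| ≤ B * (C₂ * E) := by
    intro i hi'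
    have hi := mem_range.1 hi'
    have h1 := hu n a l i ε hn hal (by omega) hε hε1 hAn D L hL hfa
    rw [← pow_mul, ← sub_div]
    have h2 : (∑ w ∈ SW (n + 2 * i), F w) - (∑ w ∈ GG L (μ ^ 2) ε n a l i, F w) =
        ∑ w ∈ (SW (n + 2 * i)).filter (fun w => ¬ Bal (μ ^ 2) ε i
          (DD L 1 (a, n + 2 * i - l) w).card (OO L 1 (a, n + 2 * i - l) w).card), F w := by
      rw [GG, sub_eq_iff_eq_add]
      have := sum_filter_add_sum_filter_not (SW (n + 2 * i)) (fun w => Bal (μ ^ 2) ε i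
          (DD L 1 (a, n + 2 * i - l) w).card (OO L 1 (a, n + 2 * i - l) w).card) F
      linarith
    rw [h2, abs_div, abs_of_pos (show 0 < μ ^ (2 * i) by positivity),
      div_le_iff₀ (by positivity)]
    refine (abs_sum_le_sum_abs _ _).trans ?_
    have h3 : ∑ w ∈ (SW (n + 2 * i)).filter (fun w => ¬ Bal (μ ^ 2) ε i
          (DD L 1 (a, n + 2 * i - l) w).card (OO L 1 (a, n + 2 * i - l) w).card), |F w| ≤
        B * (((SW (n + 2 * i)).filter (fun w => (∀ t, t ≤ n + 2 * i → Lip.PP w t ∈ D) ∧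
        ¬ Bal (μ ^ 2) ε i (DD L 1 (a, n + 2 * i - l) w).card
          (OO L 1 (a, n + 2 * i - l) w).card)).card : ℝ) := by
      have e1 : (((SW (n + 2 * i)).filter (fun w => (∀ t, t ≤ n + 2 * i → Lip.PP w t ∈ D) ∧
        ¬ Bal (μ ^ 2) ε i (DD L 1 (a, n + 2 * i - l) w).card
          (OO L 1 (a, n + 2 * i - l) w).card)).card : ℝ) =
          ∑ w ∈ (SW (n + 2 * i)).filter (fun w => ¬ Bal (μ ^ 2) ε i
          (DD L 1 (a, n + 2 * i - l) w).card (OO L 1 (a, n + 2 * i - l) w).card),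
            (if (∀ t, t ≤ n + 2 * i → Lip.PP w t ∈ D) then (1 : ℝ) else 0) := by
        rw [sum_ite, sum_const, sum_const_zero, add_zero, nsmul_eq_mul, mul_one, filter_filter]
        congr 2
        ext w
        simp only [mem_filter]
        tauto
      rw [e1, mul_sum]
      refine sum_le_sum (fun w hw => ?_)
      rw [mem_filter] at hw
      split_ifs with h
      · rw [mul_one]
        exact hFB i hi' w hw.1
      · rw [mul_zero]
        by_contra hcon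
        apply h
        have h4 : F w ≠ 0 := fun h5 => hcon (le_of_eq (by rw [h5, abs_zero]))
        have h5 := hD w h4
        have h6 : w.length = n + 2 * i := (mem_SW.1 hw.1).1
        rw [h6] at h5
        exact h5
    refine h3.trans ((mul_le_mul_of_nonneg_left h1 hB).trans (le_of_eq ?_))
    rw [hE]
    ring
  have e : ∑ i ∈ range (r + 1), (-1 : ℝ) ^ i * (r.choose i : ℝ) *
        ((∑ w ∈ SW (n + 2 * i), F w) / μ ^ (2 * i)) =
      ∑ i ∈ range (r + 1), (-1 : ℝ) ^ i * (r.choose i : ℝ) *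
        ((∑ w ∈ GG L (μ ^ 2) ε n a l i, F w) / (μ ^ 2) ^ i) +
      ∑ i ∈ range (r + 1), (-1 : ℝ) ^ i * (r.choose i : ℝ) *
        ((∑ w ∈ SW (n + 2 * i), F w) / μ ^ (2 * i) -
          (∑ w ∈ GG L (μ ^ 2) ε n a l i, F w) / (μ ^ 2) ^ i) := by
    rw [← sum_add_distrib]
    exact sum_congr rfl (fun i _ => by ring)
  rw [e]
  refine (abs_add_le _ _).trans ?_
  have h3 : |∑ i ∈ range (r + 1), (-1 : ℝ) ^ i * (r.choose i : ℝ) *
        ((∑ w ∈ SW (n + 2 * i), F w) / μ ^ (2 * i) -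
          (∑ w ∈ GG L (μ ^ 2) ε n a l i, F w) / (μ ^ 2) ^ i)| ≤ 2 ^ r * (B * (C₂ * E)) := by
    refine (abs_sum_le_sum_abs _ _).trans ?_
    have h4 : ∑ i ∈ range (r + 1), (r.choose i : ℝ) = 2 ^ r := by
      exact_mod_cast Nat.sum_range_choose r
    rw [← h4, sum_mul]
    refine sum_le_sum (fun i hi => ?_)
    rw [abs_mul, abs_mul, abs_pow, abs_neg, abs_one, one_pow, one_mul, Nat.abs_cast]
    exact mul_le_mul_of_nonneg_left (hbad i hi) (Nat.cast_nonneg _)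
  have hS : 0 ≤ ∑ w ∈ SW n, M (st w) := sum_nonneg (fun w _ => hM _)
  have hp : 0 ≤ (2 : ℝ) ^ r * C₂ := by positivity
  calc _ ≤ C₁ * ε ^ r * (∑ w ∈ SW n, M (st w)) + 2 ^ r * (B * (C₂ * E)) := add_le_add hg' h3
    _ ≤ C₁ * ε ^ r * (∑ w ∈ SW n, M (st w)) + 2 ^ r * (B * (C₂ * E)) +
        (2 ^ r * C₂ * (ε ^ r * (∑ w ∈ SW n, M (st w))) + C₁ * (B * E)) := by
        have : 0 ≤ 2 ^ r * C₂ * (ε ^ r * (∑ w ∈ SW n, M (st w))) + C₁ * (B * E) := by positivity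
        linarith
    _ = _ := by ring

/-- regularity of smooth functionals of polygons -/
theorem paofS : ∀ r : ℕ, ∃ A C : ℝ, 0 < A ∧ 0 < C ∧ ∀ (n : ℕ) (ε δ : ℝ), 3 ≤ n →
      0 < ε → ε ≤ 1 → 0 ≤ δ → δ ≤ ε → A * Real.log n ^ 2 ≤ ε ^ 2 * n →
      ∃ L : Finset (ℤ × ℤ), CF L ∧
        ∀ st fl, N929.EZ.Fill L 0 0 st fl → ∀ (F M : List Dir → ℝ) (B : ℝ), 0 ≤ B →
          (∀ w, 0 ≤ M w) →
          (∀ i ∈ range (r + 1), ∀ w ∈ KP (n + 2 * i), |F w| ≤ B) →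
          (∀ w, N929.EZ.Em L 0 0 w → sq w = 1 → 3 ≤ w.length →
            Sm δ r (N929.EZ.Sl L 0 0 w) (fun U => F (fl w U)) (M w)) →
          |∑ i ∈ range (r + 1), (-1 : ℝ) ^ i * (r.choose i : ℝ) *
            ((∑ w ∈ KP (n + 2 * i), F w) / H981.mu ^ (2 * i))| ≤
            C * (ε ^ r * (∑ w ∈ KP n, M (st w)) +
              B * (Real.exp (-(ε ^ 2 * n / A)) * ((SW n).card : ℝ))) := by
  obtain ⟨μ, K, hμ, hK, hlow, hupp, h⟩ := aofS Pool.Agent.N861.EZ.dfj s_mv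
    Pool.Agent.N278.EZ.rat s_fam3 Pool.Agent.N348.EX.up
  have hmu := mu_eq hμ hK hlow hupp
  rw [hmu] at hμ hlow hupp h
  intro r
  obtain ⟨A, C, hA, hC, h1⟩ := h r
  refine ⟨A, C, hA, hC, fun n ε δ hn hε hε1 hδ hδε hAn => ?_⟩
  obtain ⟨L, hL, hLD, hl⟩ := h1 n 0 0 ε δ (by omega) (by omega) hε hε1 hδ hδε hAn Set.univ
  refine ⟨L, hL, fun st fl hfl F M B hB hM0 hFB hRp => ?_⟩
  have h2 := hl st fl hfl (fun w => N929.EZ.cl w * F w)
    (fun w => if sq w = 1 then (if 3 ≤ w.length then M w else |F w|) else 0) B hB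
    (fun w => by
      split_ifs
      · exact hM0 w
      · exact abs_nonneg _
      · exact le_rfl)
    (fun i hi w hw => by
      by_cases hs : sq w = 1
      · have hcw : N929.EZ.cl w = 1 := by unfold N929.EZ.cl; rw [if_pos hs]
        rw [hcw, one_mul]
        refine hFB i hi w ?_
        unfold KP
        rw [mem_filter]
        exact ⟨hw, hs⟩
      · have hcw : N929.EZ.cl w = 0 := by unfold N929.EZ.cl; rw [if_neg hs]
        rw [hcw, zero_mul, abs_zero]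
        exact hB)
    (fun w _ t _ => Set.mem_univ _)
    (fun w hw => by
      have hcl : ∀ U ⊆ N929.EZ.Sl L 0 0 w, N929.EZ.cl (fl w U) = N929.EZ.cl w := fun U hU =>
        N929.EZ.fl_inv hfl hLD (cl_iv Set.univ) hw hU
      by_cases hs : sq w = 1
      · have hcw : N929.EZ.cl w = 1 := by unfold N929.EZ.cl; rw [if_pos hs]
        rw [if_pos hs]
        by_cases h3 : 3 ≤ w.length
        · rw [if_pos h3]
          refine (hRp w hw hs h3).congr (fun U hU => ?_)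
          rw [hcl U hU, hcw, one_mul]
        · rw [if_neg h3]
          have hS := no_slots (L := L) h3
          rw [hS]
          refine Sm.empty ?_
          rw [hfl.fl_empty w hw, hcw, one_mul]
      · have hcw : N929.EZ.cl w = 0 := by unfold N929.EZ.cl; rw [if_neg hs]
        rw [if_neg hs]
        refine Sm.zero.congr (fun U hU => ?_)
        rw [hcl U hU, hcw, zero_mul])
  simp only [sum_cl] at h2
  refine h2.trans (le_of_eq ?_)
  congr 3
  unfold KP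
  rw [sum_filter]
  refine sum_congr rfl (fun w hw => ?_)
  have hl : w.length = n := (mem_SW.1 hw).1
  have hw' : w ∈ SW w.length := by rw [hl]; exact hw
  have e1 := hfl.st_em w (by omega) hw'
  have e2 := hfl.fl_st w (by omega) hw'
  have e3 : N929.EZ.Oc L 0 0 w ⊆ N929.EZ.Sl L 0 0 (st w) := by
    rw [hfl.st_sl w (by omega) hw']
    unfold N929.EZ.Sl N929.EZ.Oc
    exact OO_sub'
  have e4 : N929.EZ.cl w = N929.EZ.cl (st w) := by
    have := N929.EZ.fl_inv hfl hLD (cl_iv Set.univ) e1 e3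
    rwa [e2] at this
  have e5 : sq (st w) = 1 ↔ sq w = 1 := by
    unfold N929.EZ.cl at e4
    by_cases a1 : sq w = 1 <;> by_cases a2 : sq (st w) = 1 <;> simp [a1, a2] at e4 ⊢
  by_cases a1 : sq w = 1
  · have a2 := e5.2 a1
    rw [if_pos a2, if_pos a1]
    by_cases a3 : 3 ≤ (st w).length
    · rw [if_pos a3]
    · exfalso
      have b1 := no_slots (L := L) a3
      rw [b1, subset_empty] at e3
      have b2 := hfl.st_len w (by omega) hw'
      rw [e3, card_empty] at b2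
      omega
  · have a2 : ¬ sq (st w) = 1 := fun h => a1 (e5.1 h)
    rw [if_neg a2, if_neg a1]

end

end Pool.Agent.K6.H96.SP
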