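import Pool.Agent.H739K.HOR
import Pool.Agent.H739K.F2a

/-!
# The area of a polygon is at least a quarter of its perimeter
-/

set_option autoImplicit false
set_option linter.unusedVariables false

namespace Pool.Agent.K6.H96.SP

open Finset Pool.Agent.H976R2 Pool.Agent.H924P Pool.Agent.H739K Pool.Agent.H739K.HORaux
open scoped Classical

/-- the edge `k` is vertical, above the point `(a, b)` -/
def Vr (m : ℕ) (f : ZMod m → ℤ × ℤ) (a b : ℤ) (k : ZMod m) : Prop :=
  (f k = (a, b) ∧ f (k + 1) = (a, b + 1)) ∨ (f k = (a, b + 1) ∧ f (k + 1) = (a, b))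

variable {m : ℕ} {f : ZMod m → ℤ × ℤ}

/-- indicator in `ZMod 2` -/
noncomputable def z2 (P : Prop) : ZMod 2 := if P then 1 else 0

theorem z2_card [NeZero m] (P : ZMod m → Prop) :
    ∑ k, z2 (P k) = ((Nat.card {k : ZMod m // P k} : ℕ) : ZMod 2) := by
  unfold z2
  rw [Nat.card_eq_fintype_card, Fintype.card_subtype, Finset.sum_boole]

theorem z2_step (hs : ∀ i : ZMod m, |(f (i+1)).1 - (f i).1| + |(f (i+1)).2 - (f i).2| = 1)
    (a b : ℤ) (k : ZMod m) :
    z2 ((f k).1 = a ∧ b < (f k).2) + z2 ((f (k + 1)).1 = a ∧ b < (f (k + 1)).2) =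
      z2 (Above m f (a - 1) b k) + z2 (Above m f a b k) + z2 (Vr m f a b k) := by
  have h := hs k
  obtain ⟨x, hx⟩ : ∃ x, x = (f k).1 := ⟨_, rfl⟩
  obtain ⟨y, hy⟩ : ∃ y, y = (f k).2 := ⟨_, rfl⟩
  obtain ⟨x', hx'⟩ : ∃ x, x = (f (k + 1)).1 := ⟨_, rfl⟩
  obtain ⟨y', hy'⟩ : ∃ y, y = (f (k + 1)).2 := ⟨_, rfl⟩
  have e1 : f k = (x, y) := by rw [hx, hy]
  have e2 : f (k + 1) = (x', y') := by rw [hx', hy']
  unfold Above Vr
  rw [e1, e2] at h ⊢
  simp only [Prod.mk.injEq] at h ⊢
  have hcase : (x' = x + 1 ∧ y' = y) ∨ (x' = x - 1 ∧ y' = y) ∨ (x' = x ∧ y' = y + 1) ∨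
      (x' = x ∧ y' = y - 1) := by
    have a1 := abs_nonneg (x' - x)
    have a2 := abs_nonneg (y' - y)
    rcases abs_cases (x' - x) with h1 | h1 <;> rcases abs_cases (y' - y) with h2 | h2 <;> omega
  have two : (1 : ZMod 2) + 1 = 0 := by decide
  unfold z2
  rcases hcase with ⟨rfl, rfl⟩ | ⟨rfl, rfl⟩ | ⟨rfl, rfl⟩ | ⟨rfl, rfl⟩
  all_goals
    split_ifs <;> first
      | (exfalso; omega)
      | exact two
      | (simp; done)
      | decide

theorem z2_shift [NeZero m] (P : ZMod m → Prop) :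
    ∑ k, (z2 (P k) + z2 (P (k + 1))) = 0 := by
  rw [sum_add_distrib]
  have h : ∑ k : ZMod m, z2 (P (k + 1)) = ∑ k, z2 (P k) :=
    Equiv.sum_comp (Equiv.addRight (1 : ZMod m)) (fun k => z2 (P k))
  rw [h]
  have two : ∀ x : ZMod 2, x + x = 0 := by decide
  exact two _

theorem vr_uniq (hm : 4 ≤ m) (hinj : Function.Injective f) {a b : ℤ} {j k : ZMod m}
    (hj : Vr m f a b j) (hk : Vr m f a b k) : j = k := by
  have h2 : (2 : ZMod m) ≠ 0 := by
    intro h
    have h3 : (m : ℕ) ∣ 2 := (ZMod.natCast_eq_zero_iff 2 m).mp (by exact_mod_cast h)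
    have := Nat.le_of_dvd (by norm_num) h3
    omega
  rcases hj with ⟨h3, h4⟩ | ⟨h3, h4⟩ <;> rcases hk with ⟨h5, h6⟩ | ⟨h5, h6⟩
  · exact hinj (h3.trans h5.symm)
  · exfalso
    have e1 : j = k + 1 := hinj (h3.trans h6.symm)
    have e2 : j + 1 = k := hinj (h4.trans h5.symm)
    apply h2
    have : k + 1 + 1 = k := by rw [← e1]; exact e2
    have h7 : k + 2 = k + 0 := by
      calc k + 2 = k + 1 + 1 := by ring
        _ = k + 0 := by rw [this, add_zero]
    exact add_left_cancel h7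
  · exfalso
    have e1 : j = k + 1 := hinj (h3.trans h6.symm)
    have e2 : j + 1 = k := hinj (h4.trans h5.symm)
    apply h2
    have : k + 1 + 1 = k := by rw [← e1]; exact e2
    have h7 : k + 2 = k + 0 := by
      calc k + 2 = k + 1 + 1 := by ring
        _ = k + 0 := by rw [this, add_zero]
    exact add_left_cancel h7
  · exact hinj (h3.trans h5.symm)

/-- exactly one of the two cells on the sides of a vertical edge is enclosed -/
theorem encl_ver [NeZero m] (hm : 4 ≤ m) (hinj : Function.Injective f)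
    (hs : ∀ i : ZMod m, |(f (i+1)).1 - (f i).1| + |(f (i+1)).2 - (f i).2| = 1)
    {a b : ℤ} {k : ZMod m} (hk : Vr m f a b k) :
    Encl m f (a - 1, b) ↔ ¬ Encl m f (a, b) := by
  have h1 := z2_shift (fun k => (f k).1 = a ∧ b < (f k).2)
  rw [sum_congr rfl (fun k _ => z2_step hs a b k), sum_add_distrib, sum_add_distrib, z2_card,
    z2_card, z2_card] at h1
  have h2 : Nat.card {k : ZMod m // Vr m f a b k} = 1 := by
    rw [Nat.card_eq_one_iff_unique]
    exact ⟨⟨fun x y => Subtype.ext (vr_uniq hm hinj x.2 y.2)⟩, ⟨⟨k, hk⟩⟩⟩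
  rw [h2] at h1
  unfold Encl
  simp only
  obtain ⟨A, hA⟩ : ∃ A, A = Nat.card {k : ZMod m // Above m f (a - 1) b k} := ⟨_, rfl⟩
  obtain ⟨B, hB⟩ : ∃ B, B = Nat.card {k : ZMod m // Above m f a b k} := ⟨_, rfl⟩
  rw [← hA, ← hB] at h1 ⊢
  have h3 : ((A + B + 1 : ℕ) : ZMod 2) = 0 := by
    push_cast
    push_cast at h1
    exact h1
  have h4 : 2 ∣ A + B + 1 := (ZMod.natCast_eq_zero_iff _ 2).1 h3
  rw [Nat.odd_iff, Nat.odd_iff]
  omega

/-- the number of vertical edges is at most twice the area -/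
theorem VER (hm : 4 ≤ m) (hf : IsLoop m f) :
    Nat.card {k : ZMod m // (f (k + 1)).1 = (f k).1} ≤ 2 * area m f := by
  haveI : NeZero m := ⟨by omega⟩
  obtain ⟨-, hinj, hs⟩ := hf
  haveI := finite_encl (f := f) hs
  let b : ZMod m → ℤ := fun k => min (f k).2 (f (k + 1)).2
  have hcr : ∀ k : ZMod m, (f (k + 1)).1 = (f k).1 → Vr m f (f k).1 (b k) k := by
    intro k hk
    have h1 := hs k
    rw [hk, sub_self, abs_zero, zero_add] at h1
    simp only [b]
    rcases abs_eq (by norm_num : (0 : ℤ) ≤ 1) |>.mp h1 with h2 | h2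
    · left
      rw [min_eq_left (by omega)]
      exact ⟨rfl, Prod.ext hk (by simp only; omega)⟩
    · right
      rw [min_eq_right (by omega)]
      exact ⟨Prod.ext rfl (by simp only; omega), Prod.ext hk rfl⟩
  have hA : area m f = Nat.card {c : ℤ × ℤ // Encl m f c} := rfl
  let Φ : {k : ZMod m // (f (k + 1)).1 = (f k).1} → {c : ℤ × ℤ // Encl m f c} × Bool :=
    fun k => if h : Encl m f ((f k.1).1, b k.1) then (⟨((f k.1).1, b k.1), h⟩, true)
      else (⟨((f k.1).1 - 1, b k.1), (encl_ver hm hinj hs (hcr k.1 k.2)).mpr h⟩, false)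
  have hΦ : Function.Injective Φ := by
    rintro ⟨k, hk⟩ ⟨j, hj⟩ h
    apply Subtype.ext
    simp only [Φ] at h
    have key : b k = b j → (f k).1 = (f j).1 → k = j := by
      intro h1 h2
      have h3 := hcr k hk
      rw [h1, h2] at h3
      exact vr_uniq hm hinj h3 (hcr j hj)
    split_ifs at h with h1 h2 h2
    · have h3 := congrArg (fun p => p.1.1) h
      simp only [Prod.mk.injEq] at h3
      exact key h3.2 h3.1
    · simp at h
    · simp at h
    · have h3 := congrArg (fun p => p.1.1) h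
      simp only [Prod.mk.injEq] at h3
      exact key h3.2 (by omega)
  have h1 := Nat.card_le_card_of_injective Φ hΦ
  rw [Nat.card_prod, Nat.card_eq_fintype_card (α := Bool), Fintype.card_bool] at h1
  rw [hA]
  linarith

/-- the area is at least a quarter of the perimeter -/
theorem area_pt (hm : 4 ≤ m) (hf : IsLoop m f) : m ≤ 4 * area m f := by
  haveI : NeZero m := ⟨by omega⟩
  have h1 := VER hm hf
  have h2 := HOR_proof m f hm hf
  have h3 := hor_add_ver hf
  omega

end Pool.Agent.K6.H96.SP
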