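import Pool.Agent.K6.H96.SP.Inj
import Pool.Agent.K6.H96.SP.Ver
import Pool.Agent.H739K.AREA
import Pool.Agent.H739K.F2
import Pool.Agent.H739K.CONV

/-!
# The injections that make the box of a polygon larger
-/

set_option autoImplicit false
set_option linter.unusedVariables false

namespace Pool.Agent.K6.H96.SP

open Pool.Agent.H976R2 Pool.Agent.H976R2.Dir Finset
open Pool.Agent.N929.EZ
open Pool.Agent.H739K (KP ar)
open scoped Classical

noncomputable section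

theorem kp_mem {n : ℕ} {w : List Dir} : w ∈ KP n ↔ w.length = n ∧ Saw w ∧ sq w = 1 := by
  unfold KP
  rw [mem_filter, mem_SW]
  tauto

/-- the area of a polygon is at least a quarter of its perimeter -/
theorem ar_pt {n : ℕ} {w : List Dir} (hn : 3 ≤ n) (hw : w ∈ KP n) : n + 1 ≤ 4 * ar w := by
  obtain ⟨h1, h2, h3⟩ := kp_mem.1 hw
  have hl := Pool.Agent.H739K.F2aux.loop_of Pool.Agent.H739K.CONV_proof (by omega) h2 h3
  have := area_pt (by omega) hl
  unfold ar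
  omega

/-- width -/
def eW (w : List Dir) : ℤ := mxx w - mnx w

/-- height -/
def eH (w : List Dir) : ℤ := mxy w - mny w

theorem eW_mh (w : List Dir) : eW w = mh E w + mh W w := by
  unfold eW mh
  ring

theorem eH_mh (w : List Dir) : eH w = mh N w + mh S w := by
  unfold eH mh
  ring

theorem ext_ne {w : List Dir} (hw : Saw w) (hs : sq w = 1) (h3 : 3 ≤ w.length) (e : Dir) :
    ∃ s t, s ≤ w.length ∧ t ≤ w.length ∧ s ≠ t ∧
      hh e (Lip.PP w s) = hh e (Lip.PP w t) := by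
  rcases ext_edge hw hs h3 e with ⟨i, hi, h1, h2⟩ | ⟨h1, h2⟩
  · exact ⟨i, i + 1, by omega, by omega, by omega, h1.trans h2.symm⟩
  · exact ⟨0, w.length, by omega, le_rfl, by omega, h1.trans h2.symm⟩

theorem eW_pos {w : List Dir} (hw : Saw w) (hs : sq w = 1) (h3 : 3 ≤ w.length) : 1 ≤ eW w := by
  obtain ⟨s, t, h1, h2, hne, h⟩ := ext_ne hw hs h3 N
  have a1 := le_mxx w h1
  have a2 := le_mxx w h2
  have a3 := mnx_le w h1
  have a4 := mnx_le w h2
  by_contra hcon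
  unfold eW at hcon
  apply hne
  refine Lip.PP_inj hw h1 h2 (Prod.ext (by omega) ?_)
  unfold hh at h
  simp only [dx, dy] at h
  omega

theorem eH_pos {w : List Dir} (hw : Saw w) (hs : sq w = 1) (h3 : 3 ≤ w.length) : 1 ≤ eH w := by
  obtain ⟨s, t, h1, h2, hne, h⟩ := ext_ne hw hs h3 E
  have a1 := le_mxy w h1
  have a2 := le_mxy w h2
  have a3 := mny_le w h1
  have a4 := mny_le w h2
  by_contra hcon
  unfold eH at hcon
  apply hne
  refine Lip.PP_inj hw h1 h2 (Prod.ext ?_ (by omega))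
  unfold hh at h
  simp only [dx, dy] at h
  omega

theorem ex_W {w : List Dir} (hw : Saw w) (hs : sq w = 1) (h3 : 3 ≤ w.length) :
    (∃ i, Xi E w i) ∨ ∃ i, Xi W w i := by
  have hp := eW_pos hw hs h3
  rw [eW_mh] at hp
  rcases ext_edge hw hs h3 E with ⟨i, hi, h1, h2⟩ | ⟨h1, h2⟩
  · exact Or.inl ⟨i, hi, h1, h2⟩
  · rcases ext_edge hw hs h3 W with ⟨i, hi, h1', h2'⟩ | ⟨h1', h2'⟩
    · exact Or.inr ⟨i, hi, h1', h2'⟩
    · exfalso
      rw [PP_zero] at h1 h1'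
      unfold hh at h1 h1'
      simp at h1 h1'
      omega

theorem ex_H {w : List Dir} (hw : Saw w) (hs : sq w = 1) (h3 : 3 ≤ w.length) :
    (∃ i, Xi N w i) ∨ ∃ i, Xi S w i := by
  have hp := eH_pos hw hs h3
  rw [eH_mh] at hp
  rcases ext_edge hw hs h3 N with ⟨i, hi, h1, h2⟩ | ⟨h1, h2⟩
  · exact Or.inl ⟨i, hi, h1, h2⟩
  · rcases ext_edge hw hs h3 S with ⟨i, hi, h1', h2'⟩ | ⟨h1', h2'⟩
    · exact Or.inr ⟨i, hi, h1', h2'⟩
    · exfalso
      rw [PP_zero] at h1 h1'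
      unfold hh at h1 h1'
      simp at h1 h1'
      omega

/-- insertion of a bump at an extreme edge, in one of two directions -/
def gr (e f : Dir) (w : List Dir) : List Dir :=
  if h : ∃ i, Xi e w i then ins w h.choose e
  else if h : ∃ i, Xi f w i then ins w h.choose f else w

theorem gr_spec {e f : Dir} {w : List Dir} (h : (∃ i, Xi e w i) ∨ ∃ i, Xi f w i) :
    ∃ g i, (g = e ∨ g = f) ∧ Xi g w i ∧ gr e f w = ins w i g := by
  unfold gr
  by_cases h1 : ∃ i, Xi e w i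
  · rw [dif_pos h1]
    exact ⟨e, h1.choose, Or.inl rfl, h1.choose_spec, rfl⟩
  · rw [dif_neg h1]
    have h2 : ∃ i, Xi f w i := h.resolve_left h1
    rw [dif_pos h2]
    exact ⟨f, h2.choose, Or.inr rfl, h2.choose_spec, rfl⟩

theorem xi_kp {n : ℕ} {w : List Dir} {g : Dir} {i : ℕ} (hw : w ∈ KP n) (h : Xi g w i) :
    ins w i g ∈ KP (n + 2) := by
  obtain ⟨h1, h2, h3⟩ := kp_mem.1 hw
  refine kp_mem.2 ⟨?_, h.saw h2, ?_⟩
  · rw [Lip.ins_length w i g h.lt', h1]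
  · rw [sq_ins g h.lt', h3]

theorem sum_inj {α β : Type*} [DecidableEq β] (s : Finset α) (t : Finset β) (g : α → β)
    (hg : ∀ a ∈ s, g a ∈ t) (hinj : Set.InjOn g s) (F : β → ℝ) (hF : ∀ b, 0 ≤ F b) :
    ∑ a ∈ s, F (g a) ≤ ∑ b ∈ t, F b := by
  rw [← sum_image (f := F) hinj]
  refine sum_le_sum_of_subset_of_nonneg (fun b hb => ?_) (fun b _ _ => hF b)
  obtain ⟨a, ha, rfl⟩ := mem_image.1 hb
  exact hg a ha

theorem gr_sum {e f : Dir} {n : ℕ}
    (h : ∀ w ∈ KP n, (∃ i, Xi e w i) ∨ ∃ i, Xi f w i) (F : List Dir → ℝ) (hF : ∀ w, 0 ≤ F w) :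
    ∑ w ∈ KP n, F (gr e f w) ≤ 2 * ∑ w ∈ KP (n + 2), F w := by
  rw [← sum_filter_add_sum_filter_not (KP n) (fun w => ∃ i, Xi e w i)]
  have h1 : ∑ w ∈ (KP n).filter (fun w => ∃ i, Xi e w i), F (gr e f w) ≤
      ∑ w ∈ KP (n + 2), F w := by
    refine sum_inj _ _ (gr e f) (fun w hw => ?_) (fun w hw w' hw' he => ?_) F hF
    · obtain ⟨g, i, hg, hx, he⟩ := gr_spec (h w (mem_filter.1 hw).1)
      rw [he]
      exact xi_kp (mem_filter.1 hw).1 hx
    · rw [mem_coe, mem_filter] at hw hw'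
      have e1 : gr e f w = ins w hw.2.choose e := by
        unfold gr
        rw [dif_pos hw.2]
      have e2 : gr e f w' = ins w' hw'.2.choose e := by
        unfold gr
        rw [dif_pos hw'.2]
      rw [e1, e2] at he
      exact Xi.inj hw.2.choose_spec hw'.2.choose_spec he
  have h2 : ∑ w ∈ (KP n).filter (fun w => ¬ ∃ i, Xi e w i), F (gr e f w) ≤
      ∑ w ∈ KP (n + 2), F w := by
    refine sum_inj _ _ (gr e f) (fun w hw => ?_) (fun w hw w' hw' he => ?_) F hF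
    · obtain ⟨g, i, hg, hx, he⟩ := gr_spec (h w (mem_filter.1 hw).1)
      rw [he]
      exact xi_kp (mem_filter.1 hw).1 hx
    · rw [mem_coe, mem_filter] at hw hw'
      have f1 : ∃ i, Xi f w i := (h w hw.1).resolve_left hw.2
      have f2 : ∃ i, Xi f w' i := (h w' hw'.1).resolve_left hw'.2
      have e1 : gr e f w = ins w f1.choose f := by
        unfold gr
        rw [dif_neg hw.2, dif_pos f1]
      have e2 : gr e f w' = ins w' f2.choose f := by
        unfold gr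
        rw [dif_neg hw'.2, dif_pos f2]
      rw [e1, e2] at he
      exact Xi.inj f1.choose_spec f2.choose_spec he
  linarith

theorem ar_xi {n : ℕ} {w : List Dir} {g : Dir} {i : ℕ} (hn : 3 ≤ n) (hw : w ∈ KP n)
    (h : Xi g w i) : ar w ≤ ar (ins w i g) + 1 := by
  obtain ⟨h1, h2, h3⟩ := kp_mem.1 hw
  exact (Pool.Agent.H739K.AREA_proof w i g (by omega) h2 h3 (h.adm h2)).2

theorem gr_W {n : ℕ} {w : List Dir} (hn : 3 ≤ n) (hw : w ∈ KP n) :
    gr E W w ∈ KP (n + 2) ∧ eW (gr E W w) = eW w + 1 ∧ eH (gr E W w) = eH w ∧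
      ar w ≤ ar (gr E W w) + 1 := by
  obtain ⟨h1, h2, h3⟩ := kp_mem.1 hw
  obtain ⟨g, i, hg, hx, he⟩ := gr_spec (ex_W h2 h3 (by omega))
  rw [he]
  refine ⟨xi_kp hw hx, ?_, ?_, ar_xi hn hw hx⟩
  · rw [eW_mh, eW_mh, mh_ins hx, mh_ins hx]
    rcases hg with rfl | rfl <;> simp <;> ring
  · rw [eH_mh, eH_mh, mh_ins hx, mh_ins hx]
    rcases hg with rfl | rfl <;> simp

theorem gr_H {n : ℕ} {w : List Dir} (hn : 3 ≤ n) (hw : w ∈ KP n) :
    gr N S w ∈ KP (n + 2) ∧ eW (gr N S w) = eW w ∧ eH (gr N S w) = eH w + 1 ∧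
      ar w ≤ ar (gr N S w) + 1 := by
  obtain ⟨h1, h2, h3⟩ := kp_mem.1 hw
  obtain ⟨g, i, hg, hx, he⟩ := gr_spec (ex_H h2 h3 (by omega))
  rw [he]
  refine ⟨xi_kp hw hx, ?_, ?_, ar_xi hn hw hx⟩
  · rw [eW_mh, eW_mh, mh_ins hx, mh_ins hx]
    rcases hg with rfl | rfl <;> simp
  · rw [eH_mh, eH_mh, mh_ins hx, mh_ins hx]
    rcases hg with rfl | rfl <;> simp <;> ring

theorem gr_W_sum {n : ℕ} (hn : 3 ≤ n) (F : List Dir → ℝ) (hF : ∀ w, 0 ≤ F w) :
    ∑ w ∈ KP n, F (gr E W w) ≤ 2 * ∑ w ∈ KP (n + 2), F w :=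
  gr_sum (fun w hw => by
    obtain ⟨h1, h2, h3⟩ := kp_mem.1 hw
    exact ex_W h2 h3 (by omega)) F hF

theorem gr_H_sum {n : ℕ} (hn : 3 ≤ n) (F : List Dir → ℝ) (hF : ∀ w, 0 ≤ F w) :
    ∑ w ∈ KP n, F (gr N S w) ≤ 2 * ∑ w ∈ KP (n + 2), F w :=
  gr_sum (fun w hw => by
    obtain ⟨h1, h2, h3⟩ := kp_mem.1 hw
    exact ex_H h2 h3 (by omega)) F hF

/-- **shift of the box by two in both directions** -/
theorem shift (n k : ℕ) (hn : 3 ≤ n) (Q : ℤ → ℤ → Prop)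
    (hQ : ∀ a b a' b', Q a b → a ≤ a' → b ≤ b' → Q a' b') :
    ∑ w ∈ KP n, (if Q (eW w + 2) (eH w + 2) then (ar w : ℝ) ^ k else 0) ≤
      16 * 16 ^ k * ∑ w ∈ KP (n + 8), (if Q (eW w) (eH w) then (ar w : ℝ) ^ k else 0) := by
  have step : ∀ (m : ℕ) (g : List Dir → List Dir) (a b : ℤ), 3 ≤ m →
      (∀ w ∈ KP m, g w ∈ KP (m + 2) ∧ eW (g w) = eW w + a ∧ eH (g w) = eH w + b ∧
        ar w ≤ ar (g w) + 1) →
      (∀ F : List Dir → ℝ, (∀ w, 0 ≤ F w) → ∑ w ∈ KP m, F (g w) ≤ 2 * ∑ w ∈ KP (m + 2), F w) →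
      ∀ c d : ℤ, ∑ w ∈ KP m, (if Q (eW w + (c + a)) (eH w + (d + b)) then (ar w : ℝ) ^ k else 0) ≤
        2 * 2 ^ k * ∑ w ∈ KP (m + 2), (if Q (eW w + c) (eH w + d) then (ar w : ℝ) ^ k else 0) := by
    intro m g a b hm h1 h2 c d
    have h3 : ∀ w ∈ KP m, (if Q (eW w + (c + a)) (eH w + (d + b)) then (ar w : ℝ) ^ k else 0) ≤
        2 ^ k * (if Q (eW (g w) + c) (eH (g w) + d) then (ar (g w) : ℝ) ^ k else 0) := by
      intro w hw
      obtain ⟨a1, a2, a3, a4⟩ := h1 w hw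
      rw [a2, a3, show eW w + a + c = eW w + (c + a) by ring,
        show eH w + b + d = eH w + (d + b) by ring]
      split_ifs
      · rw [← mul_pow]
        refine pow_le_pow_left₀ (Nat.cast_nonneg _) ?_ k
        have a5 := ar_pt (by omega) a1
        have a6 : ar w ≤ 2 * ar (g w) := by omega
        exact_mod_cast a6
      · simp
    refine (sum_le_sum h3).trans ?_
    rw [← mul_sum]
    have h4 := h2 (fun w => if Q (eW w + c) (eH w + d) then (ar w : ℝ) ^ k else 0) (fun w => by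
      split_ifs
      · positivity
      · exact le_rfl)
    have h5 : (0 : ℝ) ≤ 2 ^ k := by positivity
    calc _ ≤ 2 ^ k * (2 * ∑ w ∈ KP (m + 2),
          (if Q (eW w + c) (eH w + d) then (ar w : ℝ) ^ k else 0)) :=
          mul_le_mul_of_nonneg_left h4 h5
      _ = _ := by ring
  have s1 := step n (gr E W) 1 0 hn (fun w hw => by
    obtain ⟨a, b, c, d⟩ := gr_W hn hw
    exact ⟨a, b, by rw [c, add_zero], d⟩) (gr_W_sum hn) 1 2
  have s2 := step (n + 2) (gr E W) 1 0 (by omega) (fun w hw => by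
    obtain ⟨a, b, c, d⟩ := gr_W (by omega) hw
    exact ⟨a, b, by rw [c, add_zero], d⟩) (gr_W_sum (by omega)) 0 2
  have s3 := step (n + 4) (gr N S) 0 1 (by omega) (fun w hw => by
    obtain ⟨a, b, c, d⟩ := gr_H (by omega) hw
    exact ⟨a, by rw [b, add_zero], c, d⟩) (gr_H_sum (by omega)) 0 1
  have s4 := step (n + 6) (gr N S) 0 1 (by omega) (fun w hw => by
    obtain ⟨a, b, c, d⟩ := gr_H (by omega) hw
    exact ⟨a, by rw [b, add_zero], c, d⟩) (gr_H_sum (by omega)) 0 0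
  norm_num at s1 s2 s3 s4
  obtain ⟨c, hc⟩ : ∃ c : ℝ, c = 2 * 2 ^ k := ⟨_, rfl⟩
  rw [← hc] at s1 s2 s3 s4
  have hc0 : 0 ≤ c := by rw [hc]; positivity
  have hc4 : 16 * (16 : ℝ) ^ k = c * (c * (c * c)) := by
    rw [hc]
    have : (16 : ℝ) ^ k = (2 ^ k) ^ 4 := by
      rw [← pow_mul, mul_comm, pow_mul]
      norm_num
    rw [this]
    ring
  rw [hc4]
  calc _ ≤ _ := s1
    _ ≤ c * _ := mul_le_mul_of_nonneg_left s2 hc0
    _ ≤ c * (c * _) := mul_le_mul_of_nonneg_left (mul_le_mul_of_nonneg_left s3 hc0) hc0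
    _ ≤ c * (c * (c * _)) := mul_le_mul_of_nonneg_left (mul_le_mul_of_nonneg_left
        (mul_le_mul_of_nonneg_left s4 hc0) hc0) hc0
    _ = _ := by ring

end

end Pool.Agent.K6.H96.SP
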