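import Pool.Agent.K6.H96.SP.Rel2
import Pool.Agent.K6.H96.SP.Inj2
import Pool.Agent.N929.EZ.Box
import Pool.Agent.N929.EZ.Area

/-!
# Functionals of the box and the area of polygons, relative to an increasing event
-/

set_option autoImplicit false
set_option linter.unusedVariables false

namespace Pool.Agent.K6.H96.SP

open Pool.Agent.H976R2 Pool.Agent.H976R2.Dir Finset Filter
open Pool.Agent.N929.EX Pool.Agent.N929.EY Pool.Agent.N929.EZ
open Pool.Agent.H739K (KP ar)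
open scoped Classical

noncomputable section

/-- the functionals -/
def FF (Q : ℤ → ℤ → Prop) (k : ℕ) (φ : ℤ → ℤ → ℝ) (w : List Dir) : ℝ :=
  if Q (eW w) (eH w) then φ (eW w) (eH w) * (ar w : ℝ) ^ k else 0

/-- the class -/
def FC (Q : ℤ → ℤ → Prop) (k : ℕ) (F : List Dir → ℝ) : Prop :=
  ∃ φ : ℤ → ℤ → ℝ, (∀ a b, |φ a b| ≤ 1) ∧ F = FF Q k φ

/-- increasing -/
def Up (Q : ℤ → ℤ → Prop) : Prop := ∀ a b a' b', Q a b → a ≤ a' → b ≤ b' → Q a' b'

theorem box_fl {L : Finset (ℤ × ℤ)} (hL : CF L) {st : List Dir → List Dir}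
    {fl : List Dir → Finset (ℤ × ℤ) → List Dir} (hfl : Fill L 0 0 st fl) {w : List Dir}
    (hw : Em L 0 0 w) {U : Finset (ℤ × ℤ)} (hU : U ⊆ Sl L 0 0 w) :
    eW w ≤ eW (fl w U) ∧ eW (fl w U) ≤ eW w + 2 ∧ eH w ≤ eH (fl w U) ∧
      eH (fl w U) ≤ eH w + 2 := by
  obtain ⟨a1, a2, a3, a4, a5⟩ := Pool.Agent.N426.EZ.xt L hL 0 0 st fl hfl w hw U hU
  unfold eW eH
  rw [a1, a2, a3, a4]
  split_ifs <;> omega

theorem ar_up {n : ℕ} {w : List Dir} (hn : 3 ≤ n) (hw : w ∈ KP n) :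
    (ar w : ℝ) ≤ 4 * ((n : ℝ) + 1) ^ 2 := by
  obtain ⟨h1, h2, h3⟩ := kp_mem.1 hw
  have hl := Pool.Agent.H739K.F2aux.loop_of Pool.Agent.H739K.CONV_proof (by omega) h2 h3
  have h4 : ar w ≤ (2 * (w.length + 1)) ^ 2 := by
    have : NeZero (w.length + 1) := ⟨by omega⟩
    exact Pool.Agent.H924P.all_area hl
  rw [h1] at h4
  have : (ar w : ℝ) ≤ (2 * ((n : ℝ) + 1)) ^ 2 := by exact_mod_cast h4
  nlinarith

/-- the stripped polygon -/
theorem strip {L : Finset (ℤ × ℤ)} (hL : CF L) {st : List Dir → List Dir}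
    {fl : List Dir → Finset (ℤ × ℤ) → List Dir} (hfl : Fill L 0 0 st fl) {n : ℕ} (hn : 3 ≤ n)
    {w : List Dir} (hw : w ∈ KP n) :
    Em L 0 0 (st w) ∧ sq (st w) = 1 ∧ 3 ≤ (st w).length ∧ Oc L 0 0 w ⊆ Sl L 0 0 (st w) ∧
      fl (st w) (Oc L 0 0 w) = w ∧ ((Sl L 0 0 (st w)).card : ℝ) ≤ (n : ℝ) + 1 ∧
      (ar (st w) : ℝ) ≤ (ar w : ℝ) + ((n : ℝ) + 1) := by
  obtain ⟨hwn, hs, hl⟩ := KP_mem hw
  have hw' : w ∈ SW w.length := by rw [hl]; exact hwn
  have e1 := hfl.st_em w (by omega) hw'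
  have e2 := hfl.fl_st w (by omega) hw'
  have e3 : Oc L 0 0 w ⊆ Sl L 0 0 (st w) := by
    rw [hfl.st_sl w (by omega) hw']
    unfold Sl Oc
    exact OO_sub'
  have e4 : N929.EZ.cl w = N929.EZ.cl (st w) := by
    have := fl_inv hfl (D := Set.univ) (fun _ _ _ _ => Set.mem_univ _) (cl_iv Set.univ)
      e1 e3
    rwa [e2] at this
  have e5 : sq (st w) = 1 := by
    unfold N929.EZ.cl at e4
    rw [if_pos hs] at e4
    by_contra hcon
    rw [if_neg hcon] at e4
    exact one_ne_zero e4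
  have e6 := sl_card hL (a := 0) (l := 0) (st w)
  have e7 := hfl.st_len w (by omega) hw'
  have e8 : ((Sl L 0 0 (st w)).card : ℝ) ≤ (n : ℝ) + 1 := by
    have : (Sl L 0 0 (st w)).card ≤ n + 1 := by omega
    exact_mod_cast this
  have h3 : 3 ≤ (st w).length := by
    by_contra hcon
    have b1 := no_slots (L := L) hcon
    rw [b1, subset_empty] at e3
    rw [e3, card_empty] at e7
    omega
  refine ⟨e1, e5, h3, e3, e2, e8, ?_⟩
  have e9 := ar_fl hL hfl e1 h3 e5 e3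
  rw [e2] at e9
  have a1 : |∑ q ∈ Oc L 0 0 w, sg (st w) q| ≤ ((Oc L 0 0 w).card : ℝ) := by
    refine (abs_sum_le_sum_abs _ _).trans ?_
    rw [sum_congr rfl (fun q _ => sg_abs (st w) q)]
    simp
  have a2 := (abs_le.1 a1).1
  have a3 : ((Oc L 0 0 w).card : ℝ) ≤ (n : ℝ) + 1 := by
    have : (Oc L 0 0 w).card ≤ n + 1 := by omega
    exact_mod_cast this
  linarith

/-- the area of a filled polygon -/
theorem rp_ar {L : Finset (ℤ × ℤ)} (hL : CF L) {st : List Dir → List Dir}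
    {fl : List Dir → Finset (ℤ × ℤ) → List Dir} (hfl : Fill L 0 0 st fl) {w : List Dir}
    (hw : Em L 0 0 w) (hs : sq w = 1) (h3 : 3 ≤ w.length) (k : ℕ) :
    Rp (Sl L 0 0 w) (fun U => (ar (fl w U) : ℝ) ^ k)
      (((ar w : ℝ) + 2 * ((Sl L 0 0 w).card : ℝ)) ^ k) := by
  have h1 := ((Rp.const (E := Sl L 0 0 w) (ar w : ℝ)).add
    (Rp.lin (E := Sl L 0 0 w) (sg w))).pow k
  refine (h1.mono (le_of_eq ?_)).congr (fun U hU => ?_)
  · rw [abs_of_nonneg (Nat.cast_nonneg (α := ℝ) (ar w))]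
    congr 3
    rw [sum_congr rfl (fun q _ => sg_abs w q)]
    simp
  · rw [ar_fl hL hfl hw h3 hs hU]

/-- functions of the box -/
theorem rp_FF (Q : ℤ → ℤ → Prop) (hQ : Up Q) (k : ℕ) (φ : ℤ → ℤ → ℝ) (hφ : ∀ a b, |φ a b| ≤ 1)
    {L : Finset (ℤ × ℤ)} (hL : CF L) {st : List Dir → List Dir}
    {fl : List Dir → Finset (ℤ × ℤ) → List Dir} (hfl : Fill L 0 0 st fl) {w : List Dir}
    (hw : Em L 0 0 w) (hs : sq w = 1) (h3 : 3 ≤ w.length) :
    Rp (Sl L 0 0 w) (fun U => FF Q k φ (fl w U))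
      (if Q (eW w + 2) (eH w + 2) then 81 * ((ar w : ℝ) + 2 * ((Sl L 0 0 w).card : ℝ)) ^ k
        else 0) := by
  split_ifs with hq
  · have h1 := rep_box (fun a b c d _ => if Q (a - b) (c - d) then φ (a - b) (c - d) else 0)
      (fun a b c d _ => by
        split_ifs
        · exact hφ _ _
        · simp) L hL st fl hfl w hw
    refine (h1.mul (rp_ar hL hfl hw hs h3 k)).congr (fun U hU => ?_)
    unfold FF eW eH
    split_ifs <;> simp
  · refine Rp.zero.congr (fun U hU => ?_)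
    obtain ⟨a1, a2, a3, a4⟩ := box_fl hL hfl hw hU
    unfold FF
    rw [if_neg (fun h => hq (hQ _ _ _ _ h a2 a4))]

theorem FF_nonneg (Q : ℤ → ℤ → Prop) (k : ℕ) (w : List Dir) : 0 ≤ FF Q k (fun _ _ => 1) w := by
  unfold FF
  split_ifs
  · positivity
  · exact le_rfl

theorem cls_box (Q : ℤ → ℤ → Prop) (hQ : Up Q) (k : ℕ) :
    Cls (81 * 16 * 208 ^ k) (2 * k) (FC Q k) (FF Q k (fun _ _ => 1)) where
  self := ⟨fun _ _ => 1, fun _ _ => by simp, rfl⟩
  nonneg := FF_nonneg Q k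
  poly := by
    intro n hn w hw
    unfold FF
    have h0 : (0 : ℝ) ≤ 81 * 16 * 208 ^ k * ((n : ℝ) + 1) ^ (2 * k) := by positivity
    split_ifs
    · rw [one_mul]
      have h1 := ar_up hn hw
      calc (ar w : ℝ) ^ k ≤ (4 * ((n : ℝ) + 1) ^ 2) ^ k :=
            pow_le_pow_left₀ (Nat.cast_nonneg _) h1 k
        _ = 4 ^ k * ((n : ℝ) + 1) ^ (2 * k) := by rw [mul_pow, ← pow_mul]
        _ ≤ 81 * 16 * 208 ^ k * ((n : ℝ) + 1) ^ (2 * k) := by
            have h7 : (4 : ℝ) ^ k ≤ 208 ^ k := pow_le_pow_left₀ (by norm_num) (by norm_num) k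
            have h8 : (0 : ℝ) ≤ 208 ^ k := by positivity
            refine mul_le_mul_of_nonneg_right ?_ (by positivity)
            linarith
    · exact h0
  dom := by
    rintro F ⟨φ, hφ, rfl⟩ w
    unfold FF
    split_ifs
    · rw [abs_mul, abs_of_nonneg (by positivity : (0 : ℝ) ≤ (ar w : ℝ) ^ k)]
      exact mul_le_mul_of_nonneg_right (hφ _ _) (by positivity)
    · simp
  grow := by
    intro n hn ho
    have h1 : ∀ w ∈ KP n, FF Q k (fun _ _ => 1) w ≤
        2 ^ k * FF Q k (fun _ _ => 1) (gr E W w) := by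
      intro w hw
      obtain ⟨a1, a2, a3, a4⟩ := gr_W hn hw
      unfold FF
      rw [a2, a3]
      by_cases hq : Q (eW w) (eH w)
      · rw [if_pos hq, if_pos (hQ _ _ _ _ hq (by omega) le_rfl), one_mul, one_mul, ← mul_pow]
        refine pow_le_pow_left₀ (Nat.cast_nonneg _) ?_ k
        have a5 := ar_pt (by omega) a1
        have a6 : ar w ≤ 2 * ar (gr E W w) := by omega
        exact_mod_cast a6
      · rw [if_neg hq]
        split_ifs
        · positivity
        · simp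
    have h2 := gr_W_sum hn (FF Q k (fun _ _ => 1)) (FF_nonneg Q k)
    have h3 : 0 ≤ ∑ w ∈ KP (n + 2), FF Q k (fun _ _ => 1) w :=
      sum_nonneg (fun w _ => FF_nonneg Q k w)
    calc ∑ w ∈ KP n, FF Q k (fun _ _ => 1) w
        ≤ 2 ^ k * ∑ w ∈ KP n, FF Q k (fun _ _ => 1) (gr E W w) := by
          rw [mul_sum]
          exact sum_le_sum h1
      _ ≤ 2 ^ k * (2 * ∑ w ∈ KP (n + 2), FF Q k (fun _ _ => 1) w) :=
          mul_le_mul_of_nonneg_left h2 (by positivity)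
      _ = 2 * 2 ^ k * ∑ w ∈ KP (n + 2), FF Q k (fun _ _ => 1) w := by ring
      _ ≤ _ := by
          refine mul_le_mul_of_nonneg_right ?_ h3
          have h7 : (2 : ℝ) ^ k ≤ 208 ^ k := pow_le_pow_left₀ (by norm_num) (by norm_num) k
          have h8 : (0 : ℝ) ≤ 208 ^ k := by positivity
          linarith
  rep := by
    intro L hL st fl hfl
    refine ⟨fun w => if Q (eW w + 2) (eH w + 2) then
        81 * ((ar w : ℝ) + 2 * ((Sl L 0 0 w).card : ℝ)) ^ k else 0, fun w => ?_, ?_, ?_⟩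
    · beta_reduce
      split_ifs
      · positivity
      · exact le_rfl
    · rintro F ⟨φ, hφ, rfl⟩ w hw hs h3
      exact rp_FF Q hQ k φ hφ hL hfl hw hs h3
    · intro n hn ho
      have h1 : ∀ w ∈ KP n, (if Q (eW (st w) + 2) (eH (st w) + 2) then
          81 * ((ar (st w) : ℝ) + 2 * ((Sl L 0 0 (st w)).card : ℝ)) ^ k else 0) ≤
          81 * 13 ^ k * (if Q (eW w + 2) (eH w + 2) then (ar w : ℝ) ^ k else 0) := by
        intro w hw
        obtain ⟨a1, a2, a3, a4, a5, a6, a7⟩ := strip hL hfl hn hw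
        have a8 := box_fl hL hfl a1 a4
        rw [a5] at a8
        obtain ⟨b1, b2, b3, b4⟩ := a8
        have a9 : ((n : ℝ) + 1) ≤ 4 * (ar w : ℝ) := by exact_mod_cast ar_pt hn hw
        by_cases hq : Q (eW (st w) + 2) (eH (st w) + 2)
        · rw [if_pos hq, if_pos (hQ _ _ _ _ hq (by omega) (by omega)), mul_assoc, ← mul_pow]
          refine mul_le_mul_of_nonneg_left ?_ (by norm_num)
          exact pow_le_pow_left₀ (by positivity) (by linarith) k
        · rw [if_neg hq]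
          split_ifs
          · positivity
          · simp
      refine (sum_le_sum h1).trans ?_
      rw [← mul_sum]
      have h2 := shift n k hn Q hQ
      have h3 : ∀ w, (if Q (eW w) (eH w) then (ar w : ℝ) ^ k else 0) =
          FF Q k (fun _ _ => 1) w := fun w => by
        unfold FF
        simp
      simp only [h3] at h2
      calc 81 * 13 ^ k * ∑ w ∈ KP n, (if Q (eW w + 2) (eH w + 2) then (ar w : ℝ) ^ k else 0)
          ≤ 81 * 13 ^ k * (16 * 16 ^ k * ∑ w ∈ KP (n + 8), FF Q k (fun _ _ => 1) w) :=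
            mul_le_mul_of_nonneg_left h2 (by positivity)
        _ = _ := by
            have : (208 : ℝ) ^ k = 13 ^ k * 16 ^ k := by rw [← mul_pow]; norm_num
            rw [this]
            ring

end

end Pool.Agent.K6.H96.SP
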