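import Pool.Agent.K6.H96.SP.BoxC

/-!
# The box and the area of polygons, relative to an increasing event: main theorem
-/

set_option autoImplicit false
set_option linter.unusedVariables false

namespace Pool.Agent.K6.H96.SP

open Pool.Agent.H976R2 Pool.Agent.H976R2.Dir Finset Filter
open Pool.Agent.N929.EX Pool.Agent.N929.EY Pool.Agent.N929.EZ
open Pool.Agent.H739K (KP ar lp)
open scoped Classical

noncomputable section

/-- the sum of `ar ^ k` over the polygons in the event -/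
def TT (Q : ℤ → ℤ → Prop) (k n : ℕ) : ℝ := ∑ w ∈ KP n, FF Q k (fun _ _ => 1) w

/-- the sum of `φ * ar ^ k` over the polygons in the event -/
def TF (Q : ℤ → ℤ → Prop) (k : ℕ) (φ : ℤ → ℤ → ℝ) (n : ℕ) : ℝ := ∑ w ∈ KP n, FF Q k φ w

theorem box_main (k r : ℕ) : ∃ c K : ℝ, 0 < c ∧ 0 < K ∧
    ∀ (Q : ℤ → ℤ → Prop), Up Q → ∀ (n : ℕ) (x : ℝ), 3 ≤ n → n % 2 = 1 → 0 ≤ x → x ≤ c * n →
      ((KP n).card : ℝ) ≤ Real.exp x * TT Q k n →
      (∀ i, 0 < TT Q k (n + 2 * i)) ∧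
      (1 ≤ r → |∑ i ∈ range (r + 1), (-1 : ℝ) ^ i * (r.choose i : ℝ) *
        Real.log (TT Q k (n + 2 * i) / ((KP (n + 2 * i)).card : ℝ))| ≤
          K * Real.sqrt ((Real.log n ^ 2 + x) / n) ^ r) ∧
      ∀ φ : ℤ → ℤ → ℝ, (∀ a b, |φ a b| ≤ 1) →
        |∑ i ∈ range (r + 1), (-1 : ℝ) ^ i * (r.choose i : ℝ) *
          (TF Q k φ (n + 2 * i) / TT Q k (n + 2 * i))| ≤
          K * Real.sqrt ((Real.log n ^ 2 + x) / n) ^ r := by
  have h1le : (1 : ℝ) ≤ 81 * 16 * 208 ^ k := by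
    have : (1 : ℝ) ≤ 208 ^ k := one_le_pow₀ (by norm_num)
    linarith
  obtain ⟨c, K, hc, hK, h⟩ := rel_fin (81 * 16 * 208 ^ k) h1le (2 * k) r
  obtain ⟨C, hC, hone⟩ : ∃ C : ℝ, 0 < C ∧ (1 ≤ r → ∀ n : ℕ, 3 ≤ n → n % 2 = 1 →
      |∑ i ∈ range (r + 1), (-1 : ℝ) ^ i * (r.choose i : ℝ) *
        Real.log (((KP (n + 2 * i)).card : ℝ) / H981.mu ^ (n + 2 * i))| ≤
        C * (Real.log n / Real.sqrt n) ^ r) := by
    by_cases hr : 1 ≤ r
    · obtain ⟨C, hC, h⟩ := gen_poly_one r hr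
      exact ⟨C, hC, fun _ => h⟩
    · exact ⟨1, one_pos, fun h => absurd h hr⟩
  refine ⟨c, K + C, hc, by positivity, fun Q hQ n x hn ho hx hxc hxT => ?_⟩
  have hcls := cls_box Q hQ k
  obtain ⟨h1, h2⟩ := h (FC Q k) (FF Q k (fun _ _ => 1)) hcls n x hn ho hx hxc hxT
  have hTn : 0 < TT Q k n := by
    have h1 := Real.exp_pos x
    have h2 := KP_pos hn ho
    by_contra hcon
    push Not at hcon
    nlinarith
  have hT : ∀ i, 0 < TT Q k (n + 2 * i) := by
    intro i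
    induction i with
    | zero => exact hTn
    | succ i ih =>
      have h3 := hcls.grow (n + 2 * i) (by omega) (by omega)
      by_contra hcon
      push Not at hcon
      have h4 : TT Q k (n + 2 * i) ≤ (81 * 16 * 208 ^ k) * TT Q k (n + 2 * i + 2) := h3
      rw [show n + 2 * i + 2 = n + 2 * (i + 1) by ring] at h4
      have h5 : (0 : ℝ) < 81 * 16 * 208 ^ k := by positivity
      nlinarith
  have hn0 : (0 : ℝ) < n := by exact_mod_cast (by omega : 0 < n)
  have hy0 : 0 ≤ Real.sqrt ((Real.log n ^ 2 + x) / n) ^ r := by positivity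
  refine ⟨hT, fun hr => ?_, fun φ hφ => ?_⟩
  · have h3 := h1 hr
    have h4 := hone hr n hn ho
    have h5 : (Real.log n / Real.sqrt n) ^ r ≤ Real.sqrt ((Real.log n ^ 2 + x) / n) ^ r := by
      refine pow_le_pow_left₀ (div_nonneg (Real.log_nonneg (by
        exact_mod_cast (by omega : 1 ≤ n))) (Real.sqrt_nonneg _)) ?_ r
      rw [Real.le_sqrt' (by
        have := log_ge_one hn
        have := Real.sqrt_pos.mpr hn0
        positivity), div_pow, Real.sq_sqrt hn0.le]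
      exact div_le_div_of_nonneg_right (by linarith) hn0.le
    have h6 := two_log H981.mu_pos (r := r) (n := n) (S := fun m => ((KP m).card : ℝ))
      (T := fun m => TT Q k m) (fun i _ => KP_pos (by omega) (by omega)) (fun i _ => hT i) h3 h4
    refine h6.trans ?_
    rw [add_mul]
    exact add_le_add le_rfl (mul_le_mul_of_nonneg_left h5 hC.le)
  · refine (h2 (FF Q k φ) ⟨φ, hφ, rfl⟩).trans ?_
    exact mul_le_mul_of_nonneg_right (by linarith) hy0

/-- comparison of the rates -/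
theorem rate_conv {n : ℕ} (hn : 2 ≤ n) {x : ℝ} (hx : 0 ≤ x) (r : ℕ) :
    Real.sqrt ((Real.log ((2 * n - 1 : ℕ) : ℝ) ^ 2 + x) / ((2 * n - 1 : ℕ) : ℝ)) ^ r ≤
      2 ^ r * Real.sqrt ((Real.log n ^ 2 + x) / n) ^ r := by
  have hn' : (2 : ℝ) ≤ n := by exact_mod_cast hn
  have h0 : (n : ℝ) ≤ ((2 * n - 1 : ℕ) : ℝ) := by exact_mod_cast (by omega : n ≤ 2 * n - 1)
  have h1 : ((2 * n - 1 : ℕ) : ℝ) ≤ (n : ℝ) ^ 2 := by
    have : ((2 * n - 1 : ℕ) : ℝ) ≤ ((2 * n : ℕ) : ℝ) := by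
      exact_mod_cast (by omega : 2 * n - 1 ≤ 2 * n)
    push_cast at this
    nlinarith
  have hl : 0 ≤ Real.log ((2 * n - 1 : ℕ) : ℝ) := Real.log_nonneg (by linarith)
  rw [← mul_pow]
  refine pow_le_pow_left₀ (Real.sqrt_nonneg _) ?_ r
  have h2 : Real.log ((2 * n - 1 : ℕ) : ℝ) ≤ 2 * Real.log n := by
    have := Real.log_le_log (by linarith) h1
    rwa [Real.log_pow] at this
  have h3 : Real.log ((2 * n - 1 : ℕ) : ℝ) ^ 2 ≤ 4 * Real.log n ^ 2 := by
    have := pow_le_pow_left₀ hl h2 2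
    linarith [mul_pow (2 : ℝ) (Real.log n) 2]
  rw [Real.sqrt_le_left (by positivity), mul_pow, Real.sq_sqrt (by positivity)]
  calc (Real.log ((2 * n - 1 : ℕ) : ℝ) ^ 2 + x) / ((2 * n - 1 : ℕ) : ℝ)
      ≤ (4 * (Real.log n ^ 2 + x)) / n := by
        apply div_le_div₀ (by positivity) (by linarith) (by linarith) h0
    _ = 2 ^ 2 * ((Real.log n ^ 2 + x) / n) := by ring

theorem width_lp {N : ℕ} {w : List Dir} (hw : w ∈ KP N) :
    ((Pool.Agent.H924P.width (N + 1) (lp (N + 1) w) : ℕ) : ℤ) = eW w := by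
  have hl := (kp_mem.1 hw).1
  have h := width_eq w
  rw [hl] at h
  exact h

theorem height_lp {N : ℕ} {w : List Dir} (hw : w ∈ KP N) :
    ((Pool.Agent.H924P.height (N + 1) (lp (N + 1) w) : ℕ) : ℤ) = eH w := by
  have hl := (kp_mem.1 hw).1
  subst hl
  refine Pool.Agent.H739K.BOXx.height_of w (mxy w) (mny w) ?_ ?_ ?_
  · intro p hp
    obtain ⟨t, ht, rfl⟩ := (vis_ex w p).1 hp
    exact ⟨mny_le w ht, le_mxy w ht⟩
  · obtain ⟨t, ht, h⟩ := mxy_att w
    exact ⟨_, (vis_ex w _).2 ⟨t, ht, rfl⟩, h⟩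
  · obtain ⟨t, ht, h⟩ := mny_att w
    exact ⟨_, (vis_ex w _).2 ⟨t, ht, rfl⟩, h⟩

/-- an event of the box as a property of integers -/
def QZ (Q : ℕ → ℕ → Prop) (a b : ℤ) : Prop := Q a.toNat b.toNat

theorem up_QZ {Q : ℕ → ℕ → Prop} (hQ : ∀ a b a' b', Q a b → a ≤ a' → b ≤ b' → Q a' b') :
    Up (QZ Q) := fun a b a' b' h ha hb =>
  hQ _ _ _ _ h (Int.toNat_le_toNat ha) (Int.toNat_le_toNat hb)

/-- mean over the loops with `2 * n` steps of a function of width, height and area -/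
def EL (Φ : ℕ → ℕ → ℕ → ℝ) (n : ℕ) : ℝ :=
  (∑ᶠ f ∈ {f : ZMod (2 * n) → ℤ × ℤ | Pool.Agent.H924P.IsLoop (2 * n) f},
    Φ (Pool.Agent.H924P.width (2 * n) f) (Pool.Agent.H924P.height (2 * n) f)
      (Pool.Agent.H924P.area (2 * n) f)) /
    ({f : ZMod (2 * n) → ℤ × ℤ | Pool.Agent.H924P.IsLoop (2 * n) f}.ncard : ℝ)

theorem EL_eq (Φ : ℕ → ℕ → ℕ → ℝ) {n : ℕ} (hn : 2 ≤ n) :
    EL Φ n = (∑ w ∈ KP (2 * n - 1), Φ (eW w).toNat (eH w).toNat (ar w)) /
      ((KP (2 * n - 1)).card : ℝ) := by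
  obtain ⟨h1, h2, -⟩ := Pool.Agent.H739K.CONV_proof n hn
  unfold EL
  rw [h2, h1 (fun f => Φ (Pool.Agent.H924P.width (2 * n) f) (Pool.Agent.H924P.height (2 * n) f)
      (Pool.Agent.H924P.area (2 * n) f))]
  congr 1
  refine sum_congr rfl (fun w hw => ?_)
  have h3 := width_lp hw
  have h4 := height_lp hw
  have hl := (kp_mem.1 hw).1
  have e : 2 * n - 1 + 1 = 2 * n := by omega
  rw [e] at h3 h4
  have h5 : ar w = Pool.Agent.H924P.area (2 * n) (lp (2 * n) w) := by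
    unfold ar
    rw [hl, e]
  rw [h5, ← h3, ← h4]
  simp

theorem EL_TF (Q : ℕ → ℕ → Prop) (k : ℕ) (φ : ℕ → ℕ → ℝ) {n : ℕ} (hn : 2 ≤ n) :
    EL (fun a b c => if Q a b then φ a b * (c : ℝ) ^ k else 0) n =
      TF (QZ Q) k (fun a b => φ a.toNat b.toNat) (2 * n - 1) / ((KP (2 * n - 1)).card : ℝ) := by
  rw [EL_eq _ hn]
  rfl

theorem EL_TT (Q : ℕ → ℕ → Prop) (k : ℕ) {n : ℕ} (hn : 2 ≤ n) :
    EL (fun a b c => if Q a b then (c : ℝ) ^ k else 0) n =
      TT (QZ Q) k (2 * n - 1) / ((KP (2 * n - 1)).card : ℝ) := by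
  have h := EL_TF Q k (fun _ _ => 1) hn
  simp only [one_mul] at h
  exact h

/-- **main theorem** in terms of loops -/
theorem loops_main (k r : ℕ) : ∃ c K : ℝ, 0 < c ∧ 0 < K ∧
    ∀ (Q : ℕ → ℕ → Prop), (∀ a b a' b', Q a b → a ≤ a' → b ≤ b' → Q a' b') →
    ∀ n : ℕ, 2 ≤ n → Real.exp (-(c * n)) ≤ EL (fun a b _ => if Q a b then 1 else 0) n →
      (∀ i, 0 < EL (fun a b s => if Q a b then (s : ℝ) ^ k else 0) (n + i)) ∧
      (1 ≤ r → |∑ i ∈ range (r + 1), (-1 : ℝ) ^ i * (r.choose i : ℝ) *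
        Real.log (EL (fun a b s => if Q a b then (s : ℝ) ^ k else 0) (n + i))| ≤
          K * Real.sqrt ((Real.log n ^ 2 -
            Real.log (EL (fun a b _ => if Q a b then 1 else 0) n)) / n) ^ r) ∧
      ∀ φ : ℕ → ℕ → ℝ, (∀ a b, |φ a b| ≤ 1) →
        |∑ i ∈ range (r + 1), (-1 : ℝ) ^ i * (r.choose i : ℝ) *
          (EL (fun a b s => if Q a b then φ a b * (s : ℝ) ^ k else 0) (n + i) /
            EL (fun a b s => if Q a b then (s : ℝ) ^ k else 0) (n + i))| ≤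
          K * Real.sqrt ((Real.log n ^ 2 -
            Real.log (EL (fun a b _ => if Q a b then 1 else 0) n)) / n) ^ r := by
  obtain ⟨c, K, hc, hK, h⟩ := box_main k r
  refine ⟨c, K * 2 ^ r, hc, by positivity, fun Q hQ n hn hP => ?_⟩
  obtain ⟨P, hPe⟩ : ∃ P, P = EL (fun a b _ => if Q a b then 1 else 0) n := ⟨_, rfl⟩
  rw [← hPe] at hP ⊢
  have hP0 : 0 < P := lt_of_lt_of_le (Real.exp_pos _) hP
  obtain ⟨N, hN⟩ : ∃ N, N = 2 * n - 1 := ⟨_, rfl⟩
  have hN3 : 3 ≤ N := by omega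
  have hNo : N % 2 = 1 := by omega
  have hKN := KP_pos hN3 hNo
  have hP1 : P = TT (QZ Q) 0 N / ((KP N).card : ℝ) := by
    have := EL_TT Q 0 hn
    simp only [pow_zero] at this
    rw [hPe, this, hN]
  have hT01 : TT (QZ Q) 0 N ≤ ((KP N).card : ℝ) := by
    unfold TT
    rw [show ((KP N).card : ℝ) = ∑ w ∈ KP N, (1 : ℝ) by simp]
    refine sum_le_sum (fun w _ => ?_)
    unfold FF
    split_ifs <;> simp
  have hPle : P ≤ 1 := by
    rw [hP1, div_le_one hKN]
    exact hT01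
  have hx0 : 0 ≤ -Real.log P := by
    have := Real.log_nonpos hP0.le hPle
    linarith
  have hxc : -Real.log P ≤ c * N := by
    have h1 : -(c * n) ≤ Real.log P := by
      rw [Real.le_log_iff_exp_le hP0]
      exact hP
    have h2 : (n : ℝ) ≤ N := by exact_mod_cast (by omega : n ≤ N)
    nlinarith
  have hxT : ((KP N).card : ℝ) ≤ Real.exp (-Real.log P) * TT (QZ Q) k N := by
    have h1 : TT (QZ Q) 0 N ≤ TT (QZ Q) k N := by
      unfold TT
      refine sum_le_sum (fun w hw => ?_)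
      unfold FF
      split_ifs
      · simp only [pow_zero, one_mul]
        have := ar_pt hN3 hw
        have : 1 ≤ ar w := by omega
        exact one_le_pow₀ (by exact_mod_cast this)
      · exact le_rfl
    have h2 : ((KP N).card : ℝ) = Real.exp (-Real.log P) * TT (QZ Q) 0 N := by
      rw [Real.exp_neg, Real.exp_log hP0, hP1]
      have h3 : 0 < TT (QZ Q) 0 N := by
        rw [hP1] at hP0
        by_contra hcon
        push Not at hcon
        have := div_nonpos_of_nonpos_of_nonneg hcon hKN.le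
        linarith
      field_simp
    rw [h2]
    exact mul_le_mul_of_nonneg_left h1 (Real.exp_pos _).le
  obtain ⟨h1, h2, h3⟩ := h (QZ Q) (up_QZ hQ) N (-Real.log P) hN3 hNo hx0 hxc hxT
  have hrate := rate_conv hn hx0 r
  rw [← hN, ← sub_eq_add_neg, ← sub_eq_add_neg] at hrate
  rw [← sub_eq_add_neg] at h2 h3
  have e4 : ∀ i, N + 2 * i = 2 * (n + i) - 1 := fun i => by omega
  refine ⟨fun i => ?_, fun hr => ?_, fun φ hφ => ?_⟩
  · rw [EL_TT Q k (by omega), ← e4]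
    exact div_pos (h1 i) (KP_pos (by omega) (by omega))
  · have h4 := h2 hr
    refine le_trans (le_of_eq ?_) (h4.trans ?_)
    · congr 1
      refine sum_congr rfl (fun i _ => ?_)
      rw [EL_TT Q k (by omega), e4]
    · rw [mul_assoc]
      exact mul_le_mul_of_nonneg_left hrate hK.le
  · have h4 := h3 (fun a b => φ a.toNat b.toNat) (fun a b => hφ _ _)
    refine le_trans (le_of_eq ?_) (h4.trans ?_)
    · congr 1
      refine sum_congr rfl (fun i _ => ?_)
      rw [EL_TT Q k (by omega), EL_TF Q k φ (by omega), e4]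
      congr 1
      have h5 : (0 : ℝ) < ((KP (2 * (n + i) - 1)).card : ℝ) := KP_pos (by omega) (by omega)
      rw [div_div_div_cancel_right₀ h5.ne']
    · rw [mul_assoc]
      exact mul_le_mul_of_nonneg_left hrate hK.le

/-- conditional means -/
theorem loops_main' (k r : ℕ) : ∃ c K : ℝ, 0 < c ∧ 0 < K ∧
    ∀ (Q : ℕ → ℕ → Prop), (∀ a b a' b', Q a b → a ≤ a' → b ≤ b' → Q a' b') →
    ∀ n : ℕ, 2 ≤ n → Real.exp (-(c * n)) ≤ EL (fun a b _ => if Q a b then 1 else 0) n →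
      (1 ≤ r → |∑ i ∈ range (r + 1), (-1 : ℝ) ^ i * (r.choose i : ℝ) *
        Real.log (EL (fun a b s => if Q a b then (s : ℝ) ^ k else 0) (n + i) /
          EL (fun a b _ => if Q a b then 1 else 0) (n + i))| ≤
          K * Real.sqrt ((Real.log n ^ 2 -
            Real.log (EL (fun a b _ => if Q a b then 1 else 0) n)) / n) ^ r) ∧
      ∀ φ : ℕ → ℕ → ℝ, (∀ a b, |φ a b| ≤ 1) →
        |∑ i ∈ range (r + 1), (-1 : ℝ) ^ i * (r.choose i : ℝ) *
          (EL (fun a b s => if Q a b then φ a b * (s : ℝ) ^ k else 0) (n + i) /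
            EL (fun a b _ => if Q a b then 1 else 0) (n + i) /
            (EL (fun a b s => if Q a b then (s : ℝ) ^ k else 0) (n + i) /
              EL (fun a b _ => if Q a b then 1 else 0) (n + i)))| ≤
          K * Real.sqrt ((Real.log n ^ 2 -
            Real.log (EL (fun a b _ => if Q a b then 1 else 0) n)) / n) ^ r := by
  obtain ⟨c, K, hc, hK, h⟩ := loops_main k r
  obtain ⟨c', K', hc', hK', h'⟩ := loops_main 0 r
  refine ⟨min c c', K + K', lt_min hc hc', by positivity, fun Q hQ n hn hP => ?_⟩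
  have hn0 : (0 : ℝ) ≤ n := Nat.cast_nonneg n
  have hP1 : Real.exp (-(c * n)) ≤ EL (fun a b _ => if Q a b then 1 else 0) n := by
    refine le_trans (Real.exp_le_exp.mpr (neg_le_neg ?_)) hP
    exact mul_le_mul_of_nonneg_right (min_le_left _ _) hn0
  have hP2 : Real.exp (-(c' * n)) ≤ EL (fun a b _ => if Q a b then 1 else 0) n := by
    refine le_trans (Real.exp_le_exp.mpr (neg_le_neg ?_)) hP
    exact mul_le_mul_of_nonneg_right (min_le_right _ _) hn0
  obtain ⟨a1, a2, a3⟩ := h Q hQ n hn hP1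
  obtain ⟨b1, b2, b3⟩ := h' Q hQ n hn hP2
  simp only [pow_zero, mul_one] at b1 b2 b3
  obtain ⟨y, hy⟩ : ∃ y, y = Real.sqrt ((Real.log n ^ 2 -
    Real.log (EL (fun a b _ => if Q a b then 1 else 0) n)) / n) ^ r := ⟨_, rfl⟩
  rw [← hy] at a2 a3 b2 b3 ⊢
  have hy0 : 0 ≤ y := by rw [hy]; positivity
  refine ⟨fun hr => ?_, fun φ hφ => ?_⟩
  · have c1 := a2 hr
    have c2 := b2 hr
    have e : ∑ i ∈ range (r + 1), (-1 : ℝ) ^ i * (r.choose i : ℝ) *
        Real.log (EL (fun a b s => if Q a b then (s : ℝ) ^ k else 0) (n + i) /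
          EL (fun a b _ => if Q a b then 1 else 0) (n + i)) =
        ∑ i ∈ range (r + 1), (-1 : ℝ) ^ i * (r.choose i : ℝ) *
        Real.log (EL (fun a b s => if Q a b then (s : ℝ) ^ k else 0) (n + i)) -
        ∑ i ∈ range (r + 1), (-1 : ℝ) ^ i * (r.choose i : ℝ) *
        Real.log (EL (fun a b _ => if Q a b then 1 else 0) (n + i)) := by
      rw [← sum_sub_distrib]
      refine sum_congr rfl (fun i _ => ?_)
      rw [Real.log_div (a1 i).ne' (b1 i).ne']
      ring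
    rw [e]
    refine (abs_sub _ _).trans ?_
    rw [add_mul]
    exact add_le_add c1 c2
  · have c1 := a3 φ hφ
    refine le_trans (le_of_eq ?_) (c1.trans (mul_le_mul_of_nonneg_right (by linarith) hy0))
    congr 1
    refine sum_congr rfl (fun i _ => ?_)
    rw [div_div_div_cancel_right₀ (b1 i).ne']

end

end Pool.Agent.K6.H96.SP
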