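import Mathlib

/-!
# A smoothing kernel on a finite cyclic group

`V` is a de la Vallée-Poussin kernel on `ZMod M`: its Fourier coefficients are in `[0, 1]` and equal
`1` for frequencies at most `N`; its norm in `ℓ¹` is at most `2`, and that of its difference is at
most `33 N / M`.
-/

set_option autoImplicit false
set_option linter.unusedVariables false
set_option linter.unusedSectionVars false

namespace Pool.Agent.K6.H96.SP

open Finset

noncomputable section

variable {M : ℕ} [NeZero M]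

/-- trigonometric sum -/
def tr (c : ZMod M → ℂ) (a : ZMod M) : ℂ := ∑ j, c j * ZMod.stdAddChar (j * a)

theorem psi_norm (j : ZMod M) : ‖(ZMod.stdAddChar j : ℂ)‖ = 1 := by
  rw [ZMod.stdAddChar_apply]
  exact Circle.norm_coe _

theorem orth (j k : ZMod M) :
    ∑ a : ZMod M, (ZMod.stdAddChar (j * a) : ℂ) *
      (starRingEnd ℂ) (ZMod.stdAddChar (k * a)) = if j = k then (M : ℂ) else 0 := by
  have h1 : ∀ a : ZMod M, (ZMod.stdAddChar (j * a) : ℂ) *
      (starRingEnd ℂ) (ZMod.stdAddChar (k * a)) = ZMod.stdAddChar (a * (j - k)) := by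
    intro a
    rw [← AddChar.map_neg_eq_conj, ← AddChar.map_add_eq_mul]
    congr 1
    ring
  rw [sum_congr rfl (fun a _ => h1 a), AddChar.sum_mulShift _ (ZMod.isPrimitive_stdAddChar M)]
  simp [sub_eq_zero, ZMod.card]

theorem parseval (c : ZMod M → ℂ) : ∑ a, ‖tr c a‖ ^ 2 = M * ∑ j, ‖c j‖ ^ 2 := by
  have h : ((∑ a, ‖tr c a‖ ^ 2 : ℝ) : ℂ) = ((M * ∑ j, ‖c j‖ ^ 2 : ℝ) : ℂ) := by
    push_cast
    have e : ∀ z : ℂ, (‖z‖ : ℂ) ^ 2 = z * (starRingEnd ℂ) z := fun z => by
      rw [Complex.mul_conj, Complex.normSq_eq_norm_sq]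
      push_cast
      rfl
    simp only [e]
    unfold tr
    simp only [map_sum, map_mul]
    calc ∑ a : ZMod M, (∑ j, c j * (ZMod.stdAddChar (j * a) : ℂ)) *
          ∑ k, (starRingEnd ℂ) (c k) * (starRingEnd ℂ) (ZMod.stdAddChar (k * a))
        = ∑ a : ZMod M, ∑ j, ∑ k, (c j * (starRingEnd ℂ) (c k)) *
          ((ZMod.stdAddChar (j * a) : ℂ) * (starRingEnd ℂ) (ZMod.stdAddChar (k * a))) := by
          refine sum_congr rfl (fun a _ => ?_)
          rw [sum_mul_sum]
          exact sum_congr rfl (fun j _ => sum_congr rfl (fun k _ => by ring))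
      _ = ∑ j, ∑ k, (c j * (starRingEnd ℂ) (c k)) * ∑ a : ZMod M,
          ((ZMod.stdAddChar (j * a) : ℂ) * (starRingEnd ℂ) (ZMod.stdAddChar (k * a))) := by
          rw [sum_comm]
          refine sum_congr rfl (fun j _ => ?_)
          rw [sum_comm]
          refine sum_congr rfl (fun k _ => ?_)
          rw [mul_sum]
      _ = _ := by
          rw [mul_sum]
          refine sum_congr rfl (fun j _ => ?_)
          rw [sum_eq_single j]
          · rw [orth, if_pos rfl]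
            ring
          · intro k _ hk
            rw [orth, if_neg (Ne.symm hk)]
            ring
          · simp
  exact_mod_cast h

/-- Fourier coefficient -/
def ft (g : ZMod M → ℂ) (j : ZMod M) : ℂ :=
  (∑ b, g b * (starRingEnd ℂ) (ZMod.stdAddChar (j * b))) / M

theorem M_ne : (M : ℂ) ≠ 0 := by
  have := NeZero.ne M
  exact_mod_cast this

theorem M_pos : (0 : ℝ) < M := by
  have := NeZero.pos M
  exact_mod_cast this

theorem inv (g : ZMod M → ℂ) (a : ZMod M) : tr (ft g) a = g a := by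
  unfold tr ft
  have h1 : ∀ j : ZMod M, (∑ b, g b * (starRingEnd ℂ) (ZMod.stdAddChar (j * b))) / M *
      (ZMod.stdAddChar (j * a) : ℂ) = ∑ b, g b / M * ((ZMod.stdAddChar (a * j) : ℂ) *
        (starRingEnd ℂ) (ZMod.stdAddChar (b * j))) := by
    intro j
    rw [sum_div, sum_mul]
    refine sum_congr rfl (fun b _ => ?_)
    rw [mul_comm j a, mul_comm j b]
    ring
  rw [sum_congr rfl (fun j _ => h1 j), sum_comm, sum_eq_single a]
  · rw [← mul_sum, orth, if_pos rfl]
    field_simp [M_ne (M := M)]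
  · intro b _ hb
    rw [← mul_sum, orth, if_neg (Ne.symm hb), mul_zero]
  · simp

theorem ft_norm (g : ZMod M → ℂ) {B : ℝ} (hB : ∀ a, ‖g a‖ ≤ B) (j : ZMod M) : ‖ft g j‖ ≤ B := by
  unfold ft
  rw [norm_div, Complex.norm_natCast, div_le_iff₀ M_pos]
  refine (norm_sum_le _ _).trans ?_
  calc ∑ b, ‖g b * (starRingEnd ℂ) (ZMod.stdAddChar (j * b))‖ ≤ ∑ b : ZMod M, B := by
        refine sum_le_sum (fun b _ => ?_)
        rw [norm_mul, RCLike.norm_conj, psi_norm, mul_one]
        exact hB b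
    _ = B * M := by
        rw [sum_const, card_univ, ZMod.card, nsmul_eq_mul]
        ring

theorem tr_mul (c d : ZMod M → ℂ) (a : ZMod M) :
    tr c a * tr d a = tr (fun j => ∑ y, c (j - y) * d y) a := by
  unfold tr
  rw [sum_mul_sum, sum_comm]
  have h1 : ∀ y : ZMod M, ∑ x, c x * (ZMod.stdAddChar (x * a) : ℂ) *
      (d y * ZMod.stdAddChar (y * a)) = ∑ j, c (j - y) * d y * ZMod.stdAddChar (j * a) := by
    intro y
    refine (Fintype.sum_equiv (Equiv.subRight y) _ _ (fun j => ?_)).symm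
    have e : (ZMod.stdAddChar (j * a) : ℂ) =
        ZMod.stdAddChar ((j - y) * a) * ZMod.stdAddChar (y * a) := by
      rw [← AddChar.map_add_eq_mul]
      congr 1
      ring
    rw [Equiv.subRight_apply, e]
    ring
  rw [sum_congr rfl (fun y _ => h1 y), sum_comm]
  refine sum_congr rfl (fun j _ => ?_)
  rw [sum_mul]

theorem tr_shift (c : ZMod M → ℂ) (a : ZMod M) :
    tr c (a + 1) - tr c a = tr (fun j => c j * (ZMod.stdAddChar j - 1)) a := by
  unfold tr
  rw [← sum_sub_distrib]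
  refine sum_congr rfl (fun j _ => ?_)
  have e : (ZMod.stdAddChar (j * (a + 1)) : ℂ) =
      ZMod.stdAddChar (j * a) * ZMod.stdAddChar j := by
    rw [← AddChar.map_add_eq_mul]
    congr 1
    ring
  rw [e]
  ring

/-- Cauchy-Schwarz -/
theorem cs (c d : ZMod M → ℂ) (e : ZMod M) {Z : ℝ} (hZ : 0 ≤ Z)
    (h : (∑ j, ‖c j‖ ^ 2) * (∑ j, ‖d j‖ ^ 2) ≤ Z ^ 2) :
    ∑ a, ‖tr c a‖ * ‖tr d (a + e)‖ ≤ M * Z := by
  have h0 : ∑ a, ‖tr d (a + e)‖ ^ 2 = ∑ a, ‖tr d a‖ ^ 2 :=
    Fintype.sum_equiv (Equiv.addRight e) _ _ (fun a => rfl)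
  have h1 := sum_mul_sq_le_sq_mul_sq univ (fun a : ZMod M => ‖tr c a‖)
    (fun a => ‖tr d (a + e)‖)
  rw [h0, parseval, parseval] at h1
  have hM : (0 : ℝ) < M := M_pos
  refine abs_le_of_sq_le_sq' (a := ∑ a, ‖tr c a‖ * ‖tr d (a + e)‖) ?_ (by positivity) |>.2
  calc (∑ a, ‖tr c a‖ * ‖tr d (a + e)‖) ^ 2
      ≤ M * (∑ j, ‖c j‖ ^ 2) * (M * ∑ j, ‖d j‖ ^ 2) := h1
    _ = M ^ 2 * ((∑ j, ‖c j‖ ^ 2) * (∑ j, ‖d j‖ ^ 2)) := by ring
    _ ≤ M ^ 2 * Z ^ 2 := mul_le_mul_of_nonneg_left h (by positivity)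
    _ = (M * Z) ^ 2 := by ring

theorem psi_int (z : ℤ) : ‖(ZMod.stdAddChar (z : ZMod M) : ℂ) - 1‖ ≤
    2 * Real.pi * |(z : ℝ)| / M := by
  rw [ZMod.stdAddChar_coe]
  have h := Real.norm_exp_I_mul_ofReal_sub_one_le (x := 2 * Real.pi * z / M)
  have e : Complex.I * ((2 * Real.pi * z / M : ℝ) : ℂ) = 2 * Real.pi * Complex.I * z / M := by
    push_cast
    ring
  rw [e] at h
  refine h.trans (le_of_eq ?_)
  rw [Real.norm_eq_abs, abs_div, abs_mul, abs_mul, abs_of_pos Real.pi_pos,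
    abs_of_pos (M_pos (M := M))]
  norm_num

/-- frequencies of the first factor -/
def s1 (M N : ℕ) [NeZero M] : Finset (ZMod M) :=
  (range (3 * N)).image (fun x : ℕ => (((x : ℤ) - (N : ℤ) : ℤ) : ZMod M))

/-- frequencies of the second factor -/
def s2 (M N : ℕ) [NeZero M] : Finset (ZMod M) :=
  (range N).image (fun y : ℕ => ((-(y : ℤ) : ℤ) : ZMod M))

/-- indicator -/
def ic (s : Finset (ZMod M)) (j : ZMod M) : ℂ := if j ∈ s then 1 else 0

theorem ic_sq (s : Finset (ZMod M)) (f : ZMod M → ℂ) {D : ℝ} (hD : 0 ≤ D)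
    (h : ∀ j ∈ s, ‖f j‖ ≤ D) :
    ∑ j, ‖ic s j * f j‖ ^ 2 ≤ s.card * D ^ 2 := by
  have h1 : ∀ j, ‖ic s j * f j‖ ^ 2 ≤ if j ∈ s then D ^ 2 else 0 := by
    intro j
    unfold ic
    split_ifs with hj
    · rw [one_mul]
      exact pow_le_pow_left₀ (norm_nonneg _) (h j hj) 2
    · simp
  refine (sum_le_sum (fun j _ => h1 j)).trans (le_of_eq ?_)
  rw [sum_ite_mem, univ_inter, sum_const, nsmul_eq_mul]

theorem ic_sq' (s : Finset (ZMod M)) : ∑ j, ‖ic s j‖ ^ 2 ≤ s.card := by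
  have h := ic_sq s (fun _ => 1) (D := 1) zero_le_one (fun j _ => by simp)
  simpa using h

variable (N : ℕ)

/-- the kernel -/
def VV (M N : ℕ) [NeZero M] (a : ZMod M) : ℂ := tr (ic (s1 M N)) a * tr (ic (s2 M N)) a / (N * M)

theorem s1_card : ((s1 M N).card : ℝ) ≤ 3 * N := by
  have : (s1 M N).card ≤ 3 * N := by
    unfold s1
    refine card_image_le.trans ?_
    rw [card_range]
  exact_mod_cast this

theorem s2_card_le : ((s2 M N).card : ℝ) ≤ N := by
  have : (s2 M N).card ≤ N := by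
    unfold s2
    refine card_image_le.trans ?_
    rw [card_range]
  exact_mod_cast this

theorem s2_card (h : N ≤ M) : (s2 M N).card = N := by
  unfold s2
  rw [card_image_of_injOn, card_range]
  intro x hx y hy hxy
  rw [coe_range, Set.mem_Iio] at hx hy
  simp only [Int.cast_neg, Int.cast_natCast, neg_inj] at hxy
  have h1 : ((x : ZMod M)).val = ((y : ZMod M)).val := by rw [hxy]
  rwa [ZMod.val_natCast_of_lt (by omega), ZMod.val_natCast_of_lt (by omega)] at h1

theorem V_l1 (hN : 0 < N) : ∑ a, ‖VV M N a‖ ≤ 2 := by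
  have hN' : (0 : ℝ) < N := by exact_mod_cast hN
  have hM : (0 : ℝ) < M := M_pos
  have h := cs (ic (s1 M N)) (ic (s2 M N)) 0 (Z := 2 * N) (by positivity) (by
    calc (∑ j, ‖ic (s1 M N) j‖ ^ 2) * (∑ j, ‖ic (s2 M N) j‖ ^ 2) ≤ (3 * N) * N :=
          mul_le_mul ((ic_sq' _).trans (s1_card N)) ((ic_sq' _).trans (s2_card_le N))
            (by positivity) (by positivity)
      _ ≤ _ := by nlinarith)
  have e : ∀ a, ‖VV M N a‖ = ‖tr (ic (s1 M N)) a‖ * ‖tr (ic (s2 M N)) (a + 0)‖ / (N * M) := by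
    intro a
    unfold VV
    rw [norm_div, norm_mul, norm_mul, Complex.norm_natCast, Complex.norm_natCast, add_zero]
  rw [sum_congr rfl (fun a _ => e a), ← sum_div, div_le_iff₀ (by positivity)]
  linarith

theorem V_dl1 (hN : 0 < N) : ∑ a, ‖VV M N (a + 1) - VV M N a‖ ≤ 33 * N / M := by
  have hN' : (0 : ℝ) < N := by exact_mod_cast hN
  have hM : (0 : ℝ) < M := M_pos
  have hπ : Real.pi ^ 2 < 10 := by
    have := Real.pi_lt_d2
    have := Real.pi_pos
    nlinarith
  have g1 : ∀ j ∈ s1 M N, ‖(ZMod.stdAddChar j : ℂ) - 1‖ ≤ 4 * Real.pi * N / M := by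
    intro j hj
    unfold s1 at hj
    rw [mem_image] at hj
    obtain ⟨x, hx, rfl⟩ := hj
    rw [mem_range] at hx
    refine (psi_int _).trans ?_
    have h1 : |(((x : ℤ) - (N : ℤ) : ℤ) : ℝ)| ≤ 2 * N := by
      have h2 : |((x : ℤ) - (N : ℤ))| ≤ 2 * N := by
        rw [abs_le]
        omega
      exact_mod_cast h2
    have := Real.pi_pos
    rw [div_le_div_iff_of_pos_right hM]
    nlinarith
  have g2 : ∀ j ∈ s2 M N, ‖(ZMod.stdAddChar j : ℂ) - 1‖ ≤ 2 * Real.pi * N / M := by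
    intro j hj
    unfold s2 at hj
    rw [mem_image] at hj
    obtain ⟨x, hx, rfl⟩ := hj
    rw [mem_range] at hx
    refine (psi_int _).trans ?_
    have h1 : |((-(x : ℤ) : ℤ) : ℝ)| ≤ N := by
      have h2 : |(-(x : ℤ))| ≤ N := by
        rw [abs_le]
        omega
      exact_mod_cast h2
    have := Real.pi_pos
    rw [div_le_div_iff_of_pos_right hM]
    nlinarith
  have k1 := cs (fun j => ic (s1 M N) j * (ZMod.stdAddChar j - 1)) (ic (s2 M N)) 1
    (Z := 22 * N ^ 2 / M) (by positivity) (by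
    calc (∑ j, ‖ic (s1 M N) j * (ZMod.stdAddChar j - 1)‖ ^ 2) * (∑ j, ‖ic (s2 M N) j‖ ^ 2)
        ≤ (3 * N * (4 * Real.pi * N / M) ^ 2) * N := by
          refine mul_le_mul ((ic_sq (s1 M N) _ (by positivity) g1).trans ?_)
            ((ic_sq' _).trans (s2_card_le N)) (by positivity) (by positivity)
          exact mul_le_mul_of_nonneg_right (s1_card N) (by positivity)
      _ = 48 * Real.pi ^ 2 * (N ^ 4 / M ^ 2) := by ring
      _ ≤ 484 * (N ^ 4 / M ^ 2) := by
          refine mul_le_mul_of_nonneg_right ?_ (by positivity)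
          linarith
      _ = _ := by ring)
  have k2 := cs (ic (s1 M N)) (fun j => ic (s2 M N) j * (ZMod.stdAddChar j - 1)) 0
    (Z := 11 * N ^ 2 / M) (by positivity) (by
    calc (∑ j, ‖ic (s1 M N) j‖ ^ 2) * (∑ j, ‖ic (s2 M N) j * (ZMod.stdAddChar j - 1)‖ ^ 2)
        ≤ (3 * N) * (N * (2 * Real.pi * N / M) ^ 2) := by
          refine mul_le_mul ((ic_sq' _).trans (s1_card N))
            ((ic_sq (s2 M N) _ (by positivity) g2).trans ?_) (by positivity) (by positivity)
          exact mul_le_mul_of_nonneg_right (s2_card_le N) (by positivity)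
      _ = 12 * Real.pi ^ 2 * (N ^ 4 / M ^ 2) := by ring
      _ ≤ 121 * (N ^ 4 / M ^ 2) := by
          refine mul_le_mul_of_nonneg_right ?_ (by positivity)
          linarith
      _ = _ := by ring)
  have e : ∀ a, ‖VV M N (a + 1) - VV M N a‖ ≤
      (‖tr (fun j => ic (s1 M N) j * (ZMod.stdAddChar j - 1)) a‖ *
        ‖tr (ic (s2 M N)) (a + 1)‖ +
      ‖tr (ic (s1 M N)) a‖ *
        ‖tr (fun j => ic (s2 M N) j * (ZMod.stdAddChar j - 1)) (a + 0)‖) / (N * M) := by
    intro a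
    have e1 : VV M N (a + 1) - VV M N a =
        (tr (fun j => ic (s1 M N) j * (ZMod.stdAddChar j - 1)) a * tr (ic (s2 M N)) (a + 1) +
        tr (ic (s1 M N)) a *
          tr (fun j => ic (s2 M N) j * (ZMod.stdAddChar j - 1)) (a + 0)) / (N * M) := by
      rw [add_zero, ← tr_shift, ← tr_shift]
      unfold VV
      ring
    rw [e1, norm_div, norm_mul (N : ℂ), Complex.norm_natCast, Complex.norm_natCast]
    refine div_le_div_of_nonneg_right ?_ (by positivity)
    refine (norm_add_le _ _).trans ?_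
    rw [norm_mul, norm_mul]
  refine (sum_le_sum (fun a _ => e a)).trans ?_
  rw [← sum_div, sum_add_distrib, div_le_iff₀ (by positivity)]
  refine (add_le_add k1 k2).trans (le_of_eq ?_)
  field_simp
  ring

theorem tr_ic_norm (s : Finset (ZMod M)) (a : ZMod M) : ‖tr (ic s) a‖ ≤ s.card := by
  unfold tr
  refine (norm_sum_le _ _).trans ?_
  have h1 : ∀ j, ‖ic s j * (ZMod.stdAddChar (j * a) : ℂ)‖ ≤ if j ∈ s then (1 : ℝ) else 0 := by
    intro j
    unfold ic
    rw [norm_mul, psi_norm, mul_one]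
    split_ifs <;> simp
  refine (sum_le_sum (fun j _ => h1 j)).trans (le_of_eq ?_)
  rw [sum_ite_mem, univ_inter, sum_const, nsmul_eq_mul, mul_one]

theorem V_sup (hN : 0 < N) (a : ZMod M) : ‖VV M N a‖ ≤ 3 * N / M := by
  have hN' : (0 : ℝ) < N := by exact_mod_cast hN
  have hM : (0 : ℝ) < M := M_pos
  unfold VV
  rw [norm_div, norm_mul, norm_mul, Complex.norm_natCast, Complex.norm_natCast,
    div_le_div_iff₀ (by positivity) hM]
  have h1 := (tr_ic_norm (s1 M N) a).trans (s1_card N)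
  have h2 := (tr_ic_norm (s2 M N) a).trans (s2_card_le N)
  have h3 : ‖tr (ic (s1 M N)) a‖ * ‖tr (ic (s2 M N)) a‖ ≤ 3 * N * N :=
    mul_le_mul h1 h2 (norm_nonneg _) (by positivity)
  nlinarith

/-- the Fourier coefficients of the kernel -/
def cc (M N : ℕ) [NeZero M] (j : ZMod M) : ℝ :=
  (((s2 M N).filter (fun y => j - y ∈ s1 M N)).card : ℝ) / N

theorem cc_mem (hN : 0 < N) (j : ZMod M) : 0 ≤ cc M N j ∧ cc M N j ≤ 1 := by
  have hN' : (0 : ℝ) < N := by exact_mod_cast hN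
  unfold cc
  refine ⟨by positivity, ?_⟩
  rw [div_le_one hN']
  refine le_trans ?_ (s2_card_le (M := M) N)
  exact_mod_cast card_filter_le _ _

theorem cc_one (hN : 0 < N) (h : N ≤ M) (z : ℤ) (hz : |z| ≤ N) : cc M N (z : ZMod M) = 1 := by
  have hN' : (0 : ℝ) < N := by exact_mod_cast hN
  unfold cc
  have h1 : (s2 M N).filter (fun y => (z : ZMod M) - y ∈ s1 M N) = s2 M N := by
    rw [filter_eq_self]
    intro y hy
    unfold s2 at hy
    rw [mem_image] at hy
    obtain ⟨u, hu, rfl⟩ := hy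
    rw [mem_range] at hu
    unfold s1
    rw [mem_image]
    rw [abs_le] at hz
    refine ⟨(z + u + N).toNat, ?_, ?_⟩
    · rw [mem_range]
      omega
    · have : (((z + u + N).toNat : ℕ) : ℤ) = z + u + N := by omega
      rw [this]
      push_cast
      ring
  rw [h1, s2_card N h, div_self hN'.ne']

theorem V_eq (a : ZMod M) : VV M N a = tr (fun j => (cc M N j : ℂ)) a / M := by
  unfold VV
  rw [tr_mul]
  unfold tr
  rw [sum_div, sum_div]
  refine sum_congr rfl (fun j _ => ?_)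
  have h1 : ∑ y, ic (s1 M N) (j - y) * ic (s2 M N) y =
      (((s2 M N).filter (fun y => j - y ∈ s1 M N)).card : ℂ) := by
    have h2 : ∀ y, ic (s1 M N) (j - y) * ic (s2 M N) y =
        if y ∈ (s2 M N).filter (fun y => j - y ∈ s1 M N) then 1 else 0 := by
      intro y
      unfold ic
      simp only [mem_filter]
      by_cases a1 : y ∈ s2 M N <;> by_cases a2 : j - y ∈ s1 M N <;> simp [a1, a2]
    rw [sum_congr rfl (fun y _ => h2 y), sum_ite_mem, univ_inter, sum_const, nsmul_eq_mul, mul_one]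
  beta_reduce
  rw [h1]
  unfold cc
  push_cast
  field_simp

/-- the smoothing operator -/
def TO (M N : ℕ) [NeZero M] : (ZMod M → ℂ) →ₗ[ℂ] (ZMod M → ℂ) where
  toFun g a := ∑ b, VV M N (a - b) * g b
  map_add' g h := by
    funext a
    simp only [Pi.add_apply, mul_add, sum_add_distrib]
  map_smul' c g := by
    funext a
    simp only [Pi.smul_apply, smul_eq_mul, RingHom.id_apply, mul_sum]
    refine sum_congr rfl (fun b _ => by ring)

/-- translation -/
def TA (c : ZMod M) : (ZMod M → ℂ) →ₗ[ℂ] (ZMod M → ℂ) where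
  toFun g a := g (a + c)
  map_add' g h := rfl
  map_smul' c g := rfl

theorem TO_apply (g : ZMod M → ℂ) (a : ZMod M) : TO M N g a = ∑ b, VV M N (a - b) * g b := rfl

theorem TA_apply (c : ZMod M) (g : ZMod M → ℂ) (a : ZMod M) : TA c g a = g (a + c) := rfl

theorem TO_TA (c : ZMod M) : Commute (TO M N) (TA c) := by
  refine LinearMap.ext (fun g => funext (fun a => ?_))
  rw [Module.End.mul_apply, Module.End.mul_apply, TO_apply, TA_apply, TO_apply]
  refine Fintype.sum_equiv (Equiv.addRight c) _ _ (fun b => ?_)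
  rw [TA_apply, Equiv.coe_addRight]
  congr 2
  ring

theorem TO_norm (hN : 0 < N) (g : ZMod M → ℂ) : ‖TO M N g‖ ≤ 2 * ‖g‖ := by
  rw [pi_norm_le_iff_of_nonneg (by positivity)]
  intro a
  rw [TO_apply]
  refine (norm_sum_le _ _).trans ?_
  calc ∑ b, ‖VV M N (a - b) * g b‖ ≤ ∑ b, ‖VV M N (a - b)‖ * ‖g‖ := by
        refine sum_le_sum (fun b _ => ?_)
        rw [norm_mul]
        exact mul_le_mul_of_nonneg_left (norm_le_pi_norm g b) (norm_nonneg _)
    _ = (∑ b, ‖VV M N b‖) * ‖g‖ := by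
        rw [← sum_mul]
        congr 1
        exact Fintype.sum_equiv (Equiv.subLeft a) _ _ (fun b => rfl)
    _ ≤ 2 * ‖g‖ := mul_le_mul_of_nonneg_right (V_l1 N hN) (norm_nonneg _)

theorem TO_dnorm (hN : 0 < N) (g : ZMod M → ℂ) (a : ZMod M) :
    ‖TO M N g (a + 1) - TO M N g a‖ ≤ 33 * N / M * ‖g‖ := by
  rw [TO_apply, TO_apply, ← sum_sub_distrib]
  refine (norm_sum_le _ _).trans ?_
  calc ∑ b, ‖VV M N (a + 1 - b) * g b - VV M N (a - b) * g b‖
      ≤ ∑ b, ‖VV M N ((a - b) + 1) - VV M N (a - b)‖ * ‖g‖ := by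
        refine sum_le_sum (fun b _ => ?_)
        rw [← sub_mul, norm_mul, show a + 1 - b = a - b + 1 by ring]
        exact mul_le_mul_of_nonneg_left (norm_le_pi_norm g b) (norm_nonneg _)
    _ = (∑ b, ‖VV M N (b + 1) - VV M N b‖) * ‖g‖ := by
        rw [← sum_mul]
        congr 1
        exact Fintype.sum_equiv (Equiv.subLeft a) _ _ (fun b => rfl)
    _ ≤ _ := mul_le_mul_of_nonneg_right (V_dl1 N hN) (norm_nonneg _)

theorem TO_single (hN : 0 < N) (c : ZMod M) (x : ℂ) :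
    ‖TO M N (fun a => if a = c then x else 0)‖ ≤ 3 * N / M * ‖x‖ := by
  have hM : (0 : ℝ) < M := M_pos
  rw [pi_norm_le_iff_of_nonneg (by positivity)]
  intro a
  rw [TO_apply]
  simp only [mul_ite, mul_zero, sum_ite_eq', mem_univ, if_true]
  rw [norm_mul]
  exact mul_le_mul_of_nonneg_right (V_sup N hN _) (norm_nonneg _)

/-- the smoothing operator on the Fourier side -/
theorem TO_tr (g : ZMod M → ℂ) (a : ZMod M) :
    TO M N g a = tr (fun j => (cc M N j : ℂ) * ft g j) a := by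
  rw [TO_apply]
  unfold tr ft
  simp only [V_eq]
  unfold tr
  have h1 : ∀ b : ZMod M, (∑ j, (cc M N j : ℂ) * ZMod.stdAddChar (j * (a - b))) / M * g b =
      ∑ j, (cc M N j : ℂ) * (g b * (starRingEnd ℂ) (ZMod.stdAddChar (j * b)) / M) *
        ZMod.stdAddChar (j * a) := by
    intro b
    rw [sum_div, sum_mul]
    refine sum_congr rfl (fun j _ => ?_)
    have e : (ZMod.stdAddChar (j * (a - b)) : ℂ) = ZMod.stdAddChar (j * a) *
        (starRingEnd ℂ) (ZMod.stdAddChar (j * b)) := by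
      rw [← AddChar.map_neg_eq_conj, ← AddChar.map_add_eq_mul]
      congr 1
      ring
    rw [e]
    ring
  rw [sum_congr rfl (fun b _ => h1 b), sum_comm]
  refine sum_congr rfl (fun j _ => ?_)
  rw [← sum_mul, ← mul_sum, sum_div]

theorem tail (hN : 0 < N) (h : N ≤ M) (g : ZMod M → ℂ) : ∃ b : ZMod M → ℂ,
    (∀ j, ‖b j‖ ≤ ‖g‖) ∧ (∀ z : ℤ, |z| ≤ N → b (z : ZMod M) = 0) ∧
    ∀ a, g a - TO M N g a = tr b a := by
  refine ⟨fun j => (1 - (cc M N j : ℂ)) * ft g j, fun j => ?_, fun z hz => ?_, fun a => ?_⟩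
  · rw [norm_mul]
    obtain ⟨h1, h2⟩ := cc_mem (M := M) N hN j
    have h3 : ‖(1 - (cc M N j : ℂ))‖ ≤ 1 := by
      rw [← Complex.ofReal_one, ← Complex.ofReal_sub, Complex.norm_real, Real.norm_eq_abs,
        abs_of_nonneg (by linarith)]
      linarith
    have h4 := ft_norm g (norm_le_pi_norm g) j
    calc ‖(1 - (cc M N j : ℂ))‖ * ‖ft g j‖ ≤ 1 * ‖g‖ :=
          mul_le_mul h3 h4 (norm_nonneg _) zero_le_one
      _ = _ := one_mul _
  · beta_reduce
    rw [cc_one N hN h z hz]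
    simp
  · rw [TO_tr]
    conv_lhs => rw [← inv g a]
    unfold tr
    rw [← sum_sub_distrib]
    refine sum_congr rfl (fun j _ => ?_)
    ring

end

end Pool.Agent.K6.H96.SP
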