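import Pool.Agent.N949.AL.Fin
import Pool.Agent.K6.H96.SP.Four
import Pool.Agent.K6.H96.SP.BoxM
import Pool.Agent.K6.H96.SP.Aof2

/-!
# The law of the area has no high frequencies
-/

set_option autoImplicit false
set_option linter.unusedVariables false
set_option linter.unusedSectionVars false

namespace Pool.Agent.K6.H96.SP

open Finset Pool.Agent.H976R2 Pool.Agent.H924P Pool.Agent.H739K
open Pool.Agent.N949.AL
open scoped Classical

noncomputable section

theorem sin_large {M N k : ℕ} (hM : 0 < M) (h1 : N ≤ k) (h2 : k + N ≤ M) :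
    2 * (N : ℝ) / M ≤ Real.sin (Real.pi * k / M) := by
  have hM' : (0 : ℝ) < M := by exact_mod_cast hM
  have hπ := Real.pi_pos
  have h1' : (N : ℝ) ≤ k := by exact_mod_cast h1
  have h2' : (k : ℝ) + N ≤ M := by exact_mod_cast h2
  have hN0 : (0 : ℝ) ≤ N := Nat.cast_nonneg N
  by_cases hk : (k : ℝ) ≤ M / 2
  · have h3 := Real.mul_le_sin (x := Real.pi * k / M) (by positivity) (by
      rw [div_le_div_iff₀ hM' (by norm_num)]
      nlinarith)
    refine le_trans ?_ h3
    rw [div_mul_div_comm, div_le_div_iff₀ hM' (by positivity)]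
    nlinarith [mul_pos hπ hM']
  · push Not at hk
    have e : Real.sin (Real.pi * k / M) = Real.sin (Real.pi * (M - k) / M) := by
      rw [← Real.sin_pi_sub]
      congr 1
      field_simp
    rw [e]
    have h3 := Real.mul_le_sin (x := Real.pi * (M - k) / M) (by
      refine div_nonneg (mul_nonneg hπ.le (by linarith)) hM'.le) (by
      rw [div_le_div_iff₀ hM' (by norm_num)]
      nlinarith)
    refine le_trans ?_ h3
    rw [div_mul_div_comm, div_le_div_iff₀ hM' (by positivity)]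
    nlinarith [mul_pos hπ hM']

theorem re_cos {M : ℕ} [NeZero M] (b : ℂ) (j : ZMod M) (a : ℕ) :
    (b * ZMod.stdAddChar (j * (a : ZMod M))).re =
      ‖b‖ * Real.cos (2 * Real.pi * j.val / M * (a : ℝ) + b.arg) := by
  have h1 : j * (a : ZMod M) = (((j.val : ℤ) * (a : ℤ) : ℤ) : ZMod M) := by
    push_cast
    rw [ZMod.natCast_zmod_val]
  rw [h1, ZMod.stdAddChar_coe]
  have h2 : b = ‖b‖ * Complex.exp (b.arg * Complex.I) := (Complex.norm_mul_exp_arg_mul_I b).symm
  have h3 : b * Complex.exp (2 * Real.pi * Complex.I * (((j.val : ℤ) * (a : ℤ) : ℤ) : ℂ) / M) =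
      ‖b‖ * Complex.exp (((2 * Real.pi * j.val / M * (a : ℝ) + b.arg : ℝ) : ℂ) * Complex.I) := by
    conv_lhs => rw [h2]
    rw [mul_assoc, ← Complex.exp_add]
    congr 2
    push_cast
    ring
  rw [h3, Complex.re_ofReal_mul, Complex.exp_ofReal_mul_I_re]

theorem err : ∃ C : ℝ, 1 ≤ C ∧ ∀ n : ℕ, 3 ≤ n → n % 2 = 1 → ∀ (M N : ℕ) [NeZero M],
    0 < N → 2 * N ≤ M → ∀ u : ZMod M → ℂ,
    |∑ w ∈ KP n, ((u ((ar w : ℕ) : ZMod M)).re - (TO M N u ((ar w : ℕ) : ZMod M)).re)| ≤
      C * M * ‖u‖ * Real.exp (-(((N : ℝ) / M) ^ 2 * n / C)) * ((KP n).card : ℝ) := by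
  obtain ⟨C, hC, A, h⟩ := fin
  refine ⟨2 * C, by linarith, fun n hn ho M N _ hN hNM u => ?_⟩
  obtain ⟨m, hm⟩ : ∃ m, n = 2 * m - 1 := ⟨(n + 1) / 2, by omega⟩
  have hm2 : 2 ≤ m := by omega
  have hC0 : 0 < C := by linarith
  have hMp : 0 < M := NeZero.pos M
  have hM' : (0 : ℝ) < M := by exact_mod_cast hMp
  have hcp : (0 : ℝ) < ((KP n).card : ℝ) := by
    rw [hm]
    exact Pool.Agent.N929.EZ.KP_pos (by omega) (by omega)
  obtain ⟨hcos, -, -⟩ := h m hm2 ∅ (fun _ => 1) (by simp) (fun f _ => by simp)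
    (fun f f' _ _ k _ _ _ => rfl)
  have hmean : ∀ G : (ZMod (2 * m) → ℤ × ℤ) → ℝ, me m G =
      (∑ w ∈ KP n, G (lp (2 * m) w)) / ((KP n).card : ℝ) := by
    intro G
    rw [F4x.me_eq CONV_proof hm2, ← hm]
  have hone : me m (fun f => |(fun _ => (1 : ℝ)) f|) = 1 := by
    rw [hmean]
    simp only [abs_one, sum_const, nsmul_eq_mul, mul_one]
    exact div_self hcp.ne'
  rw [hone] at hcos
  have har : ∀ w ∈ KP n, area (2 * m) (lp (2 * m) w) = ar w := by
    intro w hw
    rw [hm] at hw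
    exact (F4x.ar_eq hm2 hw).symm
  obtain ⟨b, hb1, hb2, hb3⟩ := tail N hN (by omega : N ≤ M) u
  have hmn : (n : ℝ) ≤ 2 * m := by exact_mod_cast (by omega : n ≤ 2 * m)
  have hn0 : (0 : ℝ) ≤ n := Nat.cast_nonneg n
  obtain ⟨X, hX⟩ : ∃ X, X = Real.exp (-(((N : ℝ) / M) ^ 2 * n / (2 * C))) := ⟨_, rfl⟩
  have hX0 : 0 < X := by rw [hX]; exact Real.exp_pos _
  rw [← hX]
  have hNM1 : ((N : ℝ) / M) ^ 2 ≤ 1 := by
    have : (N : ℝ) ≤ M := by exact_mod_cast (by omega : N ≤ M)
    exact pow_le_one₀ (by positivity) ((div_le_one hM').2 this)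
  have hterm : ∀ j : ZMod M, |∑ w ∈ KP n, (b j * ZMod.stdAddChar (j * ((ar w : ℕ) : ZMod M))).re| ≤
      2 * C * ‖u‖ * X * ((KP n).card : ℝ) := by
    intro j
    by_cases hj : b j = 0
    · simp only [hj, zero_mul, Complex.zero_re, sum_const_zero, abs_zero]
      positivity
    · have hjv : j.val < M := ZMod.val_lt j
      have hj1 : N ≤ j.val := by
        by_contra hcon
        apply hj
        have h1 := hb2 (j.val : ℤ) (by rw [abs_le]; omega)
        rwa [Int.cast_natCast, ZMod.natCast_zmod_val] at h1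
      have hj2 : j.val + N ≤ M := by
        by_contra hcon
        apply hj
        have h1 := hb2 ((j.val : ℤ) - M) (by rw [abs_le]; omega)
        have h2 : (((j.val : ℤ) - (M : ℤ) : ℤ) : ZMod M) = j := by
          push_cast
          rw [ZMod.natCast_zmod_val]
          simp
        rwa [h2] at h1
      have h3 := hcos (2 * Real.pi * j.val / M) (b j).arg
      rw [hmean, abs_div, abs_of_pos hcp, div_le_iff₀ hcp] at h3
      have h4 : ∑ w ∈ KP n, (b j * ZMod.stdAddChar (j * ((ar w : ℕ) : ZMod M))).re =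
          ‖b j‖ * ∑ w ∈ KP n, (fun _ => (1 : ℝ)) (lp (2 * m) w) *
            Real.cos (2 * Real.pi * j.val / M * (area (2 * m) (lp (2 * m) w) : ℝ) +
              (b j).arg) := by
        rw [mul_sum]
        refine sum_congr rfl (fun w hw => ?_)
        rw [re_cos, har w hw, one_mul]
      rw [h4, abs_mul, abs_of_nonneg (norm_nonneg _)]
      have h5 : Real.exp (-(Real.sin (2 * Real.pi * j.val / M / 2) ^ 2 * m / C)) ≤ X := by
        rw [hX]
        refine Real.exp_le_exp.2 (neg_le_neg ?_)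
        have h6 := sin_large hMp hj1 hj2
        have e1 : 2 * Real.pi * (j.val : ℝ) / M / 2 = Real.pi * j.val / M := by ring
        rw [e1]
        have h7 : (2 * (N : ℝ) / M) ^ 2 ≤ Real.sin (Real.pi * j.val / M) ^ 2 :=
          pow_le_pow_left₀ (by positivity) h6 2
        have h8 : ((N : ℝ) / M) ^ 2 * n ≤ Real.sin (Real.pi * j.val / M) ^ 2 * m * 2 := by
          have e2 : (2 * (N : ℝ) / M) ^ 2 = 4 * ((N : ℝ) / M) ^ 2 := by ring
          rw [e2] at h7
          have h9 : 0 ≤ ((N : ℝ) / M) ^ 2 := by positivity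
          have h10 : (0 : ℝ) ≤ m := Nat.cast_nonneg m
          nlinarith [mul_le_mul_of_nonneg_right h7 h10, mul_le_mul_of_nonneg_left hmn h9]
        rw [div_le_div_iff₀ (by positivity) hC0]
        nlinarith
      have h6 : Real.exp (-((m : ℝ) / C)) ≤ X := by
        rw [hX]
        refine Real.exp_le_exp.2 (neg_le_neg ?_)
        rw [div_le_div_iff₀ (by positivity) hC0]
        have h7 : ((N : ℝ) / M) ^ 2 * n ≤ 2 * m := by nlinarith
        nlinarith
      calc ‖b j‖ * |∑ w ∈ KP n, (fun _ => (1 : ℝ)) (lp (2 * m) w) *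
            Real.cos (2 * Real.pi * j.val / M * (area (2 * m) (lp (2 * m) w) : ℝ) + (b j).arg)|
          ≤ ‖u‖ * (C * (1 * X + X) * ((KP n).card : ℝ)) := by
            refine mul_le_mul (hb1 j) (h3.trans ?_) (abs_nonneg _) (norm_nonneg _)
            refine mul_le_mul_of_nonneg_right (mul_le_mul_of_nonneg_left ?_ hC0.le) hcp.le
            exact add_le_add (mul_le_mul_of_nonneg_left h5 zero_le_one) h6
        _ = 2 * C * ‖u‖ * X * ((KP n).card : ℝ) := by ring
  have e1 : ∑ w ∈ KP n, ((u ((ar w : ℕ) : ZMod M)).re - (TO M N u ((ar w : ℕ) : ZMod M)).re) =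
      ∑ j : ZMod M, ∑ w ∈ KP n, (b j * ZMod.stdAddChar (j * ((ar w : ℕ) : ZMod M))).re := by
    rw [sum_comm]
    refine sum_congr rfl (fun w _ => ?_)
    rw [← Complex.sub_re, hb3]
    unfold tr
    rw [Complex.re_sum]
  rw [e1]
  refine (abs_sum_le_sum_abs _ _).trans ((sum_le_sum (fun j _ => hterm j)).trans (le_of_eq ?_))
  rw [sum_const, card_univ, ZMod.card, nsmul_eq_mul]
  ring

end

end Pool.Agent.K6.H96.SP
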