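import Pool.Agent.N929.EZ.Wid
import Pool.Agent.H976R2.KDouble

/-!
# Adding a bump at an extreme edge of a polygon
-/

set_option autoImplicit false
set_option linter.unusedVariables false

namespace Pool.Agent.K6.H96.SP

open Pool.Agent.H976R2 Pool.Agent.H976R2.Dir Finset
open Pool.Agent.N929.EZ
open Pool.Agent.H739K (KP ar)
open scoped Classical

noncomputable section

/-- the height of a point in a direction -/
def hh (e : Dir) (p : ℤ × ℤ) : ℤ := p.1 * dx e + p.2 * dy e

/-- the largest height of a site -/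
def mh : Dir → List Dir → ℤ
  | E, w => mxx w
  | W, w => -mnx w
  | N, w => mxy w
  | S, w => -mny w

theorem le_mh (e : Dir) (w : List Dir) {t : ℕ} (ht : t ≤ w.length) :
    hh e (Lip.PP w t) ≤ mh e w := by
  have h1 := le_mxx w ht
  have h2 := mnx_le w ht
  have h3 := le_mxy w ht
  have h4 := mny_le w ht
  cases e <;> simp only [hh, mh, dx, dy, mul_one, mul_zero, add_zero, zero_add, mul_neg] <;>
    omega

theorem mh_att (e : Dir) (w : List Dir) : ∃ t, t ≤ w.length ∧ hh e (Lip.PP w t) = mh e w := by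
  cases e
  · obtain ⟨t, ht, h⟩ := mxx_att w
    exact ⟨t, ht, by simp only [hh, mh, dx, dy]; omega⟩
  · obtain ⟨t, ht, h⟩ := mnx_att w
    exact ⟨t, ht, by simp only [hh, mh, dx, dy]; omega⟩
  · obtain ⟨t, ht, h⟩ := mxy_att w
    exact ⟨t, ht, by simp only [hh, mh, dx, dy]; omega⟩
  · obtain ⟨t, ht, h⟩ := mny_att w
    exact ⟨t, ht, by simp only [hh, mh, dx, dy]; omega⟩

theorem mh_unique (e : Dir) (w : List Dir) (M : ℤ) (h1 : ∀ t, t ≤ w.length → hh e (Lip.PP w t) ≤ M)
    (h2 : ∃ t, t ≤ w.length ∧ hh e (Lip.PP w t) = M) : mh e w = M := by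
  obtain ⟨t, ht, h⟩ := h2
  obtain ⟨s, hs, h'⟩ := mh_att e w
  have a := h1 s hs
  have b := le_mh e w ht
  omega

/-- neighbours -/
def Nb (p q : ℤ × ℤ) : Prop := |p.1 - q.1| + |p.2 - q.2| = 1

theorem nb_step (w : List Dir) {t : ℕ} (ht : t < w.length) :
    Nb (Lip.PP w t) (Lip.PP w (t + 1)) := by
  unfold Nb
  rcases PP_one w ht with h | h
  · rw [abs_sub_comm, h.1, h.2]
    simp
  · rw [abs_sub_comm (Lip.PP w t).2, h.1, h.2]
    simp

theorem nb_symm {p q : ℤ × ℤ} (h : Nb p q) : Nb q p := by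
  unfold Nb at *
  rw [abs_sub_comm q.1, abs_sub_comm q.2]
  exact h

theorem nb_low (e : Dir) {p q : ℤ × ℤ} (h : Nb p q) (h1 : hh e q ≤ hh e p)
    (h2 : hh e q ≠ hh e p) : q = (p.1 - dx e, p.2 - dy e) := by
  unfold Nb at h
  have a1 := abs_nonneg (p.1 - q.1)
  have a2 := abs_nonneg (p.2 - q.2)
  have a3 := le_abs_self (p.1 - q.1)
  have a4 := neg_abs_le (p.1 - q.1)
  have a5 := le_abs_self (p.2 - q.2)
  have a6 := neg_abs_le (p.2 - q.2)
  have b1 : p.1 - q.1 ≠ 0 ∨ |p.1 - q.1| = 0 := by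
    by_cases hh : p.1 - q.1 = 0
    · right; rw [hh]; rfl
    · left; exact hh
  have b2 : p.2 - q.2 ≠ 0 ∨ |p.2 - q.2| = 0 := by
    by_cases hh : p.2 - q.2 = 0
    · right; rw [hh]; rfl
    · left; exact hh
  ext
  · cases e <;> simp only [hh, dx, dy] at h1 h2 ⊢ <;> omega
  · cases e <;> simp only [hh, dx, dy] at h1 h2 ⊢ <;> omega

/-- the two neighbours of an extreme site are not both below it -/
theorem nb_two (e : Dir) {p q q' : ℤ × ℤ} (M : ℤ) (hp : hh e p = M) (h : Nb p q) (h' : Nb p q')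
    (h1 : hh e q ≤ M) (h1' : hh e q' ≤ M) (hne : q ≠ q') : hh e q = M ∨ hh e q' = M := by
  by_contra hcon
  push Not at hcon
  exact hne ((nb_low e h (by omega) (by omega)).trans (nb_low e h' (by omega) (by omega)).symm)

theorem nb_close {w : List Dir} (hs : sq w = 1) : Nb (Lip.PP w w.length) (Lip.PP w 0) := by
  rw [PP_zero]
  have e1 : Lip.PP w w.length = (wX w, wY w) := by
    unfold Lip.PP
    rw [List.take_length]
  rw [e1]
  unfold Nb
  unfold Pool.Agent.H976R2.sq at hs
  have h4 : (wX w) ^ 2 + (wY w) ^ 2 = 1 := by exact_mod_cast hs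
  simp only [sub_zero]
  have a1 := sq_abs (wX w)
  have a2 := sq_abs (wY w)
  have a3 := abs_nonneg (wX w)
  have a4 := abs_nonneg (wY w)
  rw [← a1, ← a2] at h4
  have a5 : |wX w| ≤ 1 := by nlinarith
  have a6 : |wY w| ≤ 1 := by nlinarith
  have b1 : |wX w| = 0 ∨ |wX w| = 1 := by omega
  have b2 : |wY w| = 0 ∨ |wY w| = 1 := by omega
  rcases b1 with b1 | b1 <;> rcases b2 with b2 | b2 <;> rw [b1, b2] at h4 ⊢ <;> omega

/-- an extreme edge -/
theorem ext_edge {w : List Dir} (hw : Saw w) (hs : sq w = 1) (h3 : 3 ≤ w.length) (e : Dir) :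
    (∃ i, i < w.length ∧ hh e (Lip.PP w i) = mh e w ∧ hh e (Lip.PP w (i + 1)) = mh e w) ∨
      (hh e (Lip.PP w 0) = mh e w ∧ hh e (Lip.PP w w.length) = mh e w) := by
  obtain ⟨t, ht, hM⟩ := mh_att e w
  by_cases h0 : t = 0
  · subst h0
    have h1 := nb_two e (mh e w) hM (nb_step w (t := 0) (by omega)) (nb_symm (nb_close hs))
      (le_mh e w (by omega)) (le_mh e w le_rfl) (fun h => by
        have := Lip.PP_inj hw (by omega) (by omega) h
        omega)
    rcases h1 with h1 | h1
    · exact Or.inl ⟨0, by omega, hM, h1⟩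
    · exact Or.inr ⟨hM, h1⟩
  · obtain ⟨s, rfl⟩ : ∃ s, t = s + 1 := ⟨t - 1, by omega⟩
    by_cases hl : s + 1 = w.length
    · have h1 := nb_two e (mh e w) hM (nb_symm (nb_step w (t := s) (by omega)))
        (by rw [hl]; exact nb_close hs)
        (le_mh e w (by omega)) (le_mh e w (Nat.zero_le _)) (fun h => by
          have := Lip.PP_inj hw (by omega) (by omega) h
          omega)
      rcases h1 with h1 | h1
      · exact Or.inl ⟨s, by omega, h1, hM⟩
      · exact Or.inr ⟨h1, by rw [← hl]; exact hM⟩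
    · have h1 := nb_two e (mh e w) hM (nb_symm (nb_step w (t := s) (by omega)))
        (nb_step w (t := s + 1) (by omega))
        (le_mh e w (by omega)) (le_mh e w (by omega)) (fun h => by
          have := Lip.PP_inj hw (by omega) (by omega) h
          omega)
      rcases h1 with h1 | h1
      · exact Or.inl ⟨s, by omega, h1, hM⟩
      · exact Or.inl ⟨s + 1, by omega, hM, h1⟩

/-- a letter inside an extreme line is perpendicular to the direction -/
theorem perp_of {w : List Dir} {e : Dir} {i : ℕ} (hi : i < w.length)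
    (h : hh e (Lip.PP w (i + 1)) = hh e (Lip.PP w i)) : perp e (lt w i) := by
  rw [Lip.PP_succ w i hi] at h
  unfold hh Lip.dv at h
  revert h
  cases e <;> cases lt w i <;> simp [dx, dy, perp]

/-- an insertion at an extreme edge -/
structure Xi (e : Dir) (w : List Dir) (i : ℕ) : Prop where
  lt' : i < w.length
  a : hh e (Lip.PP w i) = mh e w
  b : hh e (Lip.PP w (i + 1)) = mh e w

theorem Xi.perp {e : Dir} {w : List Dir} {i : ℕ} (h : Xi e w i) : perp e (lt w i) :=
  perp_of h.lt' (h.b.trans h.a.symm)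

theorem hh_add (e : Dir) (p q : ℤ × ℤ) : hh e (p + q) = hh e p + hh e q := by
  unfold hh
  simp only [Prod.fst_add, Prod.snd_add]
  ring

theorem hh_dv (e : Dir) : hh e (Lip.dv e) = 1 := by
  cases e <;> simp [hh, Lip.dv, dx, dy]

theorem vis_ex (w : List Dir) (p : ℤ × ℤ) : vis w p ↔ ∃ t, t ≤ w.length ∧ Lip.PP w t = p := by
  constructor
  · rintro ⟨a, b, h1, h2, h3⟩
    refine ⟨a.length, by rw [h1]; simp, ?_⟩
    unfold Lip.PP
    have : w.take a.length = a := by rw [h1]; simp
    rw [this, h2, h3]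
  · rintro ⟨t, ht, rfl⟩
    exact ⟨w.take t, w.drop t, (List.take_append_drop t w).symm, rfl, rfl⟩

theorem Xi.adm {e : Dir} {w : List Dir} {i : ℕ} (hw : Saw w) (h : Xi e w i) : (i, e) ∈ adm w := by
  have hd : hh e (Lip.dv (lt w i)) = 0 := by
    have := h.b
    rw [Lip.PP_succ w i h.lt', hh_add, h.a] at this
    omega
  rw [Lip.mem_adm hw]
  refine ⟨h.lt', h.perp, fun hv => ?_, fun hv => ?_⟩
  · obtain ⟨t, ht, hp⟩ := (vis_ex w _).1 hv
    have h1 := le_mh e w ht
    rw [hp, hh_add, hh_dv, h.a] at h1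
    omega
  · obtain ⟨t, ht, hp⟩ := (vis_ex w _).1 hv
    have h1 := le_mh e w ht
    rw [hp, hh_add, hh_add, hh_dv, h.a, hd] at h1
    omega

theorem Xi.saw {e : Dir} {w : List Dir} {i : ℕ} (hw : Saw w) (h : Xi e w i) : Saw (ins w i e) := by
  have := h.adm hw
  unfold Pool.Agent.H976R2.adm at this
  exact (mem_filter.1 this).2.2

/-- the largest height after an insertion -/
theorem mh_ins {w : List Dir} {i : ℕ} {e : Dir} (h : Xi e w i) (f : Dir) :
    mh f (ins w i e) = mh f w + (if f = e then 1 else 0) := by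
  have hi := h.lt'
  have hv := fun p => Lip.vis_ins w i e hi p
  have hP : hh f (Lip.PP w i) ≤ mh f w := le_mh f w hi.le
  have hP1 : hh f (Lip.PP w (i + 1)) ≤ mh f w := le_mh f w hi
  have hper := h.perp
  have ha := h.a
  have hb := h.b
  rw [Lip.PP_succ w i hi, hh_add] at hP1 hb
  obtain ⟨s, hs, hs'⟩ := mh_att f w
  have hall : ∀ t, t ≤ (ins w i e).length → hh f (Lip.PP (ins w i e) t) ≤
      mh f w + (if f = e then 1 else 0) := by
    intro t ht
    have h1 := (hv _).1 ((vis_ex _ _).2 ⟨t, ht, rfl⟩)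
    rcases h1 with h1 | h1 | h1
    · obtain ⟨s, hs, hs'⟩ := (vis_ex _ _).1 h1
      rw [← hs']
      have := le_mh f w hs
      split_ifs <;> omega
    · rw [h1, hh_add]
      by_cases hfe : f = e
      · subst hfe
        rw [if_pos rfl, hh_dv]
        omega
      · rw [if_neg hfe]
        have : hh f (Lip.dv e) ≤ 0 := by
          revert hfe
          cases f <;> cases e <;> simp [hh, Lip.dv, dx, dy]
        omega
    · rw [h1, hh_add, hh_add]
      by_cases hfe : f = e
      · subst hfe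
        rw [if_pos rfl, hh_dv]
        omega
      · rw [if_neg hfe]
        have : hh f (Lip.dv e) ≤ 0 := by
          revert hfe
          cases f <;> cases e <;> simp [hh, Lip.dv, dx, dy]
        omega
  refine mh_unique f _ _ hall ?_
  by_cases hfe : f = e
  · subst hfe
    obtain ⟨t, ht, hp⟩ := (vis_ex _ _).1 ((hv (Lip.PP w i + Lip.dv f)).2 (Or.inr (Or.inl rfl)))
    refine ⟨t, ht, ?_⟩
    rw [hp, hh_add, hh_dv, if_pos rfl, ha]
  · obtain ⟨t, ht, hp⟩ := (vis_ex _ _).1 ((hv (Lip.PP w s)).2 (Or.inl ((vis_ex _ _).2 ⟨s, hs, rfl⟩)))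
    refine ⟨t, ht, ?_⟩
    rw [hp, if_neg hfe, hs']
    omega

/-- the extreme sites after an insertion -/
theorem Xi.sites {w : List Dir} {i : ℕ} {e : Dir} (h : Xi e w i) {t : ℕ}
    (ht : t ≤ (ins w i e).length) (hM : hh e (Lip.PP (ins w i e) t) = mh e (ins w i e)) :
    t = i + 1 ∨ t = i + 2 := by
  have hi := h.lt'
  rw [mh_ins h, if_pos rfl] at hM
  rw [Lip.ins_length w i e hi] at ht
  by_contra hcon
  push Not at hcon
  rcases Nat.lt_or_ge i t with h1 | h1
  · obtain ⟨s, rfl⟩ : ∃ s, t = s + 2 := ⟨t - 2, by omega⟩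
    rw [Lip.PP_ins_gt w i s e hi (by omega)] at hM
    have := le_mh e w (t := s) (by omega)
    omega
  · rw [Lip.PP_ins_le w i t e hi h1] at hM
    have := le_mh e w (t := t) (by omega)
    omega

theorem Xi.site1 {w : List Dir} {i : ℕ} {e : Dir} (h : Xi e w i) :
    hh e (Lip.PP (ins w i e) (i + 1)) = mh e (ins w i e) := by
  have hi := h.lt'
  have hl := Lip.ins_length w i e hi
  rw [Lip.PP_succ (ins w i e) i (by omega), Lip.PP_ins_le w i i e hi le_rfl, Lip.lt_ins_0 w i e hi,
    hh_add, hh_dv, h.a, mh_ins h, if_pos rfl]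

theorem Xi.site2 {w : List Dir} {i : ℕ} {e : Dir} (h : Xi e w i) :
    hh e (Lip.PP (ins w i e) (i + 2)) = mh e (ins w i e) := by
  have hi := h.lt'
  have hl := Lip.ins_length w i e hi
  have h1 := h.site1
  have hb := h.b
  rw [Lip.PP_succ w i hi, hh_add, h.a] at hb
  rw [Lip.PP_succ (ins w i e) (i + 1) (by omega), Lip.lt_ins_1 w i e hi, hh_add, h1]
  omega

/-- the insertion can be undone -/
theorem Xi.inj {w w' : List Dir} {i i' : ℕ} {e : Dir} (h : Xi e w i) (h' : Xi e w' i')
    (he : ins w i e = ins w' i' e) : w = w' := by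
  have hl := Lip.ins_length w i e h.lt'
  have hl' := Lip.ins_length w' i' e h'.lt'
  have hi := h.lt'
  have a1 := h'.sites (t := i + 1) (by rw [← he]; omega) (by rw [← he]; exact h.site1)
  have a2 := h'.sites (t := i + 2) (by rw [← he]; omega) (by rw [← he]; exact h.site2)
  have a3 : i = i' := by omega
  subst a3
  rw [← del_ins (w := w) (i := i) (e := e) hi, he, del_ins h'.lt']

end

end Pool.Agent.K6.H96.SP
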