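import Pool.Agent.N929.EZ.Poly3

/-!
# Regularity to all orders for functionals of polygons
-/

set_option autoImplicit false
set_option linter.unusedVariables false

namespace Pool.Agent.K6.H96.SP

open Pool.Agent.H976R2 Pool.Agent.H976R2.Dir Finset
open Pool.Agent.N929.EX Pool.Agent.N929.EY Pool.Agent.N929.EZ
open Pool.Agent
open Pool.Agent.H739K (KP)
open scoped Classical

noncomputable section

/-- growth of the numbers of walks and polygons, and regularity of functionals of polygons -/
theorem paof : ∃ K : ℝ, 0 ≤ K ∧ 2.43 ≤ H981.mu ∧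
    (∀ m n : ℕ, 2 ≤ n → m ≤ n →
      ((SW m).card : ℝ) ≤ 4 * (H981.mu ^ m * Real.exp (K * Real.log n ^ 2))) ∧
    (∀ n : ℕ, 3 ≤ n → n % 2 = 1 →
      H981.mu ^ n ≤ Real.exp (K * Real.log n ^ 2) * ((KP n).card : ℝ)) ∧
    ∀ r : ℕ, ∃ A C : ℝ, 0 < A ∧ 0 < C ∧ ∀ (n : ℕ) (ε : ℝ), 3 ≤ n →
      0 < ε → ε ≤ 1 → A * Real.log n ^ 2 ≤ ε ^ 2 * n →
      ∃ L : Finset (ℤ × ℤ), CF L ∧
        ∀ st fl, Fill L 0 0 st fl → ∀ (F M : List Dir → ℝ) (B : ℝ), 0 ≤ B → (∀ w, 0 ≤ M w) →
          (∀ i ∈ range (r + 1), ∀ w ∈ KP (n + 2 * i), |F w| ≤ B) →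
          (∀ w, Em L 0 0 w → sq w = 1 → 3 ≤ w.length →
            Rp (Sl L 0 0 w) (fun U => F (fl w U)) (M w)) →
          |∑ i ∈ range (r + 1), (-1 : ℝ) ^ i * (r.choose i : ℝ) *
            ((∑ w ∈ KP (n + 2 * i), F w) / H981.mu ^ (2 * i))| ≤
            C * (ε ^ r * (∑ w ∈ KP n, M (st w)) +
              B * (Real.exp (-(ε ^ 2 * n / A)) * ((SW n).card : ℝ))) := by
  obtain ⟨μ, K, hμ, hK, hlow, hupp, h⟩ := s_aof
  have hmu := mu_eq hμ hK hlow hupp
  rw [hmu] at hμ hlow hupp h
  obtain ⟨K', hK', hKP⟩ := KP_low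
  refine ⟨K + K', by positivity, hμ, fun m n hn hm => ?_, fun n hn ho => ?_, fun r => ?_⟩
  · refine (hupp m n hn hm).trans ?_
    have : Real.exp (K * Real.log n ^ 2) ≤ Real.exp ((K + K') * Real.log n ^ 2) :=
      Real.exp_le_exp.mpr (mul_le_mul_of_nonneg_right (by linarith) (by positivity))
    have h1 : 0 ≤ H981.mu ^ m := by positivity
    nlinarith [mul_le_mul_of_nonneg_left this h1]
  · refine (hlow n).trans ((hKP n hn ho).trans ?_)
    have : Real.exp (K' * Real.log n ^ 2) ≤ Real.exp ((K + K') * Real.log n ^ 2) :=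
      Real.exp_le_exp.mpr (mul_le_mul_of_nonneg_right (by linarith) (by positivity))
    exact mul_le_mul_of_nonneg_right this (Nat.cast_nonneg _)
  · obtain ⟨A, C, hA, hC, h1⟩ := h r
    refine ⟨A, C, hA, hC, fun n ε hn hε hε1 hAn => ?_⟩
    obtain ⟨L, hL, hLD, hl⟩ := h1 n 0 0 ε (by omega) (by omega) hε hε1 hAn Set.univ
    refine ⟨L, hL, fun st fl hfl F M B hB hM0 hFB hRp => ?_⟩
    have h2 := hl st fl hfl (fun w => N929.EZ.cl w * F w)
      (fun w => if sq w = 1 then (if 3 ≤ w.length then M w else |F w|) else 0) B hB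
      (fun w => by
        split_ifs
        · exact hM0 w
        · exact abs_nonneg _
        · exact le_rfl)
      (fun i hi w hw => by
        by_cases hs : sq w = 1
        · have hcw : N929.EZ.cl w = 1 := by unfold N929.EZ.cl; rw [if_pos hs]
          rw [hcw, one_mul]
          refine hFB i hi w ?_
          unfold KP
          rw [mem_filter]
          exact ⟨hw, hs⟩
        · have hcw : N929.EZ.cl w = 0 := by unfold N929.EZ.cl; rw [if_neg hs]
          rw [hcw, zero_mul, abs_zero]
          exact hB)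
      (fun w _ t _ => Set.mem_univ _)
      (fun w hw => by
        beta_reduce
        have hcl : ∀ U ⊆ Sl L 0 0 w, N929.EZ.cl (fl w U) = N929.EZ.cl w := fun U hU =>
          fl_inv hfl hLD (cl_iv Set.univ) hw hU
        by_cases hs : sq w = 1
        · have hcw : N929.EZ.cl w = 1 := by unfold N929.EZ.cl; rw [if_pos hs]
          rw [if_pos hs]
          by_cases h3 : 3 ≤ w.length
          · rw [if_pos h3]
            refine (hRp w hw hs h3).congr (fun U hU => ?_)
            rw [hcl U hU, hcw, one_mul]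
          · rw [if_neg h3]
            have hS := no_slots (L := L) h3
            refine (Rp.const (F w)).congr (fun U hU => ?_)
            rw [hS, subset_empty] at hU
            subst hU
            rw [hfl.fl_empty w hw, hcw, one_mul]
        · have hcw : N929.EZ.cl w = 0 := by unfold N929.EZ.cl; rw [if_neg hs]
          rw [if_neg hs]
          refine Rp.zero.congr (fun U hU => ?_)
          rw [hcl U hU, hcw, zero_mul])
    simp only [sum_cl] at h2
    refine h2.trans (le_of_eq ?_)
    congr 3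
    unfold KP
    rw [sum_filter]
    refine sum_congr rfl (fun w hw => ?_)
    have hl : w.length = n := (mem_SW.1 hw).1
    have hw' : w ∈ SW w.length := by rw [hl]; exact hw
    have e1 := hfl.st_em w (by omega) hw'
    have e2 := hfl.fl_st w (by omega) hw'
    have e3 : Oc L 0 0 w ⊆ Sl L 0 0 (st w) := by
      rw [hfl.st_sl w (by omega) hw']
      unfold Sl Oc
      exact OO_sub'
    have e4 : N929.EZ.cl w = N929.EZ.cl (st w) := by
      have := fl_inv hfl hLD (cl_iv Set.univ) e1 e3
      rwa [e2] at this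
    have e5 : sq (st w) = 1 ↔ sq w = 1 := by
      unfold N929.EZ.cl at e4
      by_cases a1 : sq w = 1 <;> by_cases a2 : sq (st w) = 1 <;> simp [a1, a2] at e4 ⊢
    by_cases a1 : sq w = 1
    · have a2 := e5.2 a1
      rw [if_pos a2, if_pos a1]
      by_cases a3 : 3 ≤ (st w).length
      · rw [if_pos a3]
      · exfalso
        have b1 := no_slots (L := L) a3
        rw [b1, subset_empty] at e3
        have b2 := hfl.st_len w (by omega) hw'
        rw [e3, card_empty] at b2
        omega
    · have a2 : ¬ sq (st w) = 1 := fun h => a1 (e5.1 h)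
      rw [if_neg a2, if_neg a1]

end

end Pool.Agent.K6.H96.SP
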