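import Pool.Agent.K6.H96.SP.SmT
import Pool.Agent.N949.AO.Pas

/-!
# The law of the area is regular in the perimeter and in the area
-/

set_option autoImplicit false
set_option linter.unusedVariables false
set_option linter.unusedSectionVars false

namespace Pool.Agent.K6.H96.SP

open Pool.Agent.H976R2 Pool.Agent.H976R2.Dir Finset
open Pool.Agent.N929.EX Pool.Agent.N929.EY Pool.Agent.N929.EZ
open Pool.Agent.H739K (KP ar lp)
open scoped Classical

noncomputable section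

variable {M : ℕ} [NeZero M] (N : ℕ)

/-- difference operator -/
def DO (M : ℕ) [NeZero M] : (ZMod M → ℂ) →ₗ[ℂ] (ZMod M → ℂ) := 1 - TA 1

theorem DO_apply (g : ZMod M → ℂ) (a : ZMod M) : DO M g a = g a - g (a + 1) := rfl

theorem DO_TO : Commute (DO M) (TO M N) := by
  unfold DO
  exact (Commute.one_left _).sub_left (TO_TA N 1).symm

theorem DO_norm (g : ZMod M → ℂ) : ‖DO M g‖ ≤ 2 * ‖g‖ := by
  rw [pi_norm_le_iff_of_nonneg (by positivity)]
  intro a
  rw [DO_apply]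
  refine (norm_sub_le _ _).trans ?_
  have h1 := norm_le_pi_norm g a
  have h2 := norm_le_pi_norm g (a + 1)
  linarith

theorem DOpow_norm (k : ℕ) : ∀ g : ZMod M → ℂ, ‖((DO M) ^ k) g‖ ≤ 2 ^ k * ‖g‖ := by
  induction k with
  | zero => intro g; simp
  | succ k ih =>
    intro g
    rw [pow_succ, Module.End.mul_apply]
    refine (ih _).trans ?_
    rw [pow_succ, mul_assoc]
    exact mul_le_mul_of_nonneg_left (DO_norm g) (by positivity)

theorem re_DO (k : ℕ) : ∀ (g : ZMod M → ℂ) (a : ZMod M), (((DO M) ^ k) g a).re =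
    ∑ j ∈ range (k + 1), (-1 : ℝ) ^ j * (k.choose j : ℝ) * (g (a + (j : ZMod M))).re := by
  induction k with
  | zero => intro g a; simp
  | succ k ih =>
    intro g a
    rw [pow_succ, Module.End.mul_apply, ih]
    have h := Pool.Agent.N949.AO.pascal k (fun j => (g (a + (j : ZMod M))).re)
    rw [h]
    refine sum_congr rfl (fun j _ => ?_)
    rw [DO_apply, Complex.sub_re]
    congr 4
    push_cast
    ring_nf

theorem DT_norm (hN : 0 < N) (k : ℕ) : ∀ g : ZMod M → ℂ,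
    ‖((DO M * TO M N) ^ k) g‖ ≤ (33 * N / M) ^ k * ‖g‖ := by
  have hM : (0 : ℝ) < M := M_pos
  induction k with
  | zero => intro g; simp
  | succ k ih =>
    intro g
    rw [pow_succ, Module.End.mul_apply]
    refine (ih _).trans ?_
    rw [pow_succ, mul_assoc]
    refine mul_le_mul_of_nonneg_left ?_ (by positivity)
    have h := TO_dnorm' N hN g (c := 1) (Or.inl rfl)
    rw [Module.End.mul_apply]
    have e : DO M (TO M N g) = -(TA 1 (TO M N g) - TO M N g) := by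
      unfold DO
      rw [LinearMap.sub_apply, Module.End.one_apply]
      abel
    rw [e, norm_neg]
    exact h

/-- reorganisation of the powers -/
theorem powers (r k : ℕ) (g : ZMod M → ℂ) : ((TO M N) ^ r) (((DO M * TO M N) ^ k) (TO M N g)) =
    ((DO M) ^ k) (((TO M N) ^ (r + k + 1)) g) := by
  have h1 : (TO M N) ^ r * ((DO M * TO M N) ^ k * TO M N) =
      (DO M) ^ k * (TO M N) ^ (r + k + 1) := by
    rw [(DO_TO N).mul_pow, ← mul_assoc, ← mul_assoc,
      ((DO_TO N).symm.pow_pow r k).eq, mul_assoc, mul_assoc, ← mul_assoc ((TO M N) ^ r),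
      ← pow_add, ← pow_succ]
  have h2 := congrArg (fun f => f g) h1
  simpa [Module.End.mul_apply] using h2

/-- the total error -/
theorem err_pow : ∃ C : ℝ, 1 ≤ C ∧ ∀ n : ℕ, 3 ≤ n → n % 2 = 1 → ∀ (M N : ℕ) [NeZero M],
    0 < N → 2 * N ≤ M → ∀ (k q : ℕ) (g : ZMod M → ℂ),
    |∑ w ∈ KP n, ((((DO M) ^ k) g ((ar w : ℕ) : ZMod M)).re -
      (((DO M) ^ k) (((TO M N) ^ q) g) ((ar w : ℕ) : ZMod M)).re)| ≤
      q * (2 ^ (k + q) * (C * M * ‖g‖ * Real.exp (-(((N : ℝ) / M) ^ 2 * n / C)) *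
        ((KP n).card : ℝ))) := by
  obtain ⟨C, hC, h⟩ := err
  refine ⟨C, hC, fun n hn ho M N _ hN hNM k q g => ?_⟩
  have hM : (0 : ℝ) < M := M_pos
  obtain ⟨X, hX⟩ : ∃ X, X = C * M * ‖g‖ * Real.exp (-(((N : ℝ) / M) ^ 2 * n / C)) *
        ((KP n).card : ℝ) := ⟨_, rfl⟩
  have hX0 : 0 ≤ X := by rw [hX]; positivity
  rw [← hX]
  induction q with
  | zero => simp
  | succ q ih =>
    have h1 := h n hn ho M N hN hNM (((DO M) ^ k) (((TO M N) ^ q) g))
    have h2 : TO M N (((DO M) ^ k) (((TO M N) ^ q) g)) =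
        ((DO M) ^ k) (((TO M N) ^ (q + 1)) g) := by
      have e1 : TO M N * ((DO M) ^ k * (TO M N) ^ q) = (DO M) ^ k * (TO M N) ^ (q + 1) := by
        rw [← mul_assoc, ((DO_TO N).symm.pow_right k).eq, mul_assoc, pow_succ']
      have e2 := congrArg (fun f => f g) e1
      simpa [Module.End.mul_apply] using e2
    rw [h2] at h1
    have h3 : ‖((DO M) ^ k) (((TO M N) ^ q) g)‖ ≤ 2 ^ (k + q) * ‖g‖ := by
      refine (DOpow_norm k _).trans ?_
      rw [pow_add, mul_assoc]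
      exact mul_le_mul_of_nonneg_left (TOpow_norm N hN q g) (by positivity)
    have h4 : C * M * ‖((DO M) ^ k) (((TO M N) ^ q) g)‖ *
        Real.exp (-(((N : ℝ) / M) ^ 2 * n / C)) * ((KP n).card : ℝ) ≤ 2 ^ (k + q) * X := by
      rw [hX]
      calc C * M * ‖((DO M) ^ k) (((TO M N) ^ q) g)‖ *
          Real.exp (-(((N : ℝ) / M) ^ 2 * n / C)) * ((KP n).card : ℝ)
          ≤ C * M * (2 ^ (k + q) * ‖g‖) *
            Real.exp (-(((N : ℝ) / M) ^ 2 * n / C)) * ((KP n).card : ℝ) := by gcongr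
        _ = _ := by ring
    have h5 : ∑ w ∈ KP n, ((((DO M) ^ k) g ((ar w : ℕ) : ZMod M)).re -
        (((DO M) ^ k) (((TO M N) ^ (q + 1)) g) ((ar w : ℕ) : ZMod M)).re) =
        ∑ w ∈ KP n, ((((DO M) ^ k) g ((ar w : ℕ) : ZMod M)).re -
        (((DO M) ^ k) (((TO M N) ^ q) g) ((ar w : ℕ) : ZMod M)).re) +
        ∑ w ∈ KP n, ((((DO M) ^ k) (((TO M N) ^ q) g) ((ar w : ℕ) : ZMod M)).re -
        (((DO M) ^ k) (((TO M N) ^ (q + 1)) g) ((ar w : ℕ) : ZMod M)).re) := by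
      rw [← sum_add_distrib]
      exact sum_congr rfl (fun w _ => by ring)
    rw [h5]
    refine (abs_add_le _ _).trans ((add_le_add ih (h1.trans h4)).trans ?_)
    have h6 : (2 : ℝ) ^ (k + q) ≤ 2 ^ (k + (q + 1)) :=
      pow_le_pow_right₀ (by norm_num) (by omega)
    have h7 := mul_le_mul_of_nonneg_right h6 hX0
    have h8 := mul_le_mul_of_nonneg_left h7 (Nat.cast_nonneg (α := ℝ) q)
    push_cast
    linarith

/-- a function on `ℕ` as a function on the cyclic group -/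
def ht (M : ℕ) (h : ℕ → ℝ) (a : ZMod M) : ℂ := (h a.val : ℂ)

theorem ht_norm {h : ℕ → ℝ} (hh : ∀ a, |h a| ≤ 1) : ‖ht M h‖ ≤ 1 := by
  rw [pi_norm_le_iff_of_nonneg zero_le_one]
  intro a
  unfold ht
  rw [Complex.norm_real]
  exact hh _

theorem ht_DO (h : ℕ → ℝ) (k a : ℕ) (ha : a + k < M) : (((DO M) ^ k) (ht M h) (a : ZMod M)).re =
    ∑ j ∈ range (k + 1), (-1 : ℝ) ^ j * (k.choose j : ℝ) * h (a + j) := by
  rw [re_DO]
  refine sum_congr rfl (fun j hj => ?_)
  rw [mem_range] at hj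
  congr 1
  unfold ht
  rw [Complex.ofReal_re, ← Nat.cast_add, ZMod.val_natCast_of_lt (by omega)]

/-- the normalised alternating sum -/
def SS (r k n : ℕ) (h : ℕ → ℝ) : ℝ := ∑ i ∈ range (r + 1), (-1 : ℝ) ^ i * (r.choose i : ℝ) *
  ((∑ w ∈ KP (n + 2 * i), ∑ j ∈ range (k + 1), (-1 : ℝ) ^ j * (k.choose j : ℝ) * h (ar w + j)) /
    ((KP (n + 2 * i)).card : ℝ))

theorem core (r k : ℕ) : ∃ δ₁ Λ K : ℝ, 0 < δ₁ ∧ δ₁ ≤ 1 ∧ 1 ≤ Λ ∧ 0 < K ∧
    ∀ (n : ℕ) (ε : ℝ), 3 ≤ n → n % 2 = 1 → 0 < ε → ε ≤ δ₁ → Λ * Real.log n ^ 2 ≤ ε ^ 2 * n →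
    ∀ h : ℕ → ℝ, (∀ a, |h a| ≤ 1) → ∃ (M N : ℕ) (_ : NeZero M), 0 < N ∧ 33 * (N : ℝ) / M ≤ ε ∧
      |SS r k n h| ≤ K * ε ^ (r + k) * ‖TO M N (ht M h)‖ + K * ε ^ (r + k + 1) := by
  obtain ⟨δ₁, Λ, K, hδ₁, hδ₁1, hΛ, hK, hsm⟩ := sm_part r
  obtain ⟨C, hC, herr⟩ := err_pow
  obtain ⟨q, hq⟩ : ∃ q, q = r + k + 1 := ⟨_, rfl⟩
  refine ⟨δ₁, Λ + 4356 * C * (q + 2), K + 2 ^ r * (q * (2 ^ (k + q) * (C * (100 *
    (2 * r + k + 3) ^ 2)))), hδ₁, hδ₁1, by
      have : 0 ≤ 4356 * C * (q + 2 : ℝ) := by positivity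
      linarith, by positivity, ?_⟩
  intro n ε hn ho hε hεδ hΛn h hh
  have hε1 : ε ≤ 1 := hεδ.trans hδ₁1
  have hn' : (3 : ℝ) ≤ n := by exact_mod_cast hn
  have hlog := log_ge_one hn
  have hlog2 : 1 ≤ Real.log n ^ 2 := one_le_pow₀ hlog
  have hlog3 : Real.log n ≤ Real.log n ^ 2 := by nlinarith
  have b1 : Λ * Real.log n ^ 2 ≤ ε ^ 2 * n := by
    refine le_trans (mul_le_mul_of_nonneg_right ?_ (by positivity)) hΛn
    have : 0 ≤ 4356 * C * (q + 2 : ℝ) := by positivity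
    linarith
  have b2 : 4356 * C * (q + 2) * Real.log n ^ 2 ≤ ε ^ 2 * n := by
    refine le_trans (mul_le_mul_of_nonneg_right ?_ (by positivity)) hΛn
    linarith
  have b5 : 1 ≤ ε ^ 2 * n := by
    refine le_trans ?_ b1
    nlinarith
  have b7 : 1 ≤ ε * n := by
    have : ε ^ 2 ≤ ε := by nlinarith
    nlinarith
  have b6 : Real.exp (-Real.log n) ≤ ε := by
    rw [Real.exp_neg, Real.exp_log (by linarith)]
    rw [inv_eq_one_div, div_le_iff₀ (by linarith)]
    exact b7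
  obtain ⟨M, hM⟩ : ∃ M : ℕ, M = 100 * (n + 2 * r + k + 2) ^ 2 := ⟨_, rfl⟩
  have hM0 : 0 < M := by rw [hM]; positivity
  have : NeZero M := ⟨hM0.ne'⟩
  have hMr : (0 : ℝ) < M := by exact_mod_cast hM0
  have hMc : (M : ℝ) = 100 * ((n : ℝ) + 2 * r + k + 2) ^ 2 := by
    rw [hM]
    push_cast
    ring
  have hr0 : (0 : ℝ) ≤ r := Nat.cast_nonneg r
  have hk0 : (0 : ℝ) ≤ k := Nat.cast_nonneg k
  have hMn : 66 * (n : ℝ) ≤ M := by
    rw [hMc]
    nlinarith
  obtain ⟨N, hN⟩ : ∃ N : ℕ, N = ⌊ε * M / 33⌋₊ := ⟨_, rfl⟩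
  have hN1 : (N : ℝ) ≤ ε * M / 33 := by
    rw [hN]
    exact Nat.floor_le (by positivity)
  have hN2 : ε * M / 66 ≤ N := by
    have h1 : ε * M / 33 < (N : ℝ) + 1 := by
      rw [hN]
      exact Nat.lt_floor_add_one _
    have h2 : 66 ≤ ε * M := by
      calc (66 : ℝ) = 66 * 1 := by norm_num
        _ ≤ 66 * (ε * n) := by linarith
        _ = ε * (66 * n) := by ring
        _ ≤ ε * M := mul_le_mul_of_nonneg_left hMn hε.le
    linarith
  have hNr : (0 : ℝ) < N := lt_of_lt_of_le (by positivity) hN2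
  have hN0 : 0 < N := by exact_mod_cast hNr
  have hNM : 2 * N ≤ M := by
    have h1 : 2 * (N : ℝ) ≤ M := by
      have : ε * M ≤ M := mul_le_of_le_one_left hMr.le hε1
      linarith
    exact_mod_cast h1
  have hρ : 33 * (N : ℝ) / M ≤ ε := by
    rw [div_le_iff₀ hMr]
    linarith
  refine ⟨M, N, inferInstance, hN0, hρ, ?_⟩
  have h1 := hsm n ε hn ho hε hεδ b1 M N hN0 hρ (((DO M * TO M N) ^ k) (TO M N (ht M h)))
  have h2 := DT_norm N hN0 k (TO M N (ht M h))
  have hht := ht_norm (M := M) hh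
  -- the error
  have h3 : ∀ i ∈ range (r + 1), |(∑ w ∈ KP (n + 2 * i), ∑ j ∈ range (k + 1),
      (-1 : ℝ) ^ j * (k.choose j : ℝ) * h (ar w + j)) / ((KP (n + 2 * i)).card : ℝ) -
      (∑ w ∈ KP (n + 2 * i), FT N r (((DO M * TO M N) ^ k) (TO M N (ht M h))) w) /
        ((KP (n + 2 * i)).card : ℝ)| ≤
      q * (2 ^ (k + q) * (C * (100 * (2 * r + k + 3) ^ 2))) * ε ^ q := by
    intro i hi
    rw [mem_range] at hi
    obtain ⟨m, hm⟩ : ∃ m, m = n + 2 * i := ⟨_, rfl⟩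
    rw [← hm]
    have hKPm : (0 : ℝ) < ((KP m).card : ℝ) := KP_pos (by omega) (by omega)
    have h4 := herr m (by omega) (by omega) M N hN0 hNM k q (ht M h)
    have h5 : ∀ w ∈ KP m, (((DO M) ^ k) (ht M h) ((ar w : ℕ) : ZMod M)).re =
        ∑ j ∈ range (k + 1), (-1 : ℝ) ^ j * (k.choose j : ℝ) * h (ar w + j) := by
      intro w hw
      refine ht_DO h k (ar w) ?_
      have h6 := ar_up (by omega) hw
      have h7 : ar w ≤ 4 * (m + 1) ^ 2 := by exact_mod_cast h6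
      have h8 : m + 1 ≤ n + 2 * r + k + 2 := by omega
      have h9 : (m + 1) ^ 2 ≤ (n + 2 * r + k + 2) ^ 2 := Nat.pow_le_pow_left h8 2
      have h10 : k < (n + 2 * r + k + 2) ^ 2 := by nlinarith
      omega
    have h6 : ∀ w, FT N r (((DO M * TO M N) ^ k) (TO M N (ht M h))) w =
        (((DO M) ^ k) (((TO M N) ^ q) (ht M h)) ((ar w : ℕ) : ZMod M)).re := by
      intro w
      unfold FT
      rw [powers, hq]
    rw [← sub_div, ← sum_sub_distrib, abs_div, abs_of_pos hKPm, div_le_iff₀ hKPm]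
    rw [sum_congr rfl (fun w hw => by rw [h6 w, ← h5 w hw])]
    refine h4.trans ?_
    have h7 : Real.exp (-(((N : ℝ) / M) ^ 2 * m / C)) ≤
        Real.exp (-((q + 2) * Real.log n ^ 2)) := by
      apply Real.exp_le_exp.mpr
      apply neg_le_neg
      rw [le_div_iff₀ (by linarith)]
      have e1 : ε / 66 ≤ (N : ℝ) / M := by
        rw [le_div_iff₀ hMr]
        linarith
      have e2 : (ε / 66) ^ 2 ≤ ((N : ℝ) / M) ^ 2 := pow_le_pow_left₀ (by positivity) e1 2
      have e3 : (n : ℝ) ≤ m := by exact_mod_cast (by omega : n ≤ m)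
      calc (q + 2) * Real.log n ^ 2 * C = (4356 * C * (q + 2) * Real.log n ^ 2) / 4356 := by ring
        _ ≤ (ε ^ 2 * n) / 4356 := by linarith
        _ = (ε / 66) ^ 2 * n := by ring
        _ ≤ ((N : ℝ) / M) ^ 2 * m := mul_le_mul e2 e3 (by positivity) (by positivity)
    have h8 : (M : ℝ) ≤ 100 * (2 * r + k + 3) ^ 2 * n ^ 2 := by
      rw [hMc]
      have : (n : ℝ) + 2 * r + k + 2 ≤ (2 * r + k + 3) * n := by nlinarith
      calc 100 * ((n : ℝ) + 2 * r + k + 2) ^ 2 ≤ 100 * ((2 * r + k + 3) * n) ^ 2 := by gcongr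
        _ = _ := by ring
    have h9 : (n : ℝ) ^ 2 * Real.exp (-((q + 2) * Real.log n ^ 2)) ≤ ε ^ q := by
      calc (n : ℝ) ^ 2 * Real.exp (-((q + 2) * Real.log n ^ 2))
          = Real.exp (2 * Real.log n + -((q + 2) * Real.log n ^ 2)) := by
            rw [Real.exp_add, two_mul, Real.exp_add, Real.exp_log (by linarith)]
            ring
        _ ≤ Real.exp (q * (-Real.log n)) := by
            apply Real.exp_le_exp.mpr
            have : (0 : ℝ) ≤ q := Nat.cast_nonneg q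
            nlinarith
        _ ≤ ε ^ q := by
            rw [Real.exp_nat_mul]
            exact pow_le_pow_left₀ (Real.exp_pos _).le b6 q
    calc (q : ℝ) * (2 ^ (k + q) * (C * M * ‖ht M h‖ *
          Real.exp (-(((N : ℝ) / M) ^ 2 * m / C)) * ((KP m).card : ℝ)))
        ≤ q * (2 ^ (k + q) * (C * (100 * (2 * r + k + 3) ^ 2 * n ^ 2) * 1 *
          Real.exp (-((q + 2) * Real.log n ^ 2)) * ((KP m).card : ℝ))) := by gcongr
      _ = q * (2 ^ (k + q) * (C * (100 * (2 * r + k + 3) ^ 2))) *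
          (n ^ 2 * Real.exp (-((q + 2) * Real.log n ^ 2))) * ((KP m).card : ℝ) := by ring
      _ ≤ _ := by
          refine mul_le_mul_of_nonneg_right (mul_le_mul_of_nonneg_left h9 (by positivity)) hKPm.le
  obtain ⟨Z, hZ⟩ : ∃ Z : ℝ, Z = q * (2 ^ (k + q) * (C * (100 * (2 * r + k + 3) ^ 2))) := ⟨_, rfl⟩
  rw [← hZ] at h3 ⊢
  have hZ0 : 0 ≤ Z := by rw [hZ]; positivity
  have h4 : SS r k n h = ∑ i ∈ range (r + 1), (-1 : ℝ) ^ i * (r.choose i : ℝ) *
      ((∑ w ∈ KP (n + 2 * i), FT N r (((DO M * TO M N) ^ k) (TO M N (ht M h))) w) /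
        ((KP (n + 2 * i)).card : ℝ)) +
      ∑ i ∈ range (r + 1), (-1 : ℝ) ^ i * (r.choose i : ℝ) *
      ((∑ w ∈ KP (n + 2 * i), ∑ j ∈ range (k + 1),
      (-1 : ℝ) ^ j * (k.choose j : ℝ) * h (ar w + j)) / ((KP (n + 2 * i)).card : ℝ) -
      (∑ w ∈ KP (n + 2 * i), FT N r (((DO M * TO M N) ^ k) (TO M N (ht M h))) w) /
        ((KP (n + 2 * i)).card : ℝ)) := by
    unfold SS
    rw [← sum_add_distrib]
    exact sum_congr rfl (fun i _ => by ring)
  have h5 := alt_bound r _ (fun i hi => h3 i (mem_range.2 (by omega)))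
  rw [h4]
  refine (abs_add_le _ _).trans ((add_le_add h1 h5).trans ?_)
  have hT := norm_nonneg (TO M N (ht M h))
  have e1 : K * ε ^ r * ‖((DO M * TO M N) ^ k) (TO M N (ht M h))‖ ≤
      K * ε ^ (r + k) * ‖TO M N (ht M h)‖ := by
    calc K * ε ^ r * ‖((DO M * TO M N) ^ k) (TO M N (ht M h))‖
        ≤ K * ε ^ r * (ε ^ k * ‖TO M N (ht M h)‖) := by
          refine mul_le_mul_of_nonneg_left (h2.trans ?_) (by positivity)
          exact mul_le_mul_of_nonneg_right (pow_le_pow_left₀ (by positivity) hρ k) hT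
      _ = _ := by rw [pow_add]; ring
  have e2 : 0 ≤ 2 ^ r * Z * ε ^ (r + k) * ‖TO M N (ht M h)‖ := by positivity
  have e3 : 0 ≤ K * ε ^ (r + k + 1) := by positivity
  rw [← hq] at e3 ⊢
  calc K * ε ^ r * ‖((DO M * TO M N) ^ k) (TO M N (ht M h))‖ + 2 ^ r * (Z * ε ^ q)
      ≤ (K * ε ^ (r + k) * ‖TO M N (ht M h)‖ + 2 ^ r * (Z * ε ^ q)) +
        (2 ^ r * Z * ε ^ (r + k) * ‖TO M N (ht M h)‖ + K * ε ^ q) := by linarith
    _ = _ := by ring

theorem SS_triv (r k n : ℕ) (hn : 3 ≤ n) (ho : n % 2 = 1) (h : ℕ → ℝ) (hh : ∀ a, |h a| ≤ 1) :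
    |SS r k n h| ≤ 2 ^ r * 2 ^ k := by
  unfold SS
  refine alt_bound r _ (fun i hi => ?_)
  have hKPm : (0 : ℝ) < ((KP (n + 2 * i)).card : ℝ) := KP_pos (by omega) (by omega)
  rw [abs_div, abs_of_pos hKPm, div_le_iff₀ hKPm]
  refine (abs_sum_le_sum_abs _ _).trans ?_
  calc ∑ w ∈ KP (n + 2 * i), |∑ j ∈ range (k + 1), (-1 : ℝ) ^ j * (k.choose j : ℝ) * h (ar w + j)|
      ≤ ∑ w ∈ KP (n + 2 * i), (2 : ℝ) ^ k := by
        refine sum_le_sum (fun w _ => ?_)
        have := alt_bound k (fun j => h (ar w + j)) (Z := 1) (fun j _ => hh _)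
        rwa [mul_one] at this
    _ = _ := by
        rw [sum_const, nsmul_eq_mul]
        ring

/-- **main theorem** in terms of words -/
theorem words (r k : ℕ) : ∃ K : ℝ, 0 < K ∧ ∀ n : ℕ, 3 ≤ n → n % 2 = 1 →
    (∀ h : ℕ → ℝ, (∀ a, |h a| ≤ 1) → |SS r k n h| ≤ K * (Real.log n / Real.sqrt n) ^ (r + k)) ∧
    ∀ c : ℕ, |SS r k n (fun a => if a = c then 1 else 0)| ≤
      K * (Real.log n / Real.sqrt n) ^ (r + k + 1) := by
  obtain ⟨δ₁, Λ, K, hδ₁, hδ₁1, hΛ, hK, hcore⟩ := core r k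
  obtain ⟨s, hs⟩ : ∃ s, s = Real.sqrt Λ := ⟨_, rfl⟩
  have hs1 : 1 ≤ s := by
    rw [hs]
    exact Real.one_le_sqrt.mpr hΛ
  have hs2 : s ^ 2 = Λ := by
    rw [hs, Real.sq_sqrt (by linarith)]
  have hs0 : 0 < s := by linarith
  refine ⟨3 * K * s ^ (r + k + 1) + 2 ^ r * 2 ^ k * (s / δ₁) ^ (r + k + 1), by positivity,
    fun n hn ho => ?_⟩
  have hn' : (3 : ℝ) ≤ n := by exact_mod_cast hn
  have hlog := log_ge_one hn
  obtain ⟨y, hy⟩ : ∃ y, y = Real.log n / Real.sqrt n := ⟨_, rfl⟩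
  have hsn : 0 < Real.sqrt (n : ℝ) := Real.sqrt_pos.mpr (by linarith)
  have hy0 : 0 < y := by rw [hy]; positivity
  have hy2 : y ^ 2 * n = Real.log n ^ 2 := by
    rw [hy, div_pow, Real.sq_sqrt (by linarith)]
    field_simp
  rw [← hy]
  have hsd : 1 ≤ s / δ₁ := by
    rw [le_div_iff₀ hδ₁]
    linarith
  have hsp : s ^ (r + k) ≤ s ^ (r + k + 1) := pow_le_pow_right₀ hs1 (by omega)
  by_cases hcase : s * y ≤ δ₁
  · have hε : 0 < s * y := by positivity
    have hε1 : s * y ≤ 1 := hcase.trans hδ₁1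
    have hc := hcore n (s * y) hn ho hε hcase (by
      rw [mul_pow, hs2, mul_assoc, hy2])
    have hbig : 0 ≤ 2 ^ r * 2 ^ k * (s / δ₁) ^ (r + k + 1) := by positivity
    refine ⟨fun h hh => ?_, fun c => ?_⟩
    · obtain ⟨M, N, _, hN, hρ, h1⟩ := hc h hh
      have h2 : ‖TO M N (ht M h)‖ ≤ 2 := by
        refine (TO_norm N hN _).trans ?_
        have := ht_norm (M := M) hh
        linarith
      have h3 : (s * y) ^ (r + k + 1) ≤ (s * y) ^ (r + k) :=
        pow_le_pow_of_le_one hε.le hε1 (by omega)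
      calc |SS r k n h| ≤ K * (s * y) ^ (r + k) * ‖TO M N (ht M h)‖ +
            K * (s * y) ^ (r + k + 1) := h1
        _ ≤ K * (s * y) ^ (r + k) * 2 + K * (s * y) ^ (r + k) := by gcongr
        _ = 3 * K * s ^ (r + k) * y ^ (r + k) := by rw [mul_pow]; ring
        _ ≤ (3 * K * s ^ (r + k + 1) + 2 ^ r * 2 ^ k * (s / δ₁) ^ (r + k + 1)) *
            y ^ (r + k) := by
            refine mul_le_mul_of_nonneg_right ?_ (by positivity)
            have := mul_le_mul_of_nonneg_left hsp (by positivity : 0 ≤ 3 * K)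
            linarith
    · obtain ⟨M, N, _, hN, hρ, h1⟩ := hc (fun a => if a = c then 1 else 0) (fun a => by
        split_ifs <;> simp)
      have hMr : (0 : ℝ) < M := M_pos
      have h2 : ‖TO M N (ht M (fun a => if a = c then 1 else 0))‖ ≤ s * y := by
        have h3 : ht M (fun a => if a = c then 1 else 0) =
            fun a => if a = ((c : ℕ) : ZMod M) then (if c < M then 1 else 0) else 0 := by
          funext a
          unfold ht
          beta_reduce
          by_cases hcM : c < M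
          · rw [if_pos hcM]
            by_cases ha : a = ((c : ℕ) : ZMod M)
            · rw [if_pos ha, ha, ZMod.val_natCast_of_lt hcM]
              simp
            · have hv : a.val ≠ c := fun h => ha (by rw [← h, ZMod.natCast_zmod_val])
              rw [if_neg ha, if_neg hv]
              simp
          · have hv : a.val ≠ c := fun h => hcM (by have := ZMod.val_lt a; omega)
            rw [if_neg hv, if_neg hcM]
            simp
        rw [h3]
        refine (TO_single N hN _ _).trans ?_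
        have h4 : ‖(if c < M then (1 : ℂ) else 0)‖ ≤ 1 := by split_ifs <;> simp
        have h5 : 3 * (N : ℝ) / M ≤ 33 * N / M := by
          rw [div_le_div_iff_of_pos_right hMr]
          have : (0 : ℝ) ≤ N := Nat.cast_nonneg N
          linarith
        calc 3 * (N : ℝ) / M * ‖(if c < M then (1 : ℂ) else 0)‖ ≤ 3 * N / M * 1 :=
              mul_le_mul_of_nonneg_left h4 (by positivity)
          _ ≤ s * y := by linarith
      calc |SS r k n (fun a => if a = c then 1 else 0)|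
          ≤ K * (s * y) ^ (r + k) * ‖TO M N (ht M (fun a => if a = c then 1 else 0))‖ +
            K * (s * y) ^ (r + k + 1) := h1
        _ ≤ K * (s * y) ^ (r + k) * (s * y) + K * (s * y) ^ (r + k + 1) := by gcongr
        _ = 2 * K * s ^ (r + k + 1) * y ^ (r + k + 1) := by
            rw [mul_assoc (2 * K), ← mul_pow, pow_succ]
            ring
        _ ≤ (3 * K * s ^ (r + k + 1) + 2 ^ r * 2 ^ k * (s / δ₁) ^ (r + k + 1)) *
            y ^ (r + k + 1) := by
            refine mul_le_mul_of_nonneg_right ?_ (by positivity)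
            have : 0 ≤ K * s ^ (r + k + 1) := by positivity
            linarith
  · push Not at hcase
    have h1 : 1 ≤ s / δ₁ * y := by
      rw [div_mul_eq_mul_div, le_div_iff₀ hδ₁]
      linarith
    have hpos : 0 ≤ 3 * K * s ^ (r + k + 1) := by positivity
    refine ⟨fun h hh => ?_, fun c => ?_⟩
    · refine (SS_triv r k n hn ho h hh).trans ?_
      calc (2 : ℝ) ^ r * 2 ^ k ≤ 2 ^ r * 2 ^ k * (s / δ₁ * y) ^ (r + k) :=
            le_mul_of_one_le_right (by positivity) (one_le_pow₀ h1)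
        _ = 2 ^ r * 2 ^ k * (s / δ₁) ^ (r + k) * y ^ (r + k) := by rw [mul_pow]; ring
        _ ≤ 2 ^ r * 2 ^ k * (s / δ₁) ^ (r + k + 1) * y ^ (r + k) := by
            have : (s / δ₁) ^ (r + k) ≤ (s / δ₁) ^ (r + k + 1) :=
              pow_le_pow_right₀ hsd (by omega)
            gcongr
        _ ≤ _ := by
            refine mul_le_mul_of_nonneg_right ?_ (by positivity)
            linarith
    · refine (SS_triv r k n hn ho _ (fun a => by split_ifs <;> simp)).trans ?_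
      calc (2 : ℝ) ^ r * 2 ^ k ≤ 2 ^ r * 2 ^ k * (s / δ₁ * y) ^ (r + k + 1) :=
            le_mul_of_one_le_right (by positivity) (one_le_pow₀ h1)
        _ = 2 ^ r * 2 ^ k * (s / δ₁) ^ (r + k + 1) * y ^ (r + k + 1) := by rw [mul_pow]; ring
        _ ≤ _ := by
            refine mul_le_mul_of_nonneg_right ?_ (by positivity)
            linarith

end

end Pool.Agent.K6.H96.SP
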