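import Pool.Agent.K6.H96.SP.Seq
import Pool.Agent.N929.EZ.Stm2

/-!
# Sequences with small iterated differences, compared with later terms: conclusion
-/

set_option autoImplicit false
set_option linter.unusedVariables false

namespace Pool.Agent.K6.H96.SP

open Finset
open Pool.Agent.N929.EZ (Df)

theorem Df_one (f : ℕ → ℝ) (j : ℕ) : Df 1 f j = f j - f (j + 1) := by
  rw [Df]
  simp [sum_range_succ]
  ring

theorem seq_main (r : ℕ) {C c₁ : ℝ} (hC : 0 < C) (hc : 1 ≤ c₁) : ∃ δ₀ B : ℝ, 0 < δ₀ ∧ 0 < B ∧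
    ∀ (f : ℕ → ℝ) (ε X : ℝ) (N I : ℕ), 0 < ε → ε ≤ δ₀ → (∀ j, 0 ≤ f j) → 0 < f 0 →
      (∀ s, s ≤ r + 1 → ∀ j, j ≤ N →
        |Df s f j| ≤ C * (ε ^ s * (c₁ * f (j + 4) + f 0))) →
      (∀ j, j ≤ N + 1 → f j ≤ X) → X < (δ₀ / ε) ^ I * f 0 → r + 8 + 3 * I ≤ N →
      (∀ j, j ≤ r → f 0 ≤ B * f j) ∧ ∀ s j, s + j ≤ r → |Df s f j| ≤ B * ε ^ s * f 0 := by
  obtain ⟨D, hD⟩ : ∃ D, D = C * c₁ := ⟨_, rfl⟩
  have hDC : C ≤ D := by rw [hD]; nlinarith
  have hD0 : 0 < D := by linarith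
  have hr1 : (1 : ℝ) ≤ (r : ℝ) + 1 := by
    have := Nat.cast_nonneg (α := ℝ) r
    linarith
  have h2r : (1 : ℝ) ≤ 2 ^ r := one_le_pow₀ (by norm_num)
  refine ⟨1 / ((r + 1) * (D * 2 ^ (r + 6))), 2 + C * (c₁ * 2 ^ (r + 4) + 1), by positivity,
    by positivity, ?_⟩
  intro f ε X N I hε hεδ hf hf0 hdiff hX hI hN
  obtain ⟨δ, hδe⟩ : ∃ δ, δ = D * ε := ⟨_, rfl⟩
  have hδ : 0 < δ := by rw [hδe]; positivity
  have hδr : ((r : ℝ) + 1) * (δ * 2 ^ (r + 6)) ≤ 1 := by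
    rw [le_div_iff₀ (by positivity)] at hεδ
    rw [hδe]
    calc ((r : ℝ) + 1) * (D * ε * 2 ^ (r + 6)) = ε * ((r + 1) * (D * 2 ^ (r + 6))) := by ring
      _ ≤ 1 := hεδ
  have hδ64 : δ ≤ 1 / 64 := by
    rw [pow_add] at hδr
    have h1 : δ * 64 ≤ ((r : ℝ) + 1) * (δ * (2 ^ r * 2 ^ 6)) := by
      have h3 : δ * 64 ≤ δ * (2 ^ r * 2 ^ 6) := by
        have : (64 : ℝ) ≤ 2 ^ r * 2 ^ 6 := by nlinarith
        gcongr
      have h4 : 0 ≤ δ * (2 ^ r * 2 ^ 6) := by positivity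
      nlinarith
    linarith
  have hstep : ∀ j, j ≤ N → |f (j + 1) - f j| ≤ δ * (f (j + 4) + f 0) := by
    intro j hj
    have h1 := hdiff 1 (by omega) j hj
    rw [Df_one, pow_one, abs_sub_comm] at h1
    refine h1.trans ?_
    rw [hδe, hD]
    have h2 := hf (j + 4)
    calc C * (ε * (c₁ * f (j + 4) + f 0)) = C * ε * (c₁ * f (j + 4) + 1 * f 0) := by ring
      _ ≤ C * ε * (c₁ * f (j + 4) + c₁ * f 0) := by gcongr
      _ = _ := by ring
  have hTI : X < (1 / (16 * δ)) ^ I * f 0 := by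
    refine hI.trans_le ?_
    refine mul_le_mul_of_nonneg_right (pow_le_pow_left₀ (by positivity) ?_ I) hf0.le
    rw [div_div, hδe]
    refine one_div_le_one_div_of_le (by positivity) ?_
    have h1 : (16 : ℝ) ≤ ((r : ℝ) + 1) * 2 ^ (r + 6) := by
      rw [pow_add]
      nlinarith [mul_le_mul hr1 h2r (by norm_num) (by linarith)]
    calc 16 * (D * ε) ≤ (((r : ℝ) + 1) * 2 ^ (r + 6)) * (D * ε) := by gcongr
      _ = _ := by ring
  have hng := no_grow hf hf0 hδ hδ64 hstep hX hTI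
  have hup : ∀ j, j ≤ r + 8 → f j ≤ 2 ^ j * f 0 := by
    intro j hj
    rcases j with _ | j
    · simp
    · exact hng j (by omega)
  have hlow : ∀ j, j ≤ r → f 0 - j * (δ * (2 ^ (r + 5) * f 0)) ≤ f j := by
    intro j
    induction j with
    | zero => intro _; simp
    | succ j ih =>
      intro hj
      have h1 := ih (by omega)
      have h2 := hstep j (by omega)
      have h3 := hup (j + 4) (by omega)
      have h4 : f (j + 4) + f 0 ≤ 2 ^ (r + 5) * f 0 := by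
        have h5 : (2 : ℝ) ^ (j + 4) ≤ 2 ^ (r + 4) := pow_le_pow_right₀ (by norm_num) (by omega)
        have h6 : (1 : ℝ) ≤ 2 ^ (r + 4) := one_le_pow₀ (by norm_num)
        have h7 : (2 : ℝ) ^ (r + 5) = 2 ^ (r + 4) + 2 ^ (r + 4) := by ring
        rw [h7]
        nlinarith
      have h5 : δ * (f (j + 4) + f 0) ≤ δ * (2 ^ (r + 5) * f 0) :=
        mul_le_mul_of_nonneg_left h4 hδ.le
      have h6 := (abs_le.1 (h2.trans h5)).1
      push_cast
      linarith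
  constructor
  · intro j hj
    have h1 := hlow j hj
    have h2 : (j : ℝ) * (δ * (2 ^ (r + 5) * f 0)) ≤ 1 / 2 * f 0 := by
      have h3 : (j : ℝ) ≤ (r : ℝ) + 1 := by exact_mod_cast (by omega : j ≤ r + 1)
      have h4 : ((r : ℝ) + 1) * (δ * 2 ^ (r + 5)) ≤ 1 / 2 := by
        have e : (2 : ℝ) ^ (r + 6) = 2 * 2 ^ (r + 5) := by ring
        rw [e] at hδr
        nlinarith
      calc (j : ℝ) * (δ * (2 ^ (r + 5) * f 0)) ≤ ((r : ℝ) + 1) * (δ * (2 ^ (r + 5) * f 0)) := by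
            gcongr
        _ = ((r : ℝ) + 1) * (δ * 2 ^ (r + 5)) * f 0 := by ring
        _ ≤ 1 / 2 * f 0 := by gcongr
    have h3 : f 0 ≤ 2 * f j := by linarith
    have h4 := hf j
    have h5 : 0 ≤ C * (c₁ * 2 ^ (r + 4) + 1) := by positivity
    nlinarith
  · intro s j hsj
    have h1 := hdiff s (by omega) j (by omega)
    have h3 := hup (j + 4) (by omega)
    have h5 : (2 : ℝ) ^ (j + 4) ≤ 2 ^ (r + 4) := pow_le_pow_right₀ (by norm_num) (by omega)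
    have h6 : f (j + 4) ≤ 2 ^ (r + 4) * f 0 := by nlinarith
    have h7 : 0 < ε ^ s := by positivity
    calc |Df s f j| ≤ C * (ε ^ s * (c₁ * f (j + 4) + f 0)) := h1
      _ ≤ C * (ε ^ s * (c₁ * (2 ^ (r + 4) * f 0) + f 0)) := by gcongr
      _ = (C * (c₁ * 2 ^ (r + 4) + 1)) * ε ^ s * f 0 := by ring
      _ ≤ (2 + C * (c₁ * 2 ^ (r + 4) + 1)) * ε ^ s * f 0 := by gcongr; linarith

end Pool.Agent.K6.H96.SP
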