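import Pool.Agent.K6.H96.SP.Paof
import Pool.Agent.K6.H96.SP.Seq2

/-!
# Regularity to all orders, relative to a rare event
-/

set_option autoImplicit false
set_option linter.unusedVariables false

namespace Pool.Agent.K6.H96.SP

open Pool.Agent.H976R2 Pool.Agent.H976R2.Dir Finset
open Pool.Agent.N929.EX Pool.Agent.N929.EY Pool.Agent.N929.EZ
open Pool.Agent.H739K (KP)
open scoped Classical

noncomputable section

/-- a class of functionals of polygons, dominated by `G`, with representations -/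
structure Cls (C₀ : ℝ) (p : ℕ) (𝓕 : (List Dir → ℝ) → Prop) (G : List Dir → ℝ) : Prop where
  self : 𝓕 G
  nonneg : ∀ w, 0 ≤ G w
  poly : ∀ n : ℕ, 3 ≤ n → ∀ w ∈ KP n, G w ≤ C₀ * ((n : ℝ) + 1) ^ p
  dom : ∀ F, 𝓕 F → ∀ w, |F w| ≤ G w
  grow : ∀ n : ℕ, 3 ≤ n → n % 2 = 1 → ∑ w ∈ KP n, G w ≤ C₀ * ∑ w ∈ KP (n + 2), G w
  rep : ∀ L : Finset (ℤ × ℤ), CF L → ∀ st fl, Fill L 0 0 st fl →
    ∃ M : List Dir → ℝ, (∀ w, 0 ≤ M w) ∧
      (∀ F, 𝓕 F → ∀ w, Em L 0 0 w → sq w = 1 → 3 ≤ w.length →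
        Rp (Sl L 0 0 w) (fun U => F (fl w U)) (M w)) ∧
      ∀ n, 3 ≤ n → n % 2 = 1 → ∑ w ∈ KP n, M (st w) ≤ C₀ * ∑ w ∈ KP (n + 8), G w

/-- the normalised sums -/
def nf (F : List Dir → ℝ) (n j : ℕ) : ℝ := (∑ w ∈ KP (n + 2 * j), F w) / H981.mu ^ (2 * j)

theorem log_ge_one {n : ℕ} (hn : 3 ≤ n) : 1 ≤ Real.log n := by
  have hn' : (3 : ℝ) ≤ n := by exact_mod_cast hn
  rw [Real.le_log_iff_exp_le (by linarith)]
  have := Real.exp_one_lt_d9
  linarith

theorem poly_small {C₀ : ℝ} (hC₀ : 1 ≤ C₀) (p q : ℕ) : ∃ K₁ : ℝ, 0 ≤ K₁ ∧ ∀ n m : ℕ, 3 ≤ n →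
    m ≤ 2 * n → 4 * C₀ * ((m : ℝ) + q) ^ p ≤ Real.exp (K₁ * Real.log n ^ 2) := by
  refine ⟨4 * C₀ + p * (3 + q), by positivity, fun n m hn hm => ?_⟩
  have h1 := log_ge_one hn
  have h2 : 1 ≤ Real.log n ^ 2 := one_le_pow₀ h1
  have hn' : (3 : ℝ) ≤ n := by exact_mod_cast hn
  have hm' : (m : ℝ) ≤ 2 * n := by exact_mod_cast hm
  have hq : (0 : ℝ) ≤ q := Nat.cast_nonneg q
  have hp : (0 : ℝ) ≤ p := Nat.cast_nonneg p
  have a1 : 4 * C₀ ≤ Real.exp (4 * C₀ * Real.log n ^ 2) := by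
    have a2 := Real.add_one_le_exp (4 * C₀ * Real.log n ^ 2)
    nlinarith
  have a3 : (m : ℝ) + q ≤ Real.exp ((3 + q) * Real.log n ^ 2) := by
    have a4 : (m : ℝ) + q ≤ (2 + q) * n := by nlinarith
    have a5 : (2 + q : ℝ) ≤ Real.exp (2 + q) := by
      have := Real.add_one_le_exp ((2 : ℝ) + q)
      linarith
    have a6 : (n : ℝ) = Real.exp (Real.log n) := by rw [Real.exp_log (by linarith)]
    calc (m : ℝ) + q ≤ (2 + q) * n := a4
      _ ≤ Real.exp (2 + q) * Real.exp (Real.log n) := by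
          rw [← a6]
          exact mul_le_mul_of_nonneg_right a5 (by linarith)
      _ = Real.exp (2 + q + Real.log n) := (Real.exp_add _ _).symm
      _ ≤ _ := Real.exp_le_exp.mpr (by nlinarith)
  calc 4 * C₀ * ((m : ℝ) + q) ^ p
      ≤ Real.exp (4 * C₀ * Real.log n ^ 2) * Real.exp ((3 + q) * Real.log n ^ 2) ^ p := by
        gcongr
    _ = _ := by
        rw [← Real.exp_nat_mul, ← Real.exp_add]
        ring_nf

theorem log_two_mul {n m : ℕ} (hn : 3 ≤ n) (hm : 1 ≤ m) (hm2 : m ≤ 2 * n) :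
    Real.log m ^ 2 ≤ 4 * Real.log n ^ 2 := by
  have hn' : (3 : ℝ) ≤ n := by exact_mod_cast hn
  have hm' : (m : ℝ) ≤ 2 * n := by exact_mod_cast hm2
  have hm1 : (1 : ℝ) ≤ m := by exact_mod_cast hm
  have h0 : 0 ≤ Real.log m := Real.log_nonneg hm1
  have h1 : Real.log m ≤ 2 * Real.log n := by
    have h2 : (m : ℝ) ≤ (n : ℝ) ^ 2 := by nlinarith
    have := Real.log_le_log (by linarith) h2
    rwa [Real.log_pow] at this
  calc Real.log m ^ 2 ≤ (2 * Real.log n) ^ 2 := pow_le_pow_left₀ h0 h1 2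
    _ = _ := by ring

theorem kp_sub (n : ℕ) : ((KP n).card : ℝ) ≤ ((SW n).card : ℝ) := by
  exact_mod_cast card_le_card (filter_subset _ _)

theorem nf_diff (F : List Dir → ℝ) (n s j : ℕ) : Df s (nf F n) j =
    (∑ i ∈ range (s + 1), (-1 : ℝ) ^ i * (s.choose i : ℝ) *
      ((∑ w ∈ KP (n + 2 * j + 2 * i), F w) / H981.mu ^ (2 * i))) / H981.mu ^ (2 * j) := by
  have hμ := H981.mu_pos
  unfold Df nf
  rw [sum_div]
  refine sum_congr rfl (fun i _ => ?_)
  rw [show n + 2 * (j + i) = n + 2 * j + 2 * i by ring, show 2 * (j + i) = 2 * i + 2 * j by ring,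
    pow_add]
  field_simp

theorem rel (C₀ : ℝ) (hC₀ : 1 ≤ C₀) (p r : ℕ) : ∃ δ₁ A' B : ℝ, 0 < δ₁ ∧ δ₁ ≤ 1 ∧ 1 ≤ A' ∧ 1 ≤ B ∧
    ∀ (𝓕 : (List Dir → ℝ) → Prop) (G : List Dir → ℝ), Cls C₀ p 𝓕 G →
    ∀ (n : ℕ) (x ε : ℝ), 3 ≤ n → n % 2 = 1 → 0 ≤ x →
      ((KP n).card : ℝ) ≤ Real.exp x * ∑ w ∈ KP n, G w → 0 < ε → ε ≤ δ₁ →
      A' * (Real.log n ^ 2 + x) ≤ ε ^ 2 * n →
      0 < nf G n 0 ∧ (∀ j, j ≤ r → nf G n 0 ≤ B * nf G n j) ∧
        ∀ F, 𝓕 F → ∀ s j, s + j ≤ r → |Df s (nf F n) j| ≤ B * ε ^ s * nf G n 0 := by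
  obtain ⟨K, hK, hμ, hupp, hKP, hmain⟩ := paof
  choose A C hA hC h using hmain
  have hμ0 : 0 < H981.mu := by linarith
  have hμ1 : 1 ≤ H981.mu := by linarith
  obtain ⟨A₁, hA₁⟩ : ∃ A₁, A₁ = ∑ s ∈ range (r + 6), A s := ⟨_, rfl⟩
  obtain ⟨C₁, hC₁⟩ : ∃ C₁, C₁ = ∑ s ∈ range (r + 6), C s := ⟨_, rfl⟩
  have hAs : ∀ s, s ≤ r + 5 → A s ≤ A₁ := fun s hs => by
    rw [hA₁]
    exact single_le_sum (f := A) (fun i _ => (hA i).le) (mem_range.2 (by omega))
  have hCs : ∀ s, s ≤ r + 5 → C s ≤ C₁ := fun s hs => by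
    rw [hC₁]
    exact single_le_sum (f := C) (fun i _ => (hC i).le) (mem_range.2 (by omega))
  have hA₁0 : 0 < A₁ := lt_of_lt_of_le (hA 0) (hAs 0 (by omega))
  have hC₁0 : 0 < C₁ := lt_of_lt_of_le (hC 0) (hCs 0 (by omega))
  obtain ⟨K₁, hK₁, hpol⟩ := poly_small hC₀ p (2 * r + 11)
  obtain ⟨K₂, hK₂⟩ : ∃ K₂, K₂ = K₁ + 5 * K := ⟨_, rfl⟩
  have hK₂0 : 0 ≤ K₂ := by rw [hK₂]; positivity
  have hc₁ : (1 : ℝ) ≤ H981.mu ^ 8 := one_le_pow₀ hμ1
  obtain ⟨δ₀, B, hδ₀, hB, hseq⟩ := seq_main (r + 4) (C := C₁ * C₀) (c₁ := H981.mu ^ 8)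
    (by positivity) hc₁
  have hr0 : (0 : ℝ) ≤ r := Nat.cast_nonneg r
  refine ⟨min 1 (δ₀ / 3), A₁ * (K₂ + r + 7) + 4 * A₁ + 12 * (K₂ + 1) + 4 * r + 100,
    1 + B + C₁ * C₀ * (H981.mu ^ 8 * B + 1), by positivity, min_le_left _ _, by
      have : 0 ≤ A₁ * (K₂ + r + 7) := by positivity
      linarith, by
      have : 0 ≤ C₁ * C₀ * (H981.mu ^ 8 * B + 1) := by positivity
      linarith, ?_⟩
  intro 𝓕 G hcls n x ε hn ho hx hxG hε hεδ hAn
  have hε1 : ε ≤ 1 := hεδ.trans (min_le_left _ _)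
  have hεδ3 : 3 * ε ≤ δ₀ := by
    have := hεδ.trans (min_le_right _ _)
    linarith
  have hn' : (3 : ℝ) ≤ n := by exact_mod_cast hn
  have hlog := log_ge_one hn
  have hlog2 : 1 ≤ Real.log n ^ 2 := one_le_pow₀ hlog
  have hlog3 : Real.log n ≤ Real.log n ^ 2 := by nlinarith
  have hly : 0 ≤ Real.log n ^ 2 + x := by linarith
  -- consequences of the lower bound for `ε`
  have b1 : 4 * A₁ * Real.log n ^ 2 ≤ ε ^ 2 * n := by
    refine le_trans ?_ hAn
    have c1 : 4 * A₁ * Real.log n ^ 2 ≤ 4 * A₁ * (Real.log n ^ 2 + x) :=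
      mul_le_mul_of_nonneg_left (by linarith) (by positivity)
    refine c1.trans (mul_le_mul_of_nonneg_right ?_ hly)
    have : 0 ≤ A₁ * (K₂ + r + 7) := by positivity
    linarith
  have b2 : A₁ * ((K₂ + r + 7) * (Real.log n ^ 2 + x)) ≤ ε ^ 2 * n := by
    refine le_trans ?_ hAn
    rw [← mul_assoc]
    refine mul_le_mul_of_nonneg_right ?_ hly
    linarith
  have b3 : (12 * (K₂ + 1) + 4 * r + 100) * (Real.log n ^ 2 + x) ≤ ε ^ 2 * n := by
    refine le_trans ?_ hAn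
    refine mul_le_mul_of_nonneg_right ?_ hly
    have : 0 ≤ A₁ * (K₂ + r + 7) := by positivity
    linarith
  have b4 : ε ^ 2 * n ≤ n := mul_le_of_le_one_left (by linarith) (pow_le_one₀ hε.le hε1)
  have b5 : 1 ≤ ε ^ 2 * n := by
    refine le_trans ?_ b3
    nlinarith
  have b6 : Real.exp (-Real.log n) ≤ ε := by
    rw [Real.exp_neg, Real.exp_log (by linarith)]
    rw [inv_eq_one_div, div_le_iff₀ (by linarith)]
    have : ε ^ 2 ≤ ε := by nlinarith
    nlinarith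
  have b7 : ((4 * r + 100 : ℕ) : ℝ) ≤ n := by
    push_cast
    have : (4 * r + 100 : ℝ) ≤ (12 * (K₂ + 1) + 4 * r + 100) * (Real.log n ^ 2 + x) := by
      have c1 : (0 : ℝ) ≤ 12 * (K₂ + 1) := by positivity
      have c2 : 1 ≤ Real.log n ^ 2 + x := by linarith
      nlinarith
    linarith
  have b8 : 4 * r + 100 ≤ n := by exact_mod_cast b7
  have hKPn := KP_pos hn ho
  have hT0 : 0 < ∑ w ∈ KP n, G w := by
    have h1 := Real.exp_pos x
    by_contra hcon
    push Not at hcon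
    nlinarith
  have hf0 : nf G n 0 = ∑ w ∈ KP n, G w := by
    unfold nf
    simp
  have hfn : ∀ j, 0 ≤ nf G n j := fun j => by
    unfold nf
    exact div_nonneg (sum_nonneg (fun w _ => hcls.nonneg w)) (by positivity)
  -- comparison of `μ ^ n` with the sum
  have hμn : H981.mu ^ n ≤ Real.exp (K * Real.log n ^ 2 + x) * nf G n 0 := by
    rw [hf0, Real.exp_add, mul_assoc]
    exact (hKP n hn ho).trans (mul_le_mul_of_nonneg_left hxG (Real.exp_pos _).le)
  have hgrow : ∀ m, m ≤ 2 * n → ((SW m).card : ℝ) ≤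
      4 * (H981.mu ^ m * Real.exp (4 * K * Real.log n ^ 2)) := by
    intro m hm
    refine (hupp m (2 * n) (by omega) hm).trans ?_
    have c1 := log_two_mul (m := 2 * n) hn (by omega) le_rfl
    have c2 : Real.exp (K * Real.log ((2 * n : ℕ) : ℝ) ^ 2) ≤
        Real.exp (4 * K * Real.log n ^ 2) := by
      apply Real.exp_le_exp.mpr
      calc K * Real.log ((2 * n : ℕ) : ℝ) ^ 2 ≤ K * (4 * Real.log n ^ 2) :=
            mul_le_mul_of_nonneg_left c1 hK
        _ = _ := by ring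
    have c3 : 0 ≤ H981.mu ^ m := by positivity
    nlinarith [mul_le_mul_of_nonneg_left c2 c3]
  -- the basic estimate
  have hdif : ∀ F, 𝓕 F → ∀ s, s ≤ r + 5 → ∀ j, 2 * j ≤ n →
      |Df s (nf F n) j| ≤ C₁ * C₀ * (ε ^ s * (H981.mu ^ 8 * nf G n (j + 4) + nf G n 0)) := by
    intro F hF s hs j hj
    obtain ⟨m, hm⟩ : ∃ m, m = n + 2 * j := ⟨_, rfl⟩
    have hm2 : m ≤ 2 * n := by omega
    have hmn : n ≤ m := by omega
    have hmn' : (n : ℝ) ≤ m := by exact_mod_cast hmn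
    have d1 : A s * Real.log m ^ 2 ≤ ε ^ 2 * m := by
      have e1 := log_two_mul hn (by omega : 1 ≤ m) hm2
      have e2 : 0 ≤ Real.log m ^ 2 := by positivity
      calc A s * Real.log m ^ 2 ≤ A₁ * (4 * Real.log n ^ 2) :=
            mul_le_mul (hAs s hs) e1 e2 hA₁0.le
        _ = 4 * A₁ * Real.log n ^ 2 := by ring
        _ ≤ ε ^ 2 * n := b1
        _ ≤ ε ^ 2 * m := mul_le_mul_of_nonneg_left hmn' (by positivity)
    obtain ⟨L, hL, hl⟩ := h s m ε (by omega) hε hε1 d1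
    obtain ⟨st, fl, hfl⟩ := s_bij L hL 0 0
    obtain ⟨M, hM0, hM1, hM2⟩ := hcls.rep L hL st fl hfl
    have d2 := hl st fl hfl F M (C₀ * ((m : ℝ) + ((2 * r + 11 : ℕ) : ℝ)) ^ p) (by positivity) hM0
      (fun i hi w hw => by
        rw [mem_range] at hi
        refine (hcls.dom F hF w).trans ((hcls.poly _ (by omega) w hw).trans ?_)
        have hi' : (i : ℝ) ≤ r + 5 := by exact_mod_cast (by omega : i ≤ r + 5)
        have : (((m + 2 * i : ℕ) : ℝ) + 1) ≤ (m : ℝ) + ((2 * r + 11 : ℕ) : ℝ) := by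
          push_cast
          linarith
        gcongr) (hM1 F hF)
    rw [nf_diff, abs_div, abs_of_pos (by positivity : 0 < H981.mu ^ (2 * j)), ← hm]
    rw [div_le_iff₀ (by positivity)]
    refine d2.trans ?_
    have d3 := hM2 m (by omega) (by omega)
    have d4 : ∑ w ∈ KP (m + 8), G w = H981.mu ^ 8 * nf G n (j + 4) * H981.mu ^ (2 * j) := by
      unfold nf
      rw [show n + 2 * (j + 4) = m + 8 by omega, show 2 * (j + 4) = 8 + 2 * j by ring, pow_add]
      field_simp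
    rw [d4] at d3
    have d5 : C₀ * ((m : ℝ) + ((2 * r + 11 : ℕ) : ℝ)) ^ p * (Real.exp (-(ε ^ 2 * m / A s)) *
        ((SW m).card : ℝ)) ≤ ε ^ s * nf G n 0 * H981.mu ^ (2 * j) := by
      have e1 := hpol n m hn hm2
      have e2 := hgrow m hm2
      have e3 : Real.exp (-(ε ^ 2 * m / A s)) ≤
          Real.exp (-((K₂ + r + 7) * (Real.log n ^ 2 + x))) := by
        apply Real.exp_le_exp.mpr
        apply neg_le_neg
        rw [le_div_iff₀ (hA s)]
        calc (K₂ + r + 7) * (Real.log n ^ 2 + x) * A s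
            ≤ (K₂ + r + 7) * (Real.log n ^ 2 + x) * A₁ :=
              mul_le_mul_of_nonneg_left (hAs s hs) (by positivity)
          _ = A₁ * ((K₂ + r + 7) * (Real.log n ^ 2 + x)) := by ring
          _ ≤ ε ^ 2 * n := b2
          _ ≤ ε ^ 2 * m := mul_le_mul_of_nonneg_left hmn' (by positivity)
      have e4 : H981.mu ^ m = H981.mu ^ n * H981.mu ^ (2 * j) := by
        rw [hm, pow_add]
      have e5 : Real.exp (-(s * Real.log n)) ≤ ε ^ s := by
        rw [show -((s : ℝ) * Real.log n) = s * (-Real.log n) by ring, Real.exp_nat_mul]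
        exact pow_le_pow_left₀ (Real.exp_pos _).le b6 s
      have hs' : (s : ℝ) ≤ r + 5 := by exact_mod_cast hs
      have e6 : 0 ≤ nf G n 0 := hfn 0
      have e7 : (0 : ℝ) < H981.mu ^ (2 * j) := by positivity
      calc C₀ * ((m : ℝ) + ((2 * r + 11 : ℕ) : ℝ)) ^ p * (Real.exp (-(ε ^ 2 * m / A s)) *
          ((SW m).card : ℝ))
          ≤ C₀ * ((m : ℝ) + ((2 * r + 11 : ℕ) : ℝ)) ^ p *
            (Real.exp (-((K₂ + r + 7) * (Real.log n ^ 2 + x))) *
            (4 * (H981.mu ^ m * Real.exp (4 * K * Real.log n ^ 2)))) := by gcongr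
        _ = (4 * C₀ * ((m : ℝ) + ((2 * r + 11 : ℕ) : ℝ)) ^ p) *
            (Real.exp (-((K₂ + r + 7) * (Real.log n ^ 2 + x))) *
            (Real.exp (4 * K * Real.log n ^ 2) * H981.mu ^ m)) := by ring
        _ ≤ Real.exp (K₁ * Real.log n ^ 2) *
            (Real.exp (-((K₂ + r + 7) * (Real.log n ^ 2 + x))) *
            (Real.exp (4 * K * Real.log n ^ 2) * ((Real.exp (K * Real.log n ^ 2 + x) *
              nf G n 0) * H981.mu ^ (2 * j)))) := by
            rw [e4]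
            gcongr
        _ = Real.exp (K₁ * Real.log n ^ 2 + (-((K₂ + r + 7) * (Real.log n ^ 2 + x)) +
            (4 * K * Real.log n ^ 2 + (K * Real.log n ^ 2 + x)))) * nf G n 0 *
              H981.mu ^ (2 * j) := by
            simp only [Real.exp_add]
            ring
        _ ≤ Real.exp (-(s * Real.log n)) * nf G n 0 * H981.mu ^ (2 * j) := by
            refine mul_le_mul_of_nonneg_right (mul_le_mul_of_nonneg_right
              (Real.exp_le_exp.mpr ?_) e6) e7.le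
            rw [hK₂]
            have f1 : (s : ℝ) * Real.log n ≤ (r + 5) * Real.log n ^ 2 :=
              mul_le_mul hs' hlog3 (by linarith) (by positivity)
            have f2 : 0 ≤ (K₁ + 5 * K + r + 6) * x := by positivity
            nlinarith
        _ ≤ ε ^ s * nf G n 0 * H981.mu ^ (2 * j) := by gcongr
    have d6 : 0 ≤ nf G n (j + 4) := hfn _
    have d7 : 0 ≤ nf G n 0 := hfn 0
    have hεs : 0 ≤ ε ^ s := by positivity
    have d8 : 0 ≤ ε ^ s * (C₀ * (H981.mu ^ 8 * nf G n (j + 4) * H981.mu ^ (2 * j))) +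
        ε ^ s * nf G n 0 * H981.mu ^ (2 * j) := by positivity
    calc C s * (ε ^ s * (∑ w ∈ KP m, M (st w)) + C₀ * ((m : ℝ) + ((2 * r + 11 : ℕ) : ℝ)) ^ p *
          (Real.exp (-(ε ^ 2 * m / A s)) * ((SW m).card : ℝ)))
        ≤ C s * (ε ^ s * (C₀ * (H981.mu ^ 8 * nf G n (j + 4) * H981.mu ^ (2 * j))) +
          ε ^ s * nf G n 0 * H981.mu ^ (2 * j)) :=
          mul_le_mul_of_nonneg_left (add_le_add (mul_le_mul_of_nonneg_left d3 hεs) d5) (hC s).le
      _ ≤ C₁ * (ε ^ s * (C₀ * (H981.mu ^ 8 * nf G n (j + 4) * H981.mu ^ (2 * j))) +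
          ε ^ s * nf G n 0 * H981.mu ^ (2 * j)) := mul_le_mul_of_nonneg_right (hCs s hs) d8
      _ ≤ C₁ * (ε ^ s * (C₀ * (H981.mu ^ 8 * nf G n (j + 4) * H981.mu ^ (2 * j))) +
          C₀ * (ε ^ s * nf G n 0 * H981.mu ^ (2 * j))) := by
          refine mul_le_mul_of_nonneg_left (add_le_add le_rfl ?_) hC₁0.le
          exact le_mul_of_one_le_left (by positivity) hC₀
      _ = _ := by ring
  -- upper bound
  have hX : ∀ j, 2 * j ≤ n → nf G n j ≤ Real.exp (K₂ * Real.log n ^ 2 + x) * nf G n 0 := by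
    intro j hj
    obtain ⟨m, hm⟩ : ∃ m, m = n + 2 * j := ⟨_, rfl⟩
    have hm2 : m ≤ 2 * n := by omega
    have e0 : nf G n j = (∑ w ∈ KP m, G w) / H981.mu ^ (2 * j) := by rw [hm]; rfl
    rw [e0, div_le_iff₀ (by positivity)]
    have e1 : ∑ w ∈ KP m, G w ≤ C₀ * ((m : ℝ) + ((2 * r + 11 : ℕ) : ℝ)) ^ p *
        ((SW m).card : ℝ) := by
      calc ∑ w ∈ KP m, G w ≤ ∑ w ∈ KP m, C₀ * ((m : ℝ) + ((2 * r + 11 : ℕ) : ℝ)) ^ p := by
            refine sum_le_sum (fun w hw => (hcls.poly m (by omega) w hw).trans ?_)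
            have : (m : ℝ) + 1 ≤ (m : ℝ) + ((2 * r + 11 : ℕ) : ℝ) := by
              push_cast
              linarith
            gcongr
        _ = C₀ * ((m : ℝ) + ((2 * r + 11 : ℕ) : ℝ)) ^ p * ((KP m).card : ℝ) := by
            rw [sum_const, nsmul_eq_mul]
            ring
        _ ≤ _ := mul_le_mul_of_nonneg_left (kp_sub m) (by positivity)
    have e2 := hpol n m hn hm2
    have e3 := hgrow m hm2
    have e4 : H981.mu ^ m = H981.mu ^ n * H981.mu ^ (2 * j) := by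
      rw [hm, pow_add]
    have e6 : 0 ≤ nf G n 0 := hfn 0
    calc ∑ w ∈ KP m, G w ≤ C₀ * ((m : ℝ) + ((2 * r + 11 : ℕ) : ℝ)) ^ p *
          (4 * (H981.mu ^ m * Real.exp (4 * K * Real.log n ^ 2))) := by
          refine e1.trans ?_
          gcongr
      _ = (4 * C₀ * ((m : ℝ) + ((2 * r + 11 : ℕ) : ℝ)) ^ p) *
          (Real.exp (4 * K * Real.log n ^ 2) * H981.mu ^ m) := by ring
      _ ≤ Real.exp (K₁ * Real.log n ^ 2) * (Real.exp (4 * K * Real.log n ^ 2) *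
          ((Real.exp (K * Real.log n ^ 2 + x) * nf G n 0) * H981.mu ^ (2 * j))) := by
          rw [e4]
          gcongr
      _ = Real.exp (K₁ * Real.log n ^ 2 + (4 * K * Real.log n ^ 2 +
          (K * Real.log n ^ 2 + x))) * nf G n 0 * H981.mu ^ (2 * j) := by
          simp only [Real.exp_add]
          ring
      _ = _ := by
          rw [hK₂]
          ring_nf
  -- the sequence lemma
  obtain ⟨N, hN⟩ : ∃ N, N = n / 2 - 1 := ⟨_, rfl⟩
  obtain ⟨I, hI⟩ : ∃ I, I = (N - (r + 12)) / 3 := ⟨_, rfl⟩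
  have hI12 : n ≤ 12 * I := by omega
  have hseq' := hseq (nf G n) ε (Real.exp (K₂ * Real.log n ^ 2 + x) * nf G n 0) N I hε
    (by linarith) hfn (by rw [hf0]; exact hT0) (fun s hs j hj => hdif G hcls.self s (by omega) j
      (by omega)) (fun j hj => hX j (by omega)) (by
        refine mul_lt_mul_of_pos_right ?_ (by rw [hf0]; exact hT0)
        have e1 : Real.exp 1 ≤ δ₀ / ε := by
          rw [le_div_iff₀ hε]
          have := Real.exp_one_lt_d9
          nlinarith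
        have e2 : Real.exp I ≤ (δ₀ / ε) ^ I := by
          calc Real.exp I = Real.exp 1 ^ I := by rw [← Real.exp_nat_mul, mul_one]
            _ ≤ _ := pow_le_pow_left₀ (Real.exp_pos _).le e1 I
        refine lt_of_lt_of_le (Real.exp_lt_exp.mpr ?_) e2
        have e3 : (n : ℝ) ≤ 12 * I := by exact_mod_cast hI12
        have e4 : 12 * ((K₂ + 1) * (Real.log n ^ 2 + x)) ≤ n := by
          refine le_trans ?_ (b3.trans b4)
          have : 0 ≤ (4 * (r : ℝ) + 100) * (Real.log n ^ 2 + x) := by positivity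
          nlinarith
        nlinarith [mul_nonneg hK₂0 hx]) (by omega)
  obtain ⟨g1, g2⟩ := hseq'
  have hf00 : 0 < nf G n 0 := by rw [hf0]; exact hT0
  have hcoef : 0 ≤ C₁ * C₀ * (H981.mu ^ 8 * B + 1) := by positivity
  refine ⟨hf00, fun j hj => ?_, fun F hF s j hsj => ?_⟩
  · refine (g1 j (by omega)).trans ?_
    exact mul_le_mul_of_nonneg_right (by linarith) (hfn j)
  · have e1 := hdif F hF s (by omega) j (by omega)
    have e2 : nf G n (j + 4) ≤ B * nf G n 0 := by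
      have := g2 0 (j + 4) (by omega)
      rw [pow_zero, mul_one] at this
      have e3 : Df 0 (nf G n) (j + 4) = nf G n (j + 4) := by simp [Df]
      rw [e3, abs_of_nonneg (hfn _)] at this
      exact this
    refine e1.trans ?_
    calc C₁ * C₀ * (ε ^ s * (H981.mu ^ 8 * nf G n (j + 4) + nf G n 0))
        ≤ C₁ * C₀ * (ε ^ s * (H981.mu ^ 8 * (B * nf G n 0) + nf G n 0)) := by gcongr
      _ = (C₁ * C₀ * (H981.mu ^ 8 * B + 1)) * (ε ^ s * nf G n 0) := by ring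
      _ ≤ (1 + B + C₁ * C₀ * (H981.mu ^ 8 * B + 1)) * (ε ^ s * nf G n 0) :=
          mul_le_mul_of_nonneg_right (by linarith) (by positivity)
      _ = _ := by ring

end

end Pool.Agent.K6.H96.SP
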