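import Pool.Agent.K6.H96.SP.Rel

/-!
# Regularity to all orders, relative to a rare event: conclusion
-/

set_option autoImplicit false
set_option linter.unusedVariables false

namespace Pool.Agent.K6.H96.SP

open Pool.Agent.H976R2 Pool.Agent.H976R2.Dir Finset Filter
open Pool.Agent.N929.EX Pool.Agent.N929.EY Pool.Agent.N929.EZ
open Pool.Agent.H739K (KP)
open scoped Classical

noncomputable section

theorem log_small' {κ : ℝ} (hκ : 0 < κ) : ∃ n₁ : ℕ, ∀ n : ℕ, 3 ≤ n → κ * n < Real.log n ^ 2 →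
    n ≤ n₁ := by
  have h2 : Tendsto (fun n : ℕ => Real.log (n : ℝ) ^ 2 / (n : ℝ)) atTop (nhds 0) := by
    have h3 := (isLittleO_log_rpow_rpow_atTop (r := 2) (s := 1) (by norm_num)).tendsto_div_nhds_zero
    have h4 := h3.comp tendsto_natCast_atTop_atTop
    refine h4.congr (fun n => ?_)
    simp
  obtain ⟨n₁, h⟩ := eventually_atTop.1 (h2.eventually (gt_mem_nhds hκ))
  refine ⟨n₁, fun n hn hlt => ?_⟩
  by_contra hcon
  have h3 := h n (by omega)
  have hn0 : (0 : ℝ) < n := by exact_mod_cast (by omega : 0 < n)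
  rw [div_lt_iff₀ hn0] at h3
  linarith

theorem alt_bound (r : ℕ) (a : ℕ → ℝ) {Z : ℝ} (h : ∀ i, i ≤ r → |a i| ≤ Z) :
    |∑ i ∈ range (r + 1), (-1 : ℝ) ^ i * (r.choose i : ℝ) * a i| ≤ 2 ^ r * Z := by
  calc |∑ i ∈ range (r + 1), (-1 : ℝ) ^ i * (r.choose i : ℝ) * a i|
      ≤ ∑ i ∈ range (r + 1), |(-1 : ℝ) ^ i * (r.choose i : ℝ) * a i| := abs_sum_le_sum_abs _ _
    _ ≤ ∑ i ∈ range (r + 1), (r.choose i : ℝ) * Z := by
        refine sum_le_sum (fun i hi => ?_)
        rw [mem_range] at hi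
        rw [abs_mul, abs_mul, abs_pow, abs_neg, abs_one, one_pow, one_mul,
          abs_of_nonneg (Nat.cast_nonneg _)]
        exact mul_le_mul_of_nonneg_left (h i (by omega)) (Nat.cast_nonneg _)
    _ = 2 ^ r * Z := by
        rw [← sum_mul]
        congr 1
        exact_mod_cast Nat.sum_range_choose r

theorem rel_fin (C₀ : ℝ) (hC₀ : 1 ≤ C₀) (p r : ℕ) : ∃ c K : ℝ, 0 < c ∧ 0 < K ∧
    ∀ (𝓕 : (List Dir → ℝ) → Prop) (G : List Dir → ℝ), Cls C₀ p 𝓕 G →
    ∀ (n : ℕ) (x : ℝ), 3 ≤ n → n % 2 = 1 → 0 ≤ x → x ≤ c * n →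
      ((KP n).card : ℝ) ≤ Real.exp x * ∑ w ∈ KP n, G w →
      (1 ≤ r → |∑ i ∈ range (r + 1), (-1 : ℝ) ^ i * (r.choose i : ℝ) *
        Real.log ((∑ w ∈ KP (n + 2 * i), G w) / H981.mu ^ (n + 2 * i))| ≤
          K * Real.sqrt ((Real.log n ^ 2 + x) / n) ^ r) ∧
      ∀ F, 𝓕 F → |∑ i ∈ range (r + 1), (-1 : ℝ) ^ i * (r.choose i : ℝ) *
        ((∑ w ∈ KP (n + 2 * i), F w) / ∑ w ∈ KP (n + 2 * i), G w)| ≤
          K * Real.sqrt ((Real.log n ^ 2 + x) / n) ^ r := by
  obtain ⟨δ₁, A', B, hδ₁, hδ₁1, hA', hB, hrel⟩ := rel C₀ hC₀ p r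
  obtain ⟨K₀, hK₀, hμ, hupp, hKP, -⟩ := paof
  have hμ0 : 0 < H981.mu := by linarith
  have hμ1 : 1 ≤ H981.mu := by linarith
  obtain ⟨Cq, hCq, hquo⟩ := Pool.Agent.N278.EZ.quo r B (by linarith)
  obtain ⟨Cl, hCl, hlogd⟩ : ∃ Cl : ℝ, 0 < Cl ∧ (1 ≤ r → ∀ (f : ℕ → ℝ) (n : ℕ) (ε : ℝ), 0 < ε →
    ε ≤ 1 → (∀ j, j ≤ r → 0 < f (n + j)) → (∀ j, j ≤ r → f n ≤ B * f (n + j)) →
    (∀ s j, s + j ≤ r → |Df s f (n + j)| ≤ B * ε ^ s * f n) →
    |Df r (fun j => Real.log (f j)) n| ≤ Cl * ε ^ r) := by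
    by_cases hr : 1 ≤ r
    · obtain ⟨C, hC, h⟩ := Pool.Agent.N507.EZ.log_diff r hr B (by linarith)
      exact ⟨C, hC, fun _ => h⟩
    · exact ⟨1, one_pos, fun h => absurd h hr⟩
  obtain ⟨c, hc⟩ : ∃ c, c = δ₁ ^ 2 / (2 * A') := ⟨_, rfl⟩
  have hc0 : 0 < c := by rw [hc]; positivity
  obtain ⟨n₁, hn₁⟩ := log_small' hc0
  -- bounds for small `n`
  obtain ⟨Q, hQ⟩ : ∃ Q, Q = 1 + ∑ m ∈ range (n₁ + 2 * r + 1), C₀ * ((m : ℝ) + 1) ^ p *
      ((KP m).card : ℝ) := ⟨_, rfl⟩
  have hQm : ∀ m, m ≤ n₁ + 2 * r → C₀ * ((m : ℝ) + 1) ^ p * ((KP m).card : ℝ) ≤ Q := by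
    intro m hm
    rw [hQ]
    have := single_le_sum (f := fun m : ℕ => C₀ * ((m : ℝ) + 1) ^ p * ((KP m).card : ℝ))
      (s := range (n₁ + 2 * r + 1)) (fun i _ => by positivity) (mem_range.2 (by omega : m < _))
    linarith
  have hQ1 : 1 ≤ Q := by
    rw [hQ]
    have : 0 ≤ ∑ m ∈ range (n₁ + 2 * r + 1), C₀ * ((m : ℝ) + 1) ^ p * ((KP m).card : ℝ) :=
      sum_nonneg (fun i _ => by positivity)
    linarith
  obtain ⟨Z, hZ⟩ : ∃ Z, Z = Real.log Q + (r * Real.log C₀ + c * n₁ +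
      (n₁ + 2 * r : ℕ) * Real.log H981.mu) := ⟨_, rfl⟩
  have hlC : 0 ≤ Real.log C₀ := Real.log_nonneg hC₀
  have hlμ : 0 ≤ Real.log H981.mu := Real.log_nonneg hμ1
  have hlQ : 0 ≤ Real.log Q := Real.log_nonneg hQ1
  obtain ⟨η, hη⟩ : ∃ η, η = (δ₁ / Real.sqrt A') ^ r := ⟨_, rfl⟩
  have hsA : 0 < Real.sqrt A' := Real.sqrt_pos.mpr (by linarith)
  have hη0 : 0 < η := by rw [hη]; positivity
  have hZ0 : 0 ≤ Z := by rw [hZ]; positivity
  refine ⟨c, Cq * Real.sqrt A' ^ r + Cl * Real.sqrt A' ^ r + 2 ^ r * (Z + 1) / η, hc0,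
    by positivity, ?_⟩
  intro 𝓕 G hcls n x hn ho hx hxc hxG
  have hn' : (3 : ℝ) ≤ n := by exact_mod_cast hn
  have hn0 : (0 : ℝ) < n := by linarith
  have hlog := log_ge_one hn
  have hlog2 : 1 ≤ Real.log n ^ 2 := one_le_pow₀ hlog
  have hly : 0 < Real.log n ^ 2 + x := by linarith
  obtain ⟨y, hy⟩ : ∃ y, y = Real.sqrt ((Real.log n ^ 2 + x) / n) := ⟨_, rfl⟩
  have hy0 : 0 < y := by rw [hy]; exact Real.sqrt_pos.mpr (by positivity)
  have hy2 : y ^ 2 * n = Real.log n ^ 2 + x := by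
    rw [hy, Real.sq_sqrt (by positivity)]
    field_simp
  rw [← hy]
  have hKPn := KP_pos hn ho
  have hKPn1 : (1 : ℝ) ≤ ((KP n).card : ℝ) := by
    have : 0 < (KP n).card := by exact_mod_cast hKPn
    exact_mod_cast this
  have hTn : 0 < ∑ w ∈ KP n, G w := by
    have h1 := Real.exp_pos x
    by_contra hcon
    push Not at hcon
    nlinarith
  have hchain : ∀ i, ∑ w ∈ KP n, G w ≤ C₀ ^ i * ∑ w ∈ KP (n + 2 * i), G w := by
    intro i
    induction i with
    | zero => simp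
    | succ i ih =>
      refine ih.trans ?_
      rw [pow_succ, mul_assoc]
      refine mul_le_mul_of_nonneg_left ?_ (by positivity)
      have := hcls.grow (n + 2 * i) (by omega) (by omega)
      rwa [show n + 2 * i + 2 = n + 2 * (i + 1) by ring] at this
  have hTp : ∀ i, 0 < ∑ w ∈ KP (n + 2 * i), G w := by
    intro i
    have h1 := hchain i
    have h2 : 0 < C₀ ^ i := by positivity
    by_contra hcon
    push Not at hcon
    nlinarith
  have hyr : 0 < y ^ r := by positivity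
  obtain ⟨ε, hε⟩ : ∃ ε, ε = Real.sqrt A' * y := ⟨_, rfl⟩
  have hε0 : 0 < ε := by rw [hε]; positivity
  have hε2 : ε ^ 2 * n = A' * (Real.log n ^ 2 + x) := by
    rw [hε, mul_pow, Real.sq_sqrt (by linarith), mul_assoc, hy2]
  have hεr : ε ^ r = Real.sqrt A' ^ r * y ^ r := by rw [hε, mul_pow]
  by_cases hcase : ε ≤ δ₁
  · have hε1 : ε ≤ 1 := hcase.trans hδ₁1
    obtain ⟨g0, g1, g2⟩ := hrel 𝓕 G hcls n x ε hn ho hx hxG hε0 hcase hε2.ge
    have hgp : ∀ j, 0 < nf G n j := fun j => by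
      unfold nf
      exact div_pos (hTp j) (by positivity)
    refine ⟨fun hr => ?_, fun F hF => ?_⟩
    · have h1 := hlogd hr (nf G n) 0 ε hε0 hε1 (fun j _ => hgp _)
        (fun j hj => by rw [zero_add]; exact g1 j hj)
        (fun s j hsj => by rw [zero_add]; exact g2 G hcls.self s j hsj)
      have h2 : Df r (fun j => Real.log (nf G n j)) 0 = ∑ i ∈ range (r + 1), (-1 : ℝ) ^ i *
          (r.choose i : ℝ) * Real.log ((∑ w ∈ KP (n + 2 * i), G w) / H981.mu ^ (n + 2 * i)) := by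
        have h3 := alt_const hr (n * Real.log H981.mu)
        have h4 : ∑ i ∈ range (r + 1), (-1 : ℝ) ^ i * (r.choose i : ℝ) *
            Real.log ((∑ w ∈ KP (n + 2 * i), G w) / H981.mu ^ (n + 2 * i)) =
            ∑ i ∈ range (r + 1), (-1 : ℝ) ^ i * (r.choose i : ℝ) * Real.log (nf G n (0 + i)) -
            ∑ i ∈ range (r + 1), (-1 : ℝ) ^ i * (r.choose i : ℝ) * (n * Real.log H981.mu) := by
          rw [← sum_sub_distrib]
          refine sum_congr rfl (fun i _ => ?_)
          rw [zero_add]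
          unfold nf
          rw [Real.log_div (hTp i).ne' (by positivity), Real.log_div (hTp i).ne' (by positivity),
            Real.log_pow, Real.log_pow]
          push_cast
          ring
        rw [h4, h3, sub_zero]
        rfl
      rw [← h2]
      refine h1.trans ?_
      rw [hεr, ← mul_assoc]
      refine mul_le_mul_of_nonneg_right ?_ hyr.le
      have : 0 ≤ Cq * Real.sqrt A' ^ r := by positivity
      have : 0 ≤ 2 ^ r * (Z + 1) / η := by positivity
      linarith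
    · have h1 := hquo (nf F n) (nf G n) 0 (nf G n 0) ε hε0 hε1 g0.le (fun j _ => hgp _)
        (fun j hj => by rw [zero_add]; exact g1 j hj)
        (fun s hs => g2 F hF s 0 (by omega))
        (fun s j hsj => by rw [zero_add]; exact g2 G hcls.self s j hsj)
      have h2 : Df r (fun j => nf F n j / nf G n j) 0 = ∑ i ∈ range (r + 1), (-1 : ℝ) ^ i *
          (r.choose i : ℝ) * ((∑ w ∈ KP (n + 2 * i), F w) / ∑ w ∈ KP (n + 2 * i), G w) := by
        unfold Df
        refine sum_congr rfl (fun i _ => ?_)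
        congr 1
        rw [zero_add]
        unfold nf
        have h3 := hTp i
        have h4 : 0 < H981.mu ^ (2 * i) := by positivity
        field_simp
      rw [← h2]
      refine h1.trans ?_
      rw [div_self g0.ne', mul_one, hεr, ← mul_assoc]
      refine mul_le_mul_of_nonneg_right ?_ hyr.le
      have : 0 ≤ Cl * Real.sqrt A' ^ r := by positivity
      have : 0 ≤ 2 ^ r * (Z + 1) / η := by positivity
      linarith
  · push Not at hcase
    have hyη : η ≤ y ^ r := by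
      rw [hη]
      refine pow_le_pow_left₀ (by positivity) ?_ r
      rw [div_le_iff₀ hsA]
      rw [hε] at hcase
      linarith
    have hfin : ∀ a : ℝ, a ≤ 2 ^ r * (Z + 1) →
        a ≤ (Cq * Real.sqrt A' ^ r + Cl * Real.sqrt A' ^ r + 2 ^ r * (Z + 1) / η) * y ^ r := by
      intro a ha
      refine ha.trans ?_
      have e1 : 2 ^ r * (Z + 1) ≤ 2 ^ r * (Z + 1) / η * y ^ r := by
        rw [div_mul_eq_mul_div, le_div_iff₀ hη0]
        exact mul_le_mul_of_nonneg_left hyη (by positivity)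
      refine e1.trans (mul_le_mul_of_nonneg_right ?_ hyr.le)
      have : 0 ≤ Cl * Real.sqrt A' ^ r := by positivity
      have : 0 ≤ Cq * Real.sqrt A' ^ r := by positivity
      linarith
    refine ⟨fun hr => ?_, fun F hF => ?_⟩
    · -- the number of edges is bounded
      have hnn : n ≤ n₁ := by
        refine hn₁ n hn ?_
        have e1 : δ₁ ^ 2 * n < A' * (Real.log n ^ 2 + x) := by
          rw [← hε2]
          exact mul_lt_mul_of_pos_right (pow_lt_pow_left₀ hcase hδ₁.le (by norm_num)) hn0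
        have e2 : c * n * (2 * A') = δ₁ ^ 2 * n := by
          rw [hc]
          field_simp
        by_contra hcon
        push Not at hcon
        nlinarith
      refine hfin _ ((alt_bound r _ (Z := Z) (fun i hi => ?_)).trans ?_)
      · have hm : n + 2 * i ≤ n₁ + 2 * r := by omega
        have f1 : ∑ w ∈ KP (n + 2 * i), G w ≤ Q := by
          refine le_trans ?_ (hQm (n + 2 * i) hm)
          calc ∑ w ∈ KP (n + 2 * i), G w ≤ ∑ w ∈ KP (n + 2 * i),
                C₀ * (((n + 2 * i : ℕ) : ℝ) + 1) ^ p := sum_le_sum (fun w hw => hcls.poly _ (by omega) w hw)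
            _ = _ := by rw [sum_const, nsmul_eq_mul]; ring
        have f2 : 1 ≤ H981.mu ^ (n + 2 * i) := one_le_pow₀ hμ1
        have f3 : H981.mu ^ (n + 2 * i) ≤ H981.mu ^ (n₁ + 2 * r) := pow_le_pow_right₀ hμ1 hm
        have f4 : 1 ≤ C₀ ^ r * (Real.exp (c * n₁) * ∑ w ∈ KP (n + 2 * i), G w) := by
          calc (1 : ℝ) ≤ ((KP n).card : ℝ) := hKPn1
            _ ≤ Real.exp x * ∑ w ∈ KP n, G w := hxG
            _ ≤ Real.exp (c * n₁) * (C₀ ^ i * ∑ w ∈ KP (n + 2 * i), G w) := by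
                have e1 : x ≤ c * n₁ := by
                  refine hxc.trans (mul_le_mul_of_nonneg_left ?_ hc0.le)
                  exact_mod_cast hnn
                exact mul_le_mul (Real.exp_le_exp.mpr e1) (hchain i) hTn.le (Real.exp_pos _).le
            _ ≤ Real.exp (c * n₁) * (C₀ ^ r * ∑ w ∈ KP (n + 2 * i), G w) := by
                have e1 : C₀ ^ i ≤ C₀ ^ r := pow_le_pow_right₀ hC₀ hi
                have e2 := (hTp i).le
                gcongr
            _ = _ := by ring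
        have hTi := hTp i
        rw [abs_le]
        constructor
        · rw [Real.log_div hTi.ne' (by positivity), Real.log_pow]
          have g1 := Real.log_le_log (by norm_num) f4
          rw [Real.log_one, Real.log_mul (by positivity) (by positivity),
            Real.log_mul (Real.exp_pos _).ne' hTi.ne', Real.log_exp, Real.log_pow] at g1
          have g2 : ((n + 2 * i : ℕ) : ℝ) * Real.log H981.mu ≤
              ((n₁ + 2 * r : ℕ) : ℝ) * Real.log H981.mu := by
            refine mul_le_mul_of_nonneg_right ?_ hlμ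
            exact_mod_cast hm
          rw [hZ]
          linarith
        · have g1 : (∑ w ∈ KP (n + 2 * i), G w) / H981.mu ^ (n + 2 * i) ≤ Q :=
            (div_le_self hTi.le f2).trans f1
          have g2 := Real.log_le_log (by positivity) g1
          rw [hZ]
          have : 0 ≤ r * Real.log C₀ + c * n₁ + (n₁ + 2 * r : ℕ) * Real.log H981.mu := by
            positivity
          linarith
      · have : (0 : ℝ) < 2 ^ r := by positivity
        nlinarith
    · refine hfin _ ((alt_bound r _ (Z := 1) (fun i hi => ?_)).trans ?_)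
      · rw [abs_div, abs_of_pos (hTp i), div_le_one (hTp i)]
        exact (abs_sum_le_sum_abs _ _).trans (sum_le_sum (fun w _ => hcls.dom F hF w))
      · have : (0 : ℝ) < 2 ^ r := by positivity
        nlinarith

end

end Pool.Agent.K6.H96.SP
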