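import Mathlib

/-!
# Sequences with small iterated differences, compared with later terms
-/

set_option autoImplicit false
set_option linter.unusedVariables false

namespace Pool.Agent.K6.H96.SP

open Finset

/-- one step of the growth -/
theorem grow_one {f : ℕ → ℝ} {δ : ℝ} (hf : ∀ j, 0 ≤ f j) (hδ : 0 < δ) (hδ1 : δ ≤ 1 / 64) {j : ℕ}
    (hs : |f (j + 1) - f j| ≤ δ * (f (j + 4) + f 0)) (h2 : 2 * f j ≤ f (j + 1))
    (h0 : f 0 ≤ f (j + 1)) :
    ∃ j', j < j' ∧ j' ≤ j + 3 ∧ 2 * f j' ≤ f (j' + 1) ∧ 1 / (16 * δ) * f (j + 1) ≤ f (j' + 1) := by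
  have hT : 4 ≤ 1 / (16 * δ) := by
    rw [le_div_iff₀ (by positivity)]
    linarith
  obtain ⟨T, hTe⟩ : ∃ T, T = 1 / (16 * δ) := ⟨_, rfl⟩
  rw [← hTe] at hT ⊢
  have hTδ : δ * T = 1 / 16 := by rw [hTe]; field_simp
  have hj1 := hf (j + 1)
  have h3 : f (j + 1) / 2 ≤ δ * (f (j + 4) + f 0) := by
    refine le_trans ?_ ((le_abs_self _).trans hs)
    linarith
  have h4 : 4 * T * f (j + 1) ≤ f (j + 4) := by
    have h5 : T * (f (j + 1) / 2) ≤ T * (δ * (f (j + 4) + f 0)) :=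
      mul_le_mul_of_nonneg_left h3 (by linarith)
    have h6 : T * (δ * (f (j + 4) + f 0)) = 1 / 16 * (f (j + 4) + f 0) := by
      rw [← mul_assoc, mul_comm T δ, hTδ]
    rw [h6] at h5
    nlinarith
  have hT1 : f (j + 1) ≤ T * f (j + 1) := by nlinarith
  by_cases c3 : 2 * f (j + 3) ≤ f (j + 4)
  · exact ⟨j + 3, by omega, by omega, c3, by
      show T * f (j + 1) ≤ f (j + 4)
      nlinarith⟩
  · push Not at c3
    by_cases c2 : 2 * f (j + 2) ≤ f (j + 3)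
    · exact ⟨j + 2, by omega, by omega, c2, by
        show T * f (j + 1) ≤ f (j + 3)
        nlinarith⟩
    · push Not at c2
      refine ⟨j + 1, by omega, by omega, ?_, ?_⟩
      · show 2 * f (j + 1) ≤ f (j + 2)
        nlinarith
      · show T * f (j + 1) ≤ f (j + 2)
        nlinarith

/-- iteration of the growth -/
theorem grow {f : ℕ → ℝ} {δ : ℝ} (hf : ∀ j, 0 ≤ f j) (hδ : 0 < δ) (hδ1 : δ ≤ 1 / 64) {N : ℕ}
    (hs : ∀ j, j ≤ N → |f (j + 1) - f j| ≤ δ * (f (j + 4) + f 0)) {j : ℕ}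
    (h2 : 2 * f j ≤ f (j + 1)) (h0 : f 0 ≤ f (j + 1)) (I : ℕ) (hI : j + 3 * I ≤ N) :
    ∃ j', j' ≤ j + 3 * I ∧ 2 * f j' ≤ f (j' + 1) ∧
      (1 / (16 * δ)) ^ I * f (j + 1) ≤ f (j' + 1) := by
  induction I with
  | zero => exact ⟨j, by omega, h2, by simp⟩
  | succ I ih =>
    obtain ⟨j', a1, a2, a3⟩ := ih (by omega)
    have hT : 1 ≤ 1 / (16 * δ) := by
      rw [le_div_iff₀ (by positivity)]
      linarith
    have h4 : f 0 ≤ f (j' + 1) := by
      refine h0.trans (le_trans ?_ a3)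
      exact le_mul_of_one_le_left (hf _) (one_le_pow₀ hT)
    obtain ⟨j'', b1, b2, b3, b4⟩ := grow_one hf hδ hδ1 (hs j' (by omega)) a2 h4
    refine ⟨j'', by omega, b3, le_trans ?_ b4⟩
    rw [pow_succ', mul_assoc]
    exact mul_le_mul_of_nonneg_left a3 (by positivity)

/-- the terms do not grow -/
theorem no_grow {f : ℕ → ℝ} {δ X : ℝ} (hf : ∀ j, 0 ≤ f j) (hf0 : 0 < f 0) (hδ : 0 < δ)
    (hδ1 : δ ≤ 1 / 64) {N I : ℕ}
    (hs : ∀ j, j ≤ N → |f (j + 1) - f j| ≤ δ * (f (j + 4) + f 0))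
    (hX : ∀ j, j ≤ N + 1 → f j ≤ X) (hI : X < (1 / (16 * δ)) ^ I * f 0) :
    ∀ j, j + 3 * I ≤ N → f (j + 1) ≤ 2 ^ (j + 1) * f 0 := by
  intro j
  induction j with
  | zero =>
    intro hj
    by_contra hcon
    push Not at hcon
    rw [zero_add, pow_one] at hcon
    obtain ⟨j', a1, a2, a3⟩ := grow hf hδ hδ1 hs (j := 0) (by rw [zero_add]; exact hcon.le)
      (by rw [zero_add]; linarith) I (by omega)
    have h1 := hX (j' + 1) (by omega)
    have h2 : (1 / (16 * δ)) ^ I * f 0 ≤ (1 / (16 * δ)) ^ I * f (0 + 1) := by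
      rw [zero_add]
      exact mul_le_mul_of_nonneg_left (by linarith) (by positivity)
    linarith
  | succ j ih =>
    intro hj
    have h3 := ih (by omega)
    by_contra hcon
    push Not at hcon
    have h4 : 2 * f (j + 1) ≤ f (j + 1 + 1) := by
      rw [pow_succ] at hcon
      linarith
    have h5 : f 0 ≤ f (j + 1 + 1) := by
      have : (1 : ℝ) ≤ 2 ^ (j + 1 + 1) := one_le_pow₀ (by norm_num)
      nlinarith
    obtain ⟨j', a1, a2, a3⟩ := grow hf hδ hδ1 hs h4 h5 I (by omega)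
    have h1 := hX (j' + 1) (by omega)
    have h2 : (1 / (16 * δ)) ^ I * f 0 ≤ (1 / (16 * δ)) ^ I * f (j + 1 + 1) :=
      mul_le_mul_of_nonneg_left h5 (by positivity)
    linarith

end Pool.Agent.K6.H96.SP
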