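import Pool.Agent.N929.EZ.All2
import Pool.Agent.N278.EZ.Quo

/-!
# Smooth functions of finite sets
-/

set_option autoImplicit false
set_option linter.unusedVariables false

namespace Pool.Agent.K6.H96.SP

open Finset
open Pool.Agent.N929.EZ (Df S_DFJ)
open Pool.Agent.N278.EZ (Df_mul Df_succ Df_zero)
open scoped Classical

noncomputable section

variable {σ : Type}

/-- smooth functions of sets: the iterated differences are small -/
def Sm (δ : ℝ) : ℕ → Finset σ → (Finset σ → ℝ) → ℝ → Prop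
  | 0, E, Φ, M => ∀ U ⊆ E, |Φ U| ≤ M
  | s + 1, E, Φ, M => (∀ U ⊆ E, |Φ U| ≤ M) ∧
      ∀ x ∈ E, Sm δ s (E.erase x) (fun U => Φ (insert x U) - Φ U) (M * δ)

theorem Sm.bd {δ : ℝ} {s : ℕ} {E : Finset σ} {Φ : Finset σ → ℝ} {M : ℝ} (h : Sm δ s E Φ M) :
    ∀ U ⊆ E, |Φ U| ≤ M := by
  cases s with
  | zero => exact h
  | succ s => exact h.1

theorem Sm.down {δ : ℝ} {s : ℕ} : ∀ {E : Finset σ} {Φ : Finset σ → ℝ} {M : ℝ},
    Sm δ (s + 1) E Φ M → Sm δ s E Φ M := by
  induction s with
  | zero => intro E Φ M h; exact h.1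
  | succ s ih =>
    intro E Φ M h
    exact ⟨h.1, fun x hx => ih (h.2 x hx)⟩

theorem Sm.le {δ : ℝ} {s r : ℕ} {E : Finset σ} {Φ : Finset σ → ℝ} {M : ℝ} (hs : s ≤ r)
    (h : Sm δ r E Φ M) : Sm δ s E Φ M := by
  induction r with
  | zero =>
    have : s = 0 := by omega
    subst this
    exact h
  | succ r ih =>
    rcases Nat.lt_or_ge s (r + 1) with h1 | h1
    · exact ih (by omega) h.down
    · have : s = r + 1 := by omega
      subst this
      exact h

/-- the mean over the sets with `k` elements -/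
def av (E : Finset σ) (Φ : Finset σ → ℝ) (k : ℕ) : ℝ :=
  (∑ U ∈ E.powersetCard k, Φ U) / (E.card.choose k : ℝ)

theorem sum_insert_all (E : Finset σ) (Φ : Finset σ → ℝ) (k : ℕ) :
    ∑ x ∈ E, ∑ U ∈ (E.erase x).powersetCard k, Φ (insert x U) =
      ((k : ℝ) + 1) * ∑ U ∈ E.powersetCard (k + 1), Φ U := by
  have h1 : ∀ x ∈ E, ∑ U ∈ (E.erase x).powersetCard k, Φ (insert x U) =
      ∑ U ∈ E.powersetCard (k + 1), if x ∈ U then Φ U else 0 := by
    intro x hx
    rw [← sum_filter]
    refine sum_nbij' (fun U => insert x U) (fun U => U.erase x) ?_ ?_ ?_ ?_ ?_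
    · intro U hU
      rw [mem_powersetCard] at hU
      rw [mem_filter, mem_powersetCard]
      have hxU : x ∉ U := fun h => by
        have := hU.1 h
        simp at this
      refine ⟨⟨?_, ?_⟩, mem_insert_self _ _⟩
      · intro y hy
        rcases mem_insert.1 hy with rfl | hy
        · exact hx
        · exact mem_of_mem_erase (hU.1 hy)
      · rw [card_insert_of_notMem hxU, hU.2]
    · intro U hU
      rw [mem_filter, mem_powersetCard] at hU
      rw [mem_powersetCard]
      refine ⟨fun y hy => ?_, ?_⟩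
      · rw [mem_erase] at hy ⊢
        exact ⟨hy.1, hU.1.1 hy.2⟩
      · rw [card_erase_of_mem hU.2, hU.1.2]
        rfl
    · intro U hU
      rw [mem_powersetCard] at hU
      have hxU : x ∉ U := fun h => by
        have := hU.1 h
        simp at this
      exact erase_insert hxU
    · intro U hU
      rw [mem_filter] at hU
      exact insert_erase hU.2
    · intro U hU
      rfl
  rw [sum_congr rfl h1, sum_comm, mul_sum]
  refine sum_congr rfl (fun U hU => ?_)
  rw [mem_powersetCard] at hU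
  rw [← sum_filter, sum_const, nsmul_eq_mul]
  have h2 : E.filter (fun x => x ∈ U) = U := by
    ext x
    rw [mem_filter]
    exact ⟨fun h => h.2, fun h => ⟨hU.1 h, h⟩⟩
  rw [h2, hU.2]
  push_cast
  ring

theorem sum_erase_all (E : Finset σ) (Φ : Finset σ → ℝ) (k : ℕ) :
    ∑ x ∈ E, ∑ U ∈ (E.erase x).powersetCard k, Φ U =
      ((E.card : ℝ) - k) * ∑ U ∈ E.powersetCard k, Φ U := by
  have h1 : ∀ x ∈ E, ∑ U ∈ (E.erase x).powersetCard k, Φ U =
      ∑ U ∈ E.powersetCard k, if x ∉ U then Φ U else 0 := by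
    intro x hx
    rw [← sum_filter]
    refine sum_congr ?_ (fun _ _ => rfl)
    ext U
    rw [mem_filter, mem_powersetCard, mem_powersetCard, subset_erase]
    tauto
  rw [sum_congr rfl h1, sum_comm, mul_sum]
  refine sum_congr rfl (fun U hU => ?_)
  rw [mem_powersetCard] at hU
  rw [← sum_filter, sum_const, nsmul_eq_mul]
  have h2 : E.filter (fun x => x ∉ U) = E \ U := by
    ext x
    rw [mem_filter, mem_sdiff]
  rw [h2, card_sdiff_of_subset hU.1, hU.2]
  have h3 : k ≤ E.card := by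
    rw [← hU.2]
    exact card_le_card hU.1
  rw [Nat.cast_sub h3]

/-- first difference of the means -/
theorem av_succ (E : Finset σ) (Φ : Finset σ → ℝ) {k : ℕ} (hk : k + 1 ≤ E.card) :
    av E Φ (k + 1) - av E Φ k =
      (∑ x ∈ E, av (E.erase x) (fun U => Φ (insert x U) - Φ U) k) / E.card := by
  obtain ⟨S, hS⟩ : ∃ S, E.card = S + 1 := ⟨E.card - 1, by omega⟩
  have hc : ∀ x ∈ E, (E.erase x).card = S := fun x hx => by
    rw [card_erase_of_mem hx, hS]
    rfl
  have h1 : ∑ x ∈ E, av (E.erase x) (fun U => Φ (insert x U) - Φ U) k =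
      (((k : ℝ) + 1) * ∑ U ∈ E.powersetCard (k + 1), Φ U -
        ((E.card : ℝ) - k) * ∑ U ∈ E.powersetCard k, Φ U) / (S.choose k : ℝ) := by
    rw [← sum_insert_all, ← sum_erase_all, ← sum_sub_distrib, sum_div]
    refine sum_congr rfl (fun x hx => ?_)
    unfold av
    rw [hc x hx, sum_sub_distrib]
  have hkS : k ≤ S := by omega
  have c0 : (0 : ℝ) < (S.choose k : ℝ) := by exact_mod_cast Nat.choose_pos hkS
  have c1 : (0 : ℝ) < ((S + 1).choose k : ℝ) := by
    exact_mod_cast Nat.choose_pos (by omega : k ≤ S + 1)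
  have c2 : (0 : ℝ) < ((S + 1).choose (k + 1) : ℝ) := by
    exact_mod_cast Nat.choose_pos (by omega : k + 1 ≤ S + 1)
  have e1 : ((S : ℝ) + 1) * (S.choose k : ℝ) = ((S + 1).choose (k + 1) : ℝ) * ((k : ℝ) + 1) := by
    exact_mod_cast Nat.add_one_mul_choose_eq S k
  have e2 : (S.choose k : ℝ) * ((S : ℝ) + 1) = ((S + 1).choose k : ℝ) * ((S : ℝ) + 1 - k) := by
    have := Nat.choose_mul_succ_eq S k
    have h3 : (((S + 1 - k : ℕ) : ℝ)) = (S : ℝ) + 1 - k := by
      rw [Nat.cast_sub (by omega)]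
      push_cast
      ring
    rw [← h3]
    exact_mod_cast this
  rw [h1]
  unfold av
  rw [hS]
  push_cast
  obtain ⟨X, hX⟩ : ∃ X, X = ∑ U ∈ E.powersetCard (k + 1), Φ U := ⟨_, rfl⟩
  obtain ⟨Y, hY⟩ : ∃ Y, Y = ∑ U ∈ E.powersetCard k, Φ U := ⟨_, rfl⟩
  rw [← hX, ← hY]
  have hS0 : (0 : ℝ) < (S : ℝ) + 1 := by positivity
  have a1 : X / ((S + 1).choose (k + 1) : ℝ) = ((k : ℝ) + 1) * X / ((S.choose k : ℝ) * ((S : ℝ) + 1)) := by
    rw [div_eq_div_iff c2.ne' (by positivity)]
    linear_combination X * e1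
  have a2 : Y / ((S + 1).choose k : ℝ) = ((S : ℝ) + 1 - k) * Y / ((S.choose k : ℝ) * ((S : ℝ) + 1)) := by
    rw [div_eq_div_iff c1.ne' (by positivity)]
    linear_combination Y * e2
  rw [a1, a2, div_div, ← sub_div]

theorem Df_congr' {s : ℕ} {f g : ℕ → ℝ} {k : ℕ} (h : ∀ i, i ≤ s → f (k + i) = g (k + i)) :
    Df s f k = Df s g k := by
  unfold Df
  refine sum_congr rfl (fun i hi => ?_)
  rw [mem_range] at hi
  rw [h i (by omega)]

theorem sm_av {δ : ℝ} (hδ : 0 ≤ δ) : ∀ (s : ℕ) (E : Finset σ) (Φ : Finset σ → ℝ) (M : ℝ),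
    Sm δ s E Φ M → ∀ k, k + s ≤ E.card → |Df s (av E Φ) k| ≤ M * δ ^ s := by
  intro s
  induction s with
  | zero =>
    intro E Φ M h k hk
    rw [Df_zero, pow_zero, mul_one]
    unfold av
    have hc : (0 : ℝ) < (E.card.choose k : ℝ) := by
      exact_mod_cast Nat.choose_pos (by omega : k ≤ E.card)
    rw [abs_div, abs_of_pos hc, div_le_iff₀ hc]
    refine (abs_sum_le_sum_abs _ _).trans ?_
    calc ∑ U ∈ E.powersetCard k, |Φ U| ≤ ∑ U ∈ E.powersetCard k, M :=
          sum_le_sum (fun U hU => h U (mem_powersetCard.1 hU).1)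
      _ = M * (E.card.choose k : ℝ) := by
          rw [sum_const, card_powersetCard, nsmul_eq_mul]
          ring
  | succ s ih =>
    intro E Φ M h k hk
    have hS : (0 : ℝ) < (E.card : ℝ) := by exact_mod_cast (by omega : 0 < E.card)
    have h1 : Df (s + 1) (av E Φ) k =
        -(∑ x ∈ E, Df s (av (E.erase x) (fun U => Φ (insert x U) - Φ U)) k) / E.card := by
      have h2 : Df s (av E Φ) (k + 1) - Df s (av E Φ) k =
          Df s (fun j => av E Φ (j + 1) - av E Φ j) k := by
        unfold Df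
        rw [← sum_sub_distrib]
        refine sum_congr rfl (fun i _ => ?_)
        rw [show k + 1 + i = k + i + 1 by ring]
        ring
      have h3 : Df s (fun j => av E Φ (j + 1) - av E Φ j) k =
          Df s (fun j => (∑ x ∈ E, av (E.erase x) (fun U => Φ (insert x U) - Φ U) j) /
            E.card) k :=
        Df_congr' (fun i hi => av_succ E Φ (by omega))
      have h4 : Df s (fun j => (∑ x ∈ E, av (E.erase x) (fun U => Φ (insert x U) - Φ U) j) /
            E.card) k = (∑ x ∈ E, Df s (av (E.erase x) (fun U => Φ (insert x U) - Φ U)) k) /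
              E.card := by
        unfold Df
        rw [sum_comm, sum_div]
        refine sum_congr rfl (fun i _ => ?_)
        rw [← mul_sum]
        ring
      rw [Df_succ]
      have h5 : Df s (av E Φ) k - Df s (av E Φ) (k + 1) =
          -(Df s (av E Φ) (k + 1) - Df s (av E Φ) k) := by ring
      rw [h5, h2, h3, h4, neg_div]
    rw [h1, abs_div, abs_neg, abs_of_pos hS, div_le_iff₀ hS]
    refine (abs_sum_le_sum_abs _ _).trans ?_
    calc ∑ x ∈ E, |Df s (av (E.erase x) (fun U => Φ (insert x U) - Φ U)) k|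
        ≤ ∑ x ∈ E, M * δ * δ ^ s := by
          refine sum_le_sum (fun x hx => ih _ _ _ (h.2 x hx) k ?_)
          rw [card_erase_of_mem hx]
          omega
      _ = M * δ ^ (s + 1) * E.card := by
          rw [sum_const, nsmul_eq_mul, pow_succ]
          ring

/-- alternating sums over the sets with about `k` elements -/
theorem sm_al (hdfj : S_DFJ) (r : ℕ) (m : ℝ) (hm : 1 ≤ m) : ∃ C : ℝ, 0 < C ∧
    ∀ (E : Finset σ) (Φ : Finset σ → ℝ) (M δ ε : ℝ) (k : ℕ), 0 ≤ M → 0 ≤ δ → δ ≤ ε → 0 < ε →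
      ε ≤ 1 → Sm δ r E Φ M → k ≤ E.card → 1 ≤ ε ^ 2 * (k : ℝ) →
      |((E.card : ℝ) - k) / ((k : ℝ) + 1) - m| ≤ ε * m →
      |∑ i ∈ range (r + 1), (-1 : ℝ) ^ i * (r.choose i : ℝ) *
        ((∑ U ∈ E.powersetCard (k + i), Φ U) / m ^ i)| ≤
        C * ε ^ r * M * (E.card.choose k : ℝ) := by
  have hd : ∀ s : ℕ, ∃ C : ℝ, 0 < C ∧ ∀ (S k : ℕ) (ε : ℝ), 0 < ε → ε ≤ 1 →
      k ≤ S → 1 ≤ ε ^ 2 * (k : ℝ) → |((S : ℝ) - k) / ((k : ℝ) + 1) - m| ≤ ε * m →
      |∑ i ∈ range (s + 1), (-1 : ℝ) ^ i * (s.choose i : ℝ) *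
        ((S.choose (k + i) : ℝ) / m ^ i)| ≤ C * ε ^ s * (S.choose k : ℝ) := by
    intro s
    obtain ⟨C, hC, h⟩ := hdfj s m hm
    refine ⟨C, hC, fun S k ε h1 h2 h3 h4 h5 => ?_⟩
    have := h S k 0 ε h1 h2 h3 (Nat.zero_le _) h4 h5
    simpa using this
  choose C hC hb using hd
  obtain ⟨C₁, hC₁⟩ : ∃ C₁, C₁ = ∑ s ∈ range (r + 1), C s := ⟨_, rfl⟩
  have hCs : ∀ s, s ≤ r → C s ≤ C₁ := fun s hs => by
    rw [hC₁]
    exact single_le_sum (f := C) (fun i _ => (hC i).le) (mem_range.2 (by omega))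
  have hC₁0 : 0 < C₁ := lt_of_lt_of_le (hC 0) (hCs 0 (Nat.zero_le _))
  have hm0 : 0 < m := by linarith
  refine ⟨2 ^ r * C₁ + 4 ^ r * (2 * r + 2) ^ r, by positivity, ?_⟩
  intro E Φ M δ ε k hM hδ hδε hε hε1 hSm hk hk2 hbal
  obtain ⟨S, hS⟩ : ∃ S, S = E.card := ⟨_, rfl⟩
  rw [← hS] at hk hbal ⊢
  have hck : (0 : ℝ) < (S.choose k : ℝ) := by exact_mod_cast Nat.choose_pos hk
  have hX : 0 ≤ ε ^ r * M * (S.choose k : ℝ) := by positivity
  rcases Nat.lt_or_ge S (k + r) with hcase | hcase
  · -- few slots: trivial bound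
    have h0 : ∀ i, ((S.choose (k + i) : ℕ) : ℝ) / m ^ i ≤ 2 ^ i * (S.choose k : ℝ) := by
      intro i
      induction i with
      | zero => simp
      | succ i ih =>
        have e1 : ((S.choose (k + i + 1) : ℕ) : ℝ) * ((k : ℝ) + i + 1) ≤
            (S.choose (k + i) : ℝ) * ((S : ℝ) - k) := by
          rcases Nat.lt_or_ge S (k + i) with h1 | h1
          · rw [Nat.choose_eq_zero_of_lt (by omega), Nat.choose_eq_zero_of_lt h1]
            simp
          · have h2 := Nat.choose_succ_right_eq S (k + i)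
            have h3 : ((S.choose (k + i + 1) : ℕ) : ℝ) * ((k : ℝ) + i + 1) =
                (S.choose (k + i) : ℝ) * (((S - (k + i) : ℕ) : ℝ)) := by exact_mod_cast h2
            rw [h3]
            refine mul_le_mul_of_nonneg_left ?_ (Nat.cast_nonneg _)
            rw [Nat.cast_sub h1]
            push_cast
            have := Nat.cast_nonneg (α := ℝ) i
            linarith
        have hk1 : (0 : ℝ) < (k : ℝ) + 1 := by positivity
        have e2 : (S : ℝ) - k ≤ 2 * m * ((k : ℝ) + 1) := by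
          have h1 := (abs_le.1 hbal).2
          have h2 : ((S : ℝ) - k) / ((k : ℝ) + 1) ≤ 2 * m := by nlinarith
          rwa [div_le_iff₀ hk1] at h2
        have e3 : ((S.choose (k + i + 1) : ℕ) : ℝ) ≤ (S.choose (k + i) : ℝ) * (2 * m) := by
          have h3 : ((S.choose (k + i + 1) : ℕ) : ℝ) * ((k : ℝ) + 1) ≤
              (S.choose (k + i) : ℝ) * (2 * m) * ((k : ℝ) + 1) := by
            have a1 : (0 : ℝ) ≤ (S.choose (k + i) : ℝ) := Nat.cast_nonneg _
            have a2 : (0 : ℝ) ≤ (S.choose (k + i + 1) : ℝ) := Nat.cast_nonneg _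
            have a3 : (0 : ℝ) ≤ (i : ℝ) := Nat.cast_nonneg _
            have a4 := mul_le_mul_of_nonneg_left e2 a1
            nlinarith [mul_nonneg a2 a3]
          exact le_of_mul_le_mul_right h3 hk1
        rw [show k + (i + 1) = k + i + 1 by ring, pow_succ, pow_succ, ← div_div]
        rw [div_le_iff₀ hm0]
        calc ((S.choose (k + i + 1) : ℕ) : ℝ) / m ^ i ≤
              ((S.choose (k + i) : ℝ) * (2 * m)) / m ^ i :=
              div_le_div_of_nonneg_right e3 (by positivity)
          _ = ((S.choose (k + i) : ℝ) / m ^ i) * (2 * m) := by ring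
          _ ≤ (2 ^ i * (S.choose k : ℝ)) * (2 * m) :=
              mul_le_mul_of_nonneg_right ih (by positivity)
          _ = _ := by ring
    have h1 : |∑ i ∈ range (r + 1), (-1 : ℝ) ^ i * (r.choose i : ℝ) *
        ((∑ U ∈ E.powersetCard (k + i), Φ U) / m ^ i)| ≤ 4 ^ r * (M * (S.choose k : ℝ)) := by
      refine (abs_sum_le_sum_abs _ _).trans ?_
      calc ∑ i ∈ range (r + 1), |(-1 : ℝ) ^ i * (r.choose i : ℝ) *
            ((∑ U ∈ E.powersetCard (k + i), Φ U) / m ^ i)|
          ≤ ∑ i ∈ range (r + 1), (r.choose i : ℝ) * (2 ^ r * (M * (S.choose k : ℝ))) := by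
            refine sum_le_sum (fun i hi => ?_)
            rw [mem_range] at hi
            rw [abs_mul, abs_mul, abs_pow, abs_neg, abs_one, one_pow, one_mul, Nat.abs_cast]
            refine mul_le_mul_of_nonneg_left ?_ (Nat.cast_nonneg _)
            rw [abs_div, abs_of_pos (by positivity : 0 < m ^ i)]
            have h2 : |∑ U ∈ E.powersetCard (k + i), Φ U| ≤ M * (S.choose (k + i) : ℝ) := by
              refine (abs_sum_le_sum_abs _ _).trans ?_
              calc ∑ U ∈ E.powersetCard (k + i), |Φ U| ≤ ∑ U ∈ E.powersetCard (k + i), M :=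
                    sum_le_sum (fun U hU => hSm.bd U (mem_powersetCard.1 hU).1)
                _ = _ := by
                    rw [sum_const, card_powersetCard, nsmul_eq_mul, ← hS]
                    ring
            calc |∑ U ∈ E.powersetCard (k + i), Φ U| / m ^ i
                ≤ M * (S.choose (k + i) : ℝ) / m ^ i :=
                  div_le_div_of_nonneg_right h2 (by positivity)
              _ = M * ((S.choose (k + i) : ℝ) / m ^ i) := by ring
              _ ≤ M * (2 ^ i * (S.choose k : ℝ)) := mul_le_mul_of_nonneg_left (h0 i) hM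
              _ ≤ M * (2 ^ r * (S.choose k : ℝ)) := by
                  have : (2 : ℝ) ^ i ≤ 2 ^ r := pow_le_pow_right₀ (by norm_num) (by omega)
                  gcongr
              _ = _ := by ring
        _ = 4 ^ r * (M * (S.choose k : ℝ)) := by
            rw [← sum_mul]
            have h4 : ∑ i ∈ range (r + 1), (r.choose i : ℝ) = 2 ^ r := by
              exact_mod_cast Nat.sum_range_choose r
            rw [h4, show (4 : ℝ) = 2 * 2 by norm_num, mul_pow]
            ring
    have h2 : 1 ≤ (2 * (r : ℝ) + 2) ^ r * ε ^ r := by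
      rw [← mul_pow]
      refine one_le_pow₀ ?_
      have hr0 : (0 : ℝ) ≤ r := Nat.cast_nonneg r
      by_cases hε2 : ε ≤ 1 / 2
      · have a1 : (1 - ε) * m ≤ ((S : ℝ) - k) / ((k : ℝ) + 1) := by
          have := (abs_le.1 hbal).1
          linarith
        have a2 : (1 / 2 : ℝ) ≤ ((S : ℝ) - k) / ((k : ℝ) + 1) := by nlinarith
        rw [le_div_iff₀ (by positivity)] at a2
        have a3 : (S : ℝ) < k + r := by exact_mod_cast hcase
        have a4 : (k : ℝ) < 2 * r := by linarith
        have a5 : 1 ≤ ε ^ 2 * (2 * r + 2) := by nlinarith [sq_nonneg ε]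
        have a6 : ε ^ 2 ≤ ε := by nlinarith
        nlinarith
      · push Not at hε2
        nlinarith
    calc _ ≤ 4 ^ r * (M * (S.choose k : ℝ)) := h1
      _ ≤ 4 ^ r * (M * (S.choose k : ℝ)) * ((2 * (r : ℝ) + 2) ^ r * ε ^ r) :=
          le_mul_of_one_le_right (by positivity) h2
      _ = 4 ^ r * (2 * (r : ℝ) + 2) ^ r * (ε ^ r * M * (S.choose k : ℝ)) := by ring
      _ ≤ (2 ^ r * C₁ + 4 ^ r * (2 * (r : ℝ) + 2) ^ r) * (ε ^ r * M * (S.choose k : ℝ)) := by
          refine mul_le_mul_of_nonneg_right ?_ hX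
          have : 0 ≤ 2 ^ r * C₁ := by positivity
          linarith
      _ = _ := by ring
  · -- product rule
    obtain ⟨b, hbdef⟩ : ∃ b : ℕ → ℝ, b = fun j => (S.choose j : ℝ) / m ^ j * m ^ k := ⟨_, rfl⟩
    have h1 : ∑ i ∈ range (r + 1), (-1 : ℝ) ^ i * (r.choose i : ℝ) *
        ((∑ U ∈ E.powersetCard (k + i), Φ U) / m ^ i) = Df r (fun j => b j * av E Φ j) k := by
      unfold Df
      refine sum_congr rfl (fun i hi => ?_)
      rw [mem_range] at hi
      congr 1
      rw [hbdef]
      unfold av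
      have hc : (0 : ℝ) < (S.choose (k + i) : ℝ) := by
        exact_mod_cast Nat.choose_pos (by omega : k + i ≤ S)
      beta_reduce
      rw [← hS, pow_add]
      field_simp
    have h2 : ∀ s, s ≤ r → |Df s b k| ≤ C s * ε ^ s * (S.choose k : ℝ) := by
      intro s hs
      refine le_trans (le_of_eq ?_) (hb s S k ε hε hε1 hk hk2 hbal)
      congr 1
      unfold Df
      refine sum_congr rfl (fun i _ => ?_)
      rw [hbdef]
      beta_reduce
      rw [pow_add]
      field_simp
    rw [h1, Df_mul]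
    refine (abs_sum_le_sum_abs _ _).trans ?_
    calc ∑ s ∈ range (r + 1), |(r.choose s : ℝ) * (Df s b k * Df (r - s) (av E Φ) (k + s))|
        ≤ ∑ s ∈ range (r + 1), (r.choose s : ℝ) * (C₁ * (ε ^ r * M * (S.choose k : ℝ))) := by
          refine sum_le_sum (fun s hs => ?_)
          rw [mem_range] at hs
          rw [abs_mul, Nat.abs_cast, abs_mul]
          refine mul_le_mul_of_nonneg_left ?_ (Nat.cast_nonneg _)
          have e1 := h2 s (by omega)
          have e2 := sm_av hδ (r - s) E Φ M (hSm.le (by omega)) (k + s) (by omega)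
          have e3 : δ ^ (r - s) ≤ ε ^ (r - s) := pow_le_pow_left₀ hδ hδε _
          have e4 : ε ^ s * ε ^ (r - s) = ε ^ r := by
            rw [← pow_add]
            congr 1
            omega
          calc |Df s b k| * |Df (r - s) (av E Φ) (k + s)|
              ≤ (C s * ε ^ s * (S.choose k : ℝ)) * (M * δ ^ (r - s)) :=
                mul_le_mul e1 e2 (abs_nonneg _) (by have := hC s; positivity)
            _ ≤ (C₁ * ε ^ s * (S.choose k : ℝ)) * (M * ε ^ (r - s)) := by
                have := hCs s (by omega)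
                have := hC s
                gcongr
            _ = C₁ * ((ε ^ s * ε ^ (r - s)) * M * (S.choose k : ℝ)) := by ring
            _ = _ := by rw [e4]
      _ = 2 ^ r * C₁ * (ε ^ r * M * (S.choose k : ℝ)) := by
          rw [← sum_mul]
          have h4 : ∑ i ∈ range (r + 1), (r.choose i : ℝ) = 2 ^ r := by
            exact_mod_cast Nat.sum_range_choose r
          rw [h4]
          ring
      _ ≤ (2 ^ r * C₁ + 4 ^ r * (2 * (r : ℝ) + 2) ^ r) * (ε ^ r * M * (S.choose k : ℝ)) := by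
          refine mul_le_mul_of_nonneg_right ?_ hX
          have : 0 ≤ 4 ^ r * (2 * (r : ℝ) + 2) ^ r := by positivity
          linarith
      _ = _ := by ring

end

end Pool.Agent.K6.H96.SP
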