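import Pool.Agent.K6.H96.SP.Err

/-!
# Smoothed functions of the area are smooth functionals of the occupied slots
-/

set_option autoImplicit false
set_option linter.unusedVariables false
set_option linter.unusedSectionVars false

namespace Pool.Agent.K6.H96.SP

open Pool.Agent.H976R2 Pool.Agent.H976R2.Dir Finset
open Pool.Agent.N929.EX Pool.Agent.N929.EY Pool.Agent.N929.EZ
open Pool.Agent.H739K (KP ar lp)
open scoped Classical

noncomputable section

theorem Sm.mono {σ : Type} {δ : ℝ} (hδ : 0 ≤ δ) {s : ℕ} : ∀ {E : Finset σ} {Φ : Finset σ → ℝ}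
    {M M' : ℝ}, Sm δ s E Φ M → M ≤ M' → Sm δ s E Φ M' := by
  induction s with
  | zero =>
    intro E Φ M M' h hM U hU
    exact (h U hU).trans hM
  | succ s ih =>
    intro E Φ M M' h hM
    exact ⟨fun U hU => (h.1 U hU).trans hM, fun x hx =>
      ih (h.2 x hx) (mul_le_mul_of_nonneg_right hM hδ)⟩

variable {M : ℕ} [NeZero M] (N : ℕ)

theorem TOpow_norm (hN : 0 < N) (s : ℕ) : ∀ g : ZMod M → ℂ, ‖((TO M N) ^ s) g‖ ≤ 2 ^ s * ‖g‖ := by
  induction s with
  | zero => intro g; simp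
  | succ s ih =>
    intro g
    rw [pow_succ, Module.End.mul_apply]
    refine (ih _).trans ?_
    rw [pow_succ, mul_assoc]
    exact mul_le_mul_of_nonneg_left (TO_norm N hN g) (by positivity)

theorem TO_dnorm' (hN : 0 < N) (g : ZMod M → ℂ) {c : ZMod M} (hc : c = 1 ∨ c = -1) :
    ‖TA c (TO M N g) - TO M N g‖ ≤ 33 * N / M * ‖g‖ := by
  have hM : (0 : ℝ) < M := M_pos
  rw [pi_norm_le_iff_of_nonneg (by positivity)]
  intro a
  rw [Pi.sub_apply, TA_apply]
  rcases hc with rfl | rfl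
  · exact TO_dnorm N hN g a
  · have h := TO_dnorm N hN g (a + -1)
    rw [neg_add_cancel_right] at h
    rwa [norm_sub_rev]

theorem smT {σ : Type} (hN : 0 < N) (sgn : σ → ZMod M) (hs : ∀ q, sgn q = 1 ∨ sgn q = -1) (s : ℕ) :
    ∀ (g : ZMod M → ℂ) (B : ℝ) (E : Finset σ) (a : ZMod M), ‖g‖ ≤ B →
      Sm (33 * N / M) s E (fun U => ((((TO M N) ^ s) g) (a + ∑ q ∈ U, sgn q)).re) (2 ^ s * B) := by
  have hM : (0 : ℝ) < M := M_pos
  induction s with
  | zero =>
    intro g B E a hg U hU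
    rw [pow_zero, pow_zero, one_mul]
    exact (Complex.abs_re_le_norm _).trans ((norm_le_pi_norm _ _).trans hg)
  | succ s ih =>
    intro g B E a hg
    refine ⟨fun U hU => ?_, fun x hx => ?_⟩
    · refine (Complex.abs_re_le_norm _).trans ((norm_le_pi_norm _ _).trans ?_)
      exact (TOpow_norm N hN _ g).trans (mul_le_mul_of_nonneg_left hg (by positivity))
    · obtain ⟨u, hu⟩ : ∃ u, u = TA (sgn x) (TO M N g) - TO M N g := ⟨_, rfl⟩
      have hun : ‖u‖ ≤ 33 * N / M * B := by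
        rw [hu]
        exact (TO_dnorm' N hN g (hs x)).trans (mul_le_mul_of_nonneg_left hg (by positivity))
      have h1 := ih u _ (E.erase x) a hun
      have hB : 0 ≤ B := (norm_nonneg g).trans hg
      refine (h1.mono (by positivity) ?_).congr (fun U hU => ?_)
      · rw [pow_succ]
        have : 0 ≤ 2 ^ s * (33 * N / M * B) := by positivity
        linarith
      · have hxU : x ∉ U := fun h => absurd (hU h) (notMem_erase x E)
        beta_reduce
        rw [sum_insert hxU]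
        have e1 : ((TO M N) ^ s) u =
            TA (sgn x) (((TO M N) ^ (s + 1)) g) - ((TO M N) ^ (s + 1)) g := by
          have hc : ((TO M N) ^ s) (TA (sgn x) (TO M N g)) =
              TA (sgn x) (((TO M N) ^ s) (TO M N g)) := by
            have h2 := ((TO_TA N (sgn x)).pow_left s).eq
            have h3 := congrArg (fun f => f (TO M N g)) h2
            simpa [Module.End.mul_apply] using h3
          rw [hu, map_sub, hc, pow_succ, Module.End.mul_apply]
        rw [e1, Pi.sub_apply, TA_apply, Complex.sub_re]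
        congr 3
        ring_nf

/-- signs of slots -/
def sgz (M : ℕ) (w : List Dir) (q : ℤ × ℤ) : ZMod M :=
  if Pool.Agent.H924P.Encl (w.length + 1) (lp (w.length + 1) w) q then -1 else 1

theorem ar_flz (M : ℕ) {L : Finset (ℤ × ℤ)} (hL : CF L) {st : List Dir → List Dir}
    {fl : List Dir → Finset (ℤ × ℤ) → List Dir} (hfl : Fill L 0 0 st fl) {w : List Dir}
    (hw : Em L 0 0 w) (h3 : 3 ≤ w.length) (hs : sq w = 1) {U : Finset (ℤ × ℤ)}
    (hU : U ⊆ Sl L 0 0 w) : ((ar (fl w U) : ℕ) : ZMod M) =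
      ((ar w : ℕ) : ZMod M) + ∑ q ∈ U, sgz M w q := by
  have h := ar_fl hL hfl hw h3 hs hU
  have h1 : ∀ q, sg w q = ((if Pool.Agent.H924P.Encl (w.length + 1) (lp (w.length + 1) w) q
      then -1 else 1 : ℤ) : ℝ) := by
    intro q
    unfold sg
    split_ifs <;> norm_num
  rw [sum_congr rfl (fun q _ => h1 q)] at h
  have h2 : ((ar (fl w U) : ℕ) : ℤ) = ((ar w : ℕ) : ℤ) +
      ∑ q ∈ U, (if Pool.Agent.H924P.Encl (w.length + 1) (lp (w.length + 1) w) q
      then -1 else 1 : ℤ) := by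
    exact_mod_cast h
  have h4 := congrArg (fun z : ℤ => (z : ZMod M)) h2
  simp only [Int.cast_natCast, Int.cast_add, Int.cast_sum] at h4
  rw [h4]
  congr 1
  refine sum_congr rfl (fun q _ => ?_)
  unfold sgz
  split_ifs <;> simp

/-- the smoothed functional -/
def FT (r : ℕ) (g : ZMod M → ℂ) (w : List Dir) : ℝ := ((((TO M N) ^ r) g) ((ar w : ℕ) : ZMod M)).re

theorem FT_abs (hN : 0 < N) (r : ℕ) (g : ZMod M → ℂ) (w : List Dir) :
    |FT N r g w| ≤ 2 ^ r * ‖g‖ :=
  (Complex.abs_re_le_norm _).trans ((norm_le_pi_norm _ _).trans (TOpow_norm N hN r g))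

theorem sm_FT (hN : 0 < N) (r : ℕ) (g : ZMod M → ℂ) {L : Finset (ℤ × ℤ)} (hL : CF L)
    {st : List Dir → List Dir}
    {fl : List Dir → Finset (ℤ × ℤ) → List Dir} (hfl : Fill L 0 0 st fl) {w : List Dir}
    (hw : Em L 0 0 w) (h3 : 3 ≤ w.length) (hs : sq w = 1) :
    Sm (33 * N / M) r (Sl L 0 0 w) (fun U => FT N r g (fl w U)) (2 ^ r * ‖g‖) := by
  refine (smT N hN (sgz M w) (fun q => ?_) r g ‖g‖ (Sl L 0 0 w) ((ar w : ℕ) : ZMod M)
    le_rfl).congr (fun U hU => ?_)
  · unfold sgz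
    split_ifs
    · exact Or.inr rfl
    · exact Or.inl rfl
  · unfold FT
    rw [ar_flz M hL hfl hw h3 hs hU]

theorem FF_one : FF (fun _ _ => True) 0 (fun _ _ => 1) = fun _ => 1 := by
  funext w
  unfold FF
  simp

theorem sm_part (r : ℕ) : ∃ δ₁ Λ K : ℝ, 0 < δ₁ ∧ δ₁ ≤ 1 ∧ 1 ≤ Λ ∧ 0 < K ∧
    ∀ (n : ℕ) (ε : ℝ), 3 ≤ n → n % 2 = 1 → 0 < ε → ε ≤ δ₁ → Λ * Real.log n ^ 2 ≤ ε ^ 2 * n →
    ∀ (M N : ℕ) [NeZero M], 0 < N → 33 * (N : ℝ) / M ≤ ε → ∀ g : ZMod M → ℂ,
      |∑ i ∈ range (r + 1), (-1 : ℝ) ^ i * (r.choose i : ℝ) *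
        ((∑ w ∈ KP (n + 2 * i), FT N r g w) / ((KP (n + 2 * i)).card : ℝ))| ≤
        K * ε ^ r * ‖g‖ := by
  obtain ⟨δ₁, A', B, hδ₁, hδ₁1, hA', hB, hrel⟩ := rel (81 * 16 * 208 ^ 0) (by norm_num) (2 * 0) r
  obtain ⟨K, hK, hμ, hupp, hKP, -⟩ := paof
  choose A C hA hC h using paofS
  have hμ0 : 0 < H981.mu := by linarith
  obtain ⟨A₁, hA₁⟩ : ∃ A₁, A₁ = ∑ s ∈ range (r + 1), A s := ⟨_, rfl⟩
  obtain ⟨C₁, hC₁⟩ : ∃ C₁, C₁ = ∑ s ∈ range (r + 1), C s := ⟨_, rfl⟩
  have hAs : ∀ s, s ≤ r → A s ≤ A₁ := fun s hs => by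
    rw [hA₁]
    exact single_le_sum (f := A) (fun i _ => (hA i).le) (mem_range.2 (by omega))
  have hCs : ∀ s, s ≤ r → C s ≤ C₁ := fun s hs => by
    rw [hC₁]
    exact single_le_sum (f := C) (fun i _ => (hC i).le) (mem_range.2 (by omega))
  have hA₁0 : 0 < A₁ := lt_of_lt_of_le (hA 0) (hAs 0 (by omega))
  have hC₁0 : 0 < C₁ := lt_of_lt_of_le (hC 0) (hCs 0 (by omega))
  obtain ⟨Cq, hCq, hquo⟩ := Pool.Agent.N278.EZ.quo r (B + 2 * C₁ * 2 ^ r) (by positivity)
  have hr0 : (0 : ℝ) ≤ r := Nat.cast_nonneg r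
  refine ⟨δ₁, A' + A₁ + A₁ * (2 * K + r + 2), Cq, hδ₁, hδ₁1, by
      have : 0 ≤ A₁ + A₁ * (2 * K + r + 2) := by positivity
      linarith, hCq, ?_⟩
  intro n ε hn ho hε hεδ hΛ M N _ hN hρ g
  have hε1 : ε ≤ 1 := hεδ.trans hδ₁1
  have hM : (0 : ℝ) < M := M_pos
  have hlog := log_ge_one hn
  have hlog2 : 1 ≤ Real.log n ^ 2 := one_le_pow₀ hlog
  have hlog3 : Real.log n ≤ Real.log n ^ 2 := by nlinarith
  have hn' : (3 : ℝ) ≤ n := by exact_mod_cast hn
  have b1 : A' * (Real.log n ^ 2 + 0) ≤ ε ^ 2 * n := by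
    refine le_trans ?_ hΛ
    rw [add_zero]
    refine mul_le_mul_of_nonneg_right ?_ (by positivity)
    have : 0 ≤ A₁ + A₁ * (2 * K + r + 2) := by positivity
    linarith
  have b2 : A₁ * Real.log n ^ 2 ≤ ε ^ 2 * n := by
    refine le_trans ?_ hΛ
    refine mul_le_mul_of_nonneg_right ?_ (by positivity)
    have : 0 ≤ A' + A₁ * (2 * K + r + 2) := by positivity
    linarith
  have b3 : A₁ * (2 * K + r + 2) * Real.log n ^ 2 ≤ ε ^ 2 * n := by
    refine le_trans ?_ hΛ
    refine mul_le_mul_of_nonneg_right ?_ (by positivity)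
    have : 0 ≤ A' + A₁ := by positivity
    linarith
  have b5 : 1 ≤ ε ^ 2 * n := by
    refine le_trans ?_ b1
    nlinarith
  have b6 : Real.exp (-Real.log n) ≤ ε := by
    rw [Real.exp_neg, Real.exp_log (by linarith)]
    rw [inv_eq_one_div, div_le_iff₀ (by linarith)]
    have : ε ^ 2 ≤ ε := by nlinarith
    nlinarith
  have hKPn := KP_pos hn ho
  obtain ⟨g0, g1, g2⟩ := hrel (FC (fun _ _ => True) 0) (FF (fun _ _ => True) 0 (fun _ _ => 1))
    (cls_box (fun _ _ => True) (fun _ _ _ _ _ _ _ => trivial) 0) n 0 ε hn ho le_rfl (by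
      rw [FF_one, Real.exp_zero, one_mul]
      simp) hε hεδ b1
  rw [FF_one] at g0 g1 g2
  have hnf0 : nf (fun _ => 1) n 0 = ((KP n).card : ℝ) := by
    unfold nf
    simp
  have hgp : ∀ j, 0 < nf (fun _ => (1 : ℝ)) n j := fun j => by
    unfold nf
    rw [sum_const, nsmul_eq_mul, mul_one]
    exact div_pos (KP_pos (by omega) (by omega)) (by positivity)
  have hρ0 : 0 ≤ 33 * (N : ℝ) / M := by positivity
  have hgn := norm_nonneg g
  have hF : ∀ s, s ≤ r → |Df s (nf (FT N r g) n) 0| ≤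
      (B + 2 * C₁ * 2 ^ r) * ε ^ s * (‖g‖ * nf (fun _ => (1 : ℝ)) n 0) := by
    intro s hs
    obtain ⟨L, hL, hl⟩ := h s n ε (33 * N / M) hn hε hε1 hρ0 hρ (by
      refine le_trans (mul_le_mul_of_nonneg_right (hAs s hs) (by positivity)) b2)
    obtain ⟨st, fl, hfl⟩ := s_bij L hL 0 0
    have h2 := hl st fl hfl (FT N r g) (fun _ => 2 ^ r * ‖g‖) (2 ^ r * ‖g‖) (by positivity)
      (fun _ => by positivity) (fun i _ w _ => FT_abs N hN r g w)
      (fun w hw hs' h3 => (sm_FT N hN r g hL hfl hw h3 hs').le hs)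
    rw [nf_diff, mul_zero, pow_zero, div_one, add_zero]
    refine h2.trans ?_
    rw [sum_const, nsmul_eq_mul, hnf0]
    have e1 := hupp n n (by omega) le_rfl
    have e2 := hKP n hn ho
    have e3 : Real.exp (-(ε ^ 2 * n / A s)) ≤
        Real.exp (-((2 * K + r + 2) * Real.log n ^ 2)) := by
      apply Real.exp_le_exp.mpr
      apply neg_le_neg
      rw [le_div_iff₀ (hA s)]
      calc (2 * K + r + 2) * Real.log n ^ 2 * A s
          ≤ (2 * K + r + 2) * Real.log n ^ 2 * A₁ :=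
            mul_le_mul_of_nonneg_left (hAs s hs) (by positivity)
        _ = A₁ * (2 * K + r + 2) * Real.log n ^ 2 := by ring
        _ ≤ _ := b3
    have e5 : Real.exp (-(s * Real.log n)) ≤ ε ^ s := by
      rw [show -((s : ℝ) * Real.log n) = s * (-Real.log n) by ring, Real.exp_nat_mul]
      exact pow_le_pow_left₀ (Real.exp_pos _).le b6 s
    have hs' : (s : ℝ) ≤ r := by exact_mod_cast hs
    have e7 : (4 : ℝ) ≤ Real.exp (2 * Real.log n ^ 2) := by
      have f1 : Real.exp 2 ≤ Real.exp (2 * Real.log n ^ 2) :=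
        Real.exp_le_exp.mpr (by linarith)
      have f2 : Real.exp 2 = Real.exp 1 * Real.exp 1 := by
        rw [← Real.exp_add]
        norm_num
      have f3 := Real.exp_one_gt_d9
      nlinarith
    have e8 : Real.exp (-(ε ^ 2 * n / A s)) * ((SW n).card : ℝ) ≤ ε ^ s * ((KP n).card : ℝ) := by
      calc Real.exp (-(ε ^ 2 * n / A s)) * ((SW n).card : ℝ)
          ≤ Real.exp (-((2 * K + r + 2) * Real.log n ^ 2)) *
            (Real.exp (2 * Real.log n ^ 2) * ((Real.exp (K * Real.log n ^ 2) *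
              ((KP n).card : ℝ)) * Real.exp (K * Real.log n ^ 2))) := by
            refine mul_le_mul e3 (e1.trans ?_) (Nat.cast_nonneg _) (Real.exp_pos _).le
            gcongr
        _ = Real.exp (-((2 * K + r + 2) * Real.log n ^ 2) + (2 * Real.log n ^ 2 +
            (K * Real.log n ^ 2 + K * Real.log n ^ 2))) * ((KP n).card : ℝ) := by
            simp only [Real.exp_add]
            ring
        _ ≤ Real.exp (-(s * Real.log n)) * ((KP n).card : ℝ) := by
            refine mul_le_mul_of_nonneg_right (Real.exp_le_exp.mpr ?_) hKPn.le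
            have f1 : (s : ℝ) * Real.log n ≤ r * Real.log n ^ 2 :=
              mul_le_mul hs' hlog3 (by linarith) hr0
            nlinarith
        _ ≤ _ := mul_le_mul_of_nonneg_right e5 hKPn.le
    have e9 := mul_le_mul_of_nonneg_left e8 (by positivity : 0 ≤ 2 ^ r * ‖g‖)
    have hCs' := hCs s hs
    have hCp := hC s
    have hεs : 0 < ε ^ s := by positivity
    calc C s * (ε ^ s * (((KP n).card : ℝ) * (2 ^ r * ‖g‖)) +
          2 ^ r * ‖g‖ * (Real.exp (-(ε ^ 2 * n / A s)) * ((SW n).card : ℝ)))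
        ≤ C₁ * (ε ^ s * (((KP n).card : ℝ) * (2 ^ r * ‖g‖)) +
          2 ^ r * ‖g‖ * (ε ^ s * ((KP n).card : ℝ))) := by
          refine mul_le_mul hCs' (add_le_add le_rfl e9) (by positivity) (by positivity)
      _ = (2 * C₁ * 2 ^ r) * ε ^ s * (‖g‖ * ((KP n).card : ℝ)) := by ring
      _ ≤ (B + 2 * C₁ * 2 ^ r) * ε ^ s * (‖g‖ * ((KP n).card : ℝ)) := by
          refine mul_le_mul_of_nonneg_right (mul_le_mul_of_nonneg_right ?_ hεs.le) (by positivity)
          linarith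
  have h3 := hquo (nf (FT N r g) n) (nf (fun _ => 1) n) 0 (‖g‖ * nf (fun _ => (1 : ℝ)) n 0) ε hε hε1
    (mul_nonneg hgn g0.le) (fun j _ => hgp _)
    (fun j hj => by
      rw [zero_add]
      refine (g1 j hj).trans (mul_le_mul_of_nonneg_right ?_ (hgp j).le)
      have : 0 ≤ 2 * C₁ * 2 ^ r := by positivity
      linarith)
    (fun s hs => hF s hs)
    (fun s j hsj => by
      rw [zero_add]
      refine (g2 (fun _ => 1) ⟨fun _ _ => 1, fun _ _ => by simp, FF_one.symm⟩ s j hsj).trans ?_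
      refine mul_le_mul_of_nonneg_right (mul_le_mul_of_nonneg_right ?_ (by positivity)) g0.le
      have : 0 ≤ 2 * C₁ * 2 ^ r := by positivity
      linarith)
  have h4 : Df r (fun j => nf (FT N r g) n j / nf (fun _ => 1) n j) 0 =
      ∑ i ∈ range (r + 1), (-1 : ℝ) ^ i * (r.choose i : ℝ) *
        ((∑ w ∈ KP (n + 2 * i), FT N r g w) / ((KP (n + 2 * i)).card : ℝ)) := by
    unfold Df
    refine sum_congr rfl (fun i _ => ?_)
    congr 1
    rw [zero_add]
    unfold nf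
    beta_reduce
    rw [sum_const, nsmul_eq_mul, mul_one]
    have h5 : (0 : ℝ) < ((KP (n + 2 * i)).card : ℝ) := KP_pos (by omega) (by omega)
    have h6 : 0 < H981.mu ^ (2 * i) := by positivity
    field_simp
  rw [h4] at h3
  refine h3.trans (le_of_eq ?_)
  field_simp

end

end Pool.Agent.K6.H96.SP
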